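import Pool.Agent.Lib.MP_6b2d39_agUn.DimU

set_option autoImplicit false

namespace Pool.Agent.Lib.MP_6b2d39_agUn

open Pool.Agent.Lib.MP_6b2d39_agCr

private theorem dm_finite {n : ℕ} (e : ℕ) (μ : Fin n → ℕ) (P : Fin n → Fin 3 → ℂ) :
    Module.Finite ℂ (curves e μ P) := by
  classical
  let S : Finset (Fin 3 →₀ ℕ) := Finset.finsuppAntidiag Finset.univ e
  let g : curves e μ P →ₗ[ℂ] (S → ℂ) :=
    (LinearMap.pi fun u : S => MvPolynomial.lcoeff ℂ (u : Fin 3 →₀ ℕ)).comp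
      (curves e μ P).subtype
  refine Module.Finite.of_injective g ?_
  rw [← LinearMap.ker_eq_bot, LinearMap.ker_eq_bot']
  rintro ⟨F, hF⟩ h0
  have hF1 : F.IsHomogeneous e := hF.1
  refine Subtype.ext ?_
  show F = 0
  ext u
  rw [MvPolynomial.coeff_zero]
  by_cases hu : u ∈ S
  · exact congrFun h0 ⟨u, hu⟩
  · refine hF1.coeff_eq_zero fun h => hu ?_
    simp only [S, Finset.mem_finsuppAntidiag, Finset.subset_univ, and_true]
    rw [← h, Finsupp.degree_eq_sum]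

private theorem dm_mem {n d k : ℕ} (μ : Fin n → ℕ) (P : Fin n → Fin 3 → ℂ)
    {F : MvPolynomial (Fin 3) ℂ} (hF : F ∈ curves d μ P) :
    (MvPolynomial.X 0 : MvPolynomial (Fin 3) ℂ) ^ k * F ∈ curves (d + k) μ P := by
  have h1 : F.IsHomogeneous d := hF.1
  have h2 := hF.2
  refine ⟨?_, ?_⟩
  · show ((MvPolynomial.X 0 : MvPolynomial (Fin 3) ℂ) ^ k * F).IsHomogeneous (d + k)
    have h3 := ((MvPolynomial.isHomogeneous_X ℂ (0 : Fin 3)).pow k).mul h1
    rwa [one_mul, add_comm] at h3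
  · show (MvPolynomial.X 0 : MvPolynomial (Fin 3) ℂ) ^ k * F ∈
      (⨅ i, ((RingHom.ker (MvPolynomial.eval (P i))) ^ (μ i)).restrictScalars ℂ :
        Submodule ℂ (MvPolynomial (Fin 3) ℂ))
    rw [Submodule.mem_iInf]
    intro i
    have h4 := (Submodule.mem_iInf _).1 h2 i
    have h5 : F ∈ (RingHom.ker (MvPolynomial.eval (P i))) ^ (μ i) := h4
    show (MvPolynomial.X 0 : MvPolynomial (Fin 3) ℂ) ^ k * F ∈
      (RingHom.ker (MvPolynomial.eval (P i))) ^ (μ i)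
    exact Ideal.mul_mem_left _ _ h5

/-- U70. multiplication by a linear form maps `curves d μ P` injectively into `curves (d + 1) μ P`
(finite dimension as in `Cr`, see `curves_raise` and its file) -/
theorem deg_mono {n d e : ℕ} (hde : d ≤ e) (μ : Fin n → ℕ) (P : Fin n → Fin 3 → ℂ) :
    Module.finrank ℂ (curves d μ P) ≤ Module.finrank ℂ (curves e μ P) := by
  obtain ⟨k, rfl⟩ := Nat.exists_eq_add_of_le hde
  have := dm_finite (d + k) μ P
  let f : curves d μ P →ₗ[ℂ] curves (d + k) μ P :=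
    (LinearMap.mulLeft ℂ ((MvPolynomial.X 0 : MvPolynomial (Fin 3) ℂ) ^ k)).restrict
      (fun F hF => dm_mem μ P hF)
  refine LinearMap.finrank_le_finrank_of_injective (f := f) ?_
  rintro ⟨F, hF⟩ ⟨G, hG⟩ h
  have h1 : (MvPolynomial.X 0 : MvPolynomial (Fin 3) ℂ) ^ k * F =
      (MvPolynomial.X 0 : MvPolynomial (Fin 3) ℂ) ^ k * G := congrArg Subtype.val h
  have h2 : (MvPolynomial.X 0 : MvPolynomial (Fin 3) ℂ) ^ k ≠ 0 :=
    pow_ne_zero _ (MvPolynomial.X_ne_zero _)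
  exact Subtype.ext (mul_left_cancel₀ h2 h1)

end Pool.Agent.Lib.MP_6b2d39_agUn
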