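import Mathlib

/-!
THEOREM U: the dyadic class of multiplicities which is used last.
-/

set_option autoImplicit false

namespace Pool.Agent.Lib.MP_6b2d39_agUn

/-- UN (class_ex). There is a dyadic class `μ / 2 < m i ≤ μ` of large mass such that the mass of
the points with `m i > μ` is bounded. -/
theorem class_ex {ι : Type} [DecidableEq ι] (m : ι → ℕ) (f : ι → ℤ) (hf : ∀ i, 0 ≤ f i)
    (hf0 : ∀ i, m i = 0 → f i = 0) {z W' : ℤ} (hz : 0 ≤ z) (hW : 0 ≤ W') (M : ℕ) :
    ∀ J : Finset ι, (∀ i ∈ J, m i ≤ M) → 1 ≤ M →
      8 * (M : ℤ) * z + W' * (Nat.log 2 M + 1) ≤ ∑ i ∈ J, f i → 0 < z + W' →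
      ∃ μ : ℕ, 1 ≤ μ ∧ μ ≤ M ∧
        4 * (μ : ℤ) * z + W' ≤ ∑ i ∈ J.filter (fun i => μ < 2 * m i ∧ m i ≤ μ), f i ∧
        ∑ i ∈ J.filter (fun i => μ < m i), f i ≤ 8 * (M : ℤ) * z + W' * Nat.log 2 M := by
  induction M using Nat.strong_induction_on with
  | _ M ih =>
    intro J hJ hM hmass hpos
    have hM0 : (1 : ℤ) ≤ M := by exact_mod_cast hM
    have hMz : 0 ≤ (M : ℤ) * z := mul_nonneg (by linarith) hz
    by_cases htop : 4 * (M : ℤ) * z + W' ≤ ∑ i ∈ J.filter (fun i => M < 2 * m i ∧ m i ≤ M), f i
    · refine ⟨M, hM, le_rfl, htop, ?_⟩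
      have h1 : J.filter (fun i => M < m i) = ∅ := by
        rw [Finset.filter_eq_empty_iff]
        intro i hi
        have := hJ i hi
        omega
      rw [h1, Finset.sum_empty]
      have h2 : 0 ≤ W' * (Nat.log 2 M : ℤ) := mul_nonneg hW (by positivity)
      linarith
    · push Not at htop
      have hsplit : ∑ i ∈ J, f i = ∑ i ∈ J.filter (fun i => M < 2 * m i ∧ m i ≤ M), f i +
          ∑ i ∈ J.filter (fun i => 2 * m i ≤ M), f i := by
        rw [← Finset.sum_filter_add_sum_filter_not J (fun i => M < 2 * m i ∧ m i ≤ M)]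
        congr 1
        refine Finset.sum_congr (Finset.filter_congr fun i hi => ?_) fun _ _ => rfl
        have := hJ i hi
        constructor
        · intro h
          by_contra h'
          exact h ⟨by omega, this⟩
        · intro h h'
          omega
      set J' := J.filter (fun i => 2 * m i ≤ M) with hJ'
      by_cases hM1 : M = 1
      · -- the rest has no mass
        exfalso
        have h1 : ∑ i ∈ J', f i = 0 := by
          refine Finset.sum_eq_zero fun i hi => ?_
          rw [hJ', Finset.mem_filter] at hi
          exact hf0 i (by omega)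
        rw [hM1] at hmass htop
        rw [hsplit, h1, hM1] at hmass
        norm_num at hmass htop
        linarith
      · have hM2 : 2 ≤ M := by omega
        have hlog : Nat.log 2 M = Nat.log 2 (M / 2) + 1 := by
          rw [Nat.log_div_base]
          have : 1 ≤ Nat.log 2 M := Nat.log_pos (by norm_num) hM2
          omega
        have hhalf : 8 * ((M / 2 : ℕ) : ℤ) ≤ 4 * M := by omega
        have hhalfz : 8 * ((M / 2 : ℕ) : ℤ) * z ≤ 4 * M * z := mul_le_mul_of_nonneg_right hhalf hz
        have hmass' : 8 * ((M / 2 : ℕ) : ℤ) * z + W' * ((Nat.log 2 (M / 2) : ℤ) + 1) ≤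
            ∑ i ∈ J', f i := by
          have h1 : W' * ((Nat.log 2 M : ℤ) + 1) = W' * ((Nat.log 2 (M / 2) : ℤ) + 1) + W' := by
            rw [hlog]; push_cast; ring
          linarith
        obtain ⟨μ, h1, h2, h3, h4⟩ := ih (M / 2) (by omega) J' (fun i hi => by
          rw [hJ', Finset.mem_filter] at hi
          omega) (by omega) hmass' hpos
        refine ⟨μ, h1, by omega, ?_, ?_⟩
        · have h5 : J'.filter (fun i => μ < 2 * m i ∧ m i ≤ μ) =
              J.filter (fun i => μ < 2 * m i ∧ m i ≤ μ) := by
            rw [hJ', Finset.filter_filter]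
            refine Finset.filter_congr fun i _ => ?_
            constructor
            · exact fun h => h.2
            · exact fun h => ⟨by omega, h⟩
          rw [h5] at h3
          exact h3
        · have h5 : ∑ i ∈ J.filter (fun i => μ < m i), f i ≤
              ∑ i ∈ J'.filter (fun i => μ < m i), f i +
                ∑ i ∈ J.filter (fun i => M < 2 * m i ∧ m i ≤ M), f i := by
            rw [← Finset.sum_union]
            · refine Finset.sum_le_sum_of_subset_of_nonneg ?_ fun i _ _ => hf i
              intro i hi
              rw [Finset.mem_filter] at hi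
              rw [hJ', Finset.mem_union, Finset.mem_filter, Finset.mem_filter, Finset.mem_filter]
              have h6 := hJ i hi.1
              by_cases h7 : 2 * m i ≤ M
              · exact Or.inl ⟨⟨hi.1, h7⟩, hi.2⟩
              · exact Or.inr ⟨hi.1, by omega, h6⟩
            · rw [Finset.disjoint_left]
              intro i hi hi'
              rw [Finset.mem_filter, hJ', Finset.mem_filter] at hi
              rw [Finset.mem_filter] at hi'
              omega
          have h6 : W' * (Nat.log 2 M : ℤ) = W' * (Nat.log 2 (M / 2) : ℤ) + W' := by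
            rw [hlog]; push_cast; ring
          linarith

end Pool.Agent.Lib.MP_6b2d39_agUn
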