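import Pool.Agent.Lib.MP_6b2d39_agUn.Base

set_option autoImplicit false

namespace Pool.Agent.Lib.MP_6b2d39_agUn

open Pool.Agent.Lib.MP_6b2d39_agArr

variable {ι : Type} [DecidableEq ι]

/-- U10. the rows: `R c ≤ z`, and `z - Q c ≤ R c` for `c ≤ 3 M`, `R` decreasing -/
theorem rw_le {P : Pa} {R : ℕ → ℤ} (hR : Rw P R) {c : ℕ} (hc : c < P.T) : R c ≤ P.z := by
  induction c with
  | zero => exact hR.r0.le
  | succ c ih =>
    have h1 := ih (by omega)
    have h2 := hR.r2 c hc
    have h3 : (0 : ℤ) ≤ P.Q := by positivity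
    linarith

theorem rw_ge {P : Pa} {R : ℕ → ℤ} (hR : Rw P R) {c : ℕ} (hc : c ≤ 3 * P.M) :
    (P.z : ℤ) - P.Q * c ≤ R c := by
  induction c with
  | zero =>
    rw [hR.r0]
    simp
  | succ c ih =>
    have h1 := ih (by omega)
    have h2 := hR.r1 c (by omega)
    push_cast
    linarith

/-- U10. `V` increasing between any two rows -/
theorem v_mono {V : ℕ → ℤ} {y : ℕ} (h : ∀ c, c + 1 < y → V c ≤ V (c + 1)) {b c : ℕ}
    (hbc : b ≤ c) (hc : c < y) : V b ≤ V c := by
  induction c with
  | zero =>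
    have : b = 0 := by omega
    rw [this]
  | succ c ih =>
    rcases Nat.lt_or_ge c b with h1 | h1
    · have : b = c + 1 := by omega
      rw [this]
    · exact (ih h1 (by omega)).trans (h c hc)

private theorem pend_nonneg (m : ι → ℕ) (J : Finset ι) (c : ℕ) :
    0 ≤ ∑ i ∈ J, ((m i - c : ℕ) : ℤ) := Finset.sum_nonneg fun _ _ => by positivity

/-- U10. the top demand is positive, so the kinks give at most `z` on the top row -/
theorem lds_top {P : Pa} {R : ℕ → ℤ} (hR : Rw P R) {m : ι → ℕ} {v0 : ℤ} {J : Finset ι} {y : ℕ}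
    {D : ℕ → ℤ} {K : List ℤ} {V : ℕ → ℤ} (h : St P R m v0 J y D K V) :
    lds K (y - 1) ≤ P.z := by
  have hy := h.hy
  have hyT := h.hyT
  have h1 := h.i4
  unfold nd at h1
  have h2 := pend_nonneg m J (y - 1)
  have h3 := h.i1 (y - 1) (by omega)
  have h4 := h.i3a (y - 1) (by omega)
  have h5 := rw_le hR (c := y - 1) (by omega)
  linarith

/-- U10. -/
theorem lds_count (K : List ℤ) (p : ℤ → Prop) [DecidablePred p] {c : ℕ} {a : ℤ}
    (hp : ∀ t ∈ K, p t → a ≤ (c : ℤ) - t) : a * (K.countP fun t => p t) ≤ lds K c := by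
  induction K with
  | nil => simp [lds]
  | cons t K ih =>
    have h1 : lds (t :: K) c = ld t c + lds K c := by
      simp [lds]
    have h2 := ih fun s hs => hp s (List.mem_cons_of_mem _ hs)
    rw [h1, List.countP_cons]
    have h3 : 0 ≤ ld t c := le_max_right _ _
    by_cases ht : p t
    · have h4 : a ≤ ld t c := (hp t List.mem_cons_self ht).trans (le_max_left _ _)
      simp only [ht, decide_true, if_true]
      push_cast
      linarith
    · simp only [ht, decide_false]
      simp only [Bool.false_eq_true, if_false, add_zero]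
      linarith

end Pool.Agent.Lib.MP_6b2d39_agUn
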