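import Pool.Agent.Lib.MP_6b2d39_agUn.RwL

set_option autoImplicit false

namespace Pool.Agent.Lib.MP_6b2d39_agUn

open Pool.Agent.Lib.MP_6b2d39_agArr

variable {ι : Type} [DecidableEq ι]

/-- U13. (`i7`, `lds_top`, `lds_count`: a kink with `4 t ≤ -M` gives `≥ M / 4` on the top row) -/
theorem nk_le {P : Pa} {R : ℕ → ℤ} (hR : Rw P R) {m : ι → ℕ} {v0 : ℤ} {J : Finset ι} {y : ℕ}
    {D : ℕ → ℤ} {K : List ℤ} {V : ℕ → ℤ} (h : St P R m v0 J y D K V) {c : ℕ}
    (hc : 16 * c ≤ P.M) : P.M * nk K c ≤ 10 * P.z + P.M := by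
  have h1 := h.i7 c hc
  have h2 := lds_top hR h
  have h3 : P.M * (K.countP fun t => 4 * t ≤ -(P.M : ℤ)) ≤ 4 * P.z := by
    -- scale all kinks by 4
    have h4 : ((K.countP fun t => 4 * t ≤ -(P.M : ℤ) : ℕ) : ℤ) * P.M ≤ 4 * lds K (y - 1) := by
      clear h1 h2 h
      induction K with
      | nil => simp [lds]
      | cons t K ih =>
        have h5 : lds (t :: K) (y - 1) = ld t (y - 1) + lds K (y - 1) := by
          simp [lds]
        rw [h5, List.countP_cons]
        have h6 : 0 ≤ ld t (y - 1) := le_max_right _ _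
        by_cases ht : 4 * t ≤ -(P.M : ℤ)
        · have h7 : ((y - 1 : ℕ) : ℤ) - t ≤ ld t (y - 1) := le_max_left _ _
          have h8 : (0 : ℤ) ≤ ((y - 1 : ℕ) : ℤ) := by positivity
          simp only [ht, decide_true, if_true]
          push_cast
          linarith
        · simp only [ht, decide_false]
          simp only [Bool.false_eq_true, if_false, add_zero]
          linarith
    have h9 : ((P.M * (K.countP fun t => 4 * t ≤ -(P.M : ℤ)) : ℕ) : ℤ) ≤ ((4 * P.z : ℕ) : ℤ) := by
      push_cast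
      linarith
    exact_mod_cast h9
  linarith

private theorem num_v {M z X y V n B : ℝ} (hM : 1 ≤ M) (hX : 16 ≤ X) (hzX : 80 * M * X ≤ z)
    (hn : M * n ≤ 10 * z + M) (hB : 11 * z ≤ M * (B - 1)) (hy : 1 ≤ y) {lg : ℝ}
    (hl : 13 * lg + 16 ≤ X)
    (h : V ≤ n + 13 * y * lg + 3 / (40 * X) * B + 2 * (3 / (40 * X)) * y) : V ≤ B + X * y := by
  have hM0 : M ≠ 0 := by linarith
  have h1 : n ≤ 10 * (z / M) + 1 := by
    rw [← sub_nonneg]
    have h2 : 10 * (z / M) + 1 - n = (10 * z + M - M * n) / M := by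
      field_simp
    rw [h2]
    exact div_nonneg (by linarith) (by linarith)
  have h2 : 11 * (z / M) + 1 ≤ B := by
    rw [← sub_nonneg]
    have h3 : B - (11 * (z / M) + 1) = (M * (B - 1) - 11 * z) / M := by
      field_simp
      ring
    rw [h3]
    exact div_nonneg (by linarith) (by linarith)
  have h3 : 80 * X ≤ z / M := by
    rw [le_div_iff₀ (by linarith)]
    linarith
  have h4 : 3 / (40 * X) ≤ 3 / 640 := by
    apply div_le_div_of_nonneg_left (by norm_num) (by norm_num)
    linarith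
  have hBpos : 0 ≤ B := by linarith
  have h5 : 3 / (40 * X) * B ≤ 3 / 640 * B := mul_le_mul_of_nonneg_right h4 hBpos
  have h6 : 3 / (40 * X) * y ≤ 3 / 640 * y := mul_le_mul_of_nonneg_right h4 (by linarith)
  have h7 : 13 * y * lg + 16 * y ≤ X * y := by
    have := mul_le_mul_of_nonneg_right hl (by linarith : (0 : ℝ) ≤ y)
    linarith
  linarith

/-- U13. `V (y-1) ≤ min (M, Bs) + X y`. (`i3c`: `V ≤ M`; `y > 3 M`: clear; if `16 (y-1) ≤ M` use `i8`
with `c = y-1`, `nk_le`, `hs_le_log`: `V ≤ (10 z / M + 1) + κ Bs + (13 log (3M) + 2 κ) y`, and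
`10 z/M + 1 + κ Bs ≤ Bs` as `κ ≤ 3/640` (`X ≥ 16`), `Bs ≥ 11 z / M + 1` (real); otherwise
`M < 16 (y-1) ≤ X y`.) -/
theorem v_top {P : Pa} {R : ℕ → ℤ} (hR : Rw P R) {m : ι → ℕ} {v0 : ℤ} {J : Finset ι} {y : ℕ}
    {D : ℕ → ℤ} {K : List ℤ} {V : ℕ → ℤ} (h : St P R m v0 J y D K V) :
    V (y - 1) ≤ P.Vs + P.X * y := by
  have hy := h.hy
  have hM := P.hM
  have hMr : (1 : ℝ) ≤ P.M := by exact_mod_cast hM
  have hlog : 0 ≤ Real.log (3 * P.M) := Real.log_nonneg (by linarith)
  have hX16r : (16 : ℝ) ≤ P.X := by have := P.hX; linarith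
  have hX16 : (16 : ℤ) ≤ P.X := by exact_mod_cast hX16r
  have hy1 : ((y - 1 : ℕ) : ℤ) = (y : ℤ) - 1 := by omega
  have hyz : (1 : ℤ) ≤ y := by exact_mod_cast hy
  have h1 : V (y - 1) ≤ P.M := by
    have h2 := h.i3c (y - 1) (by omega)
    rw [hy1] at h2
    have h3 : (y : ℤ) - 1 + P.M + 1 - y = P.M := by ring
    rw [h3, max_eq_left (by positivity)] at h2
    exact h2
  have hXy : (0 : ℤ) ≤ P.X * y := by positivity
  unfold Pa.Vs
  rcases Nat.lt_or_ge P.M (16 * (y - 1)) with hc | hc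
  · have h4 : (P.M : ℤ) < 16 * y := by omega
    have h5 : (16 : ℤ) * y ≤ P.X * y := mul_le_mul_of_nonneg_right hX16 (by linarith)
    have h6 : (0 : ℤ) ≤ ((min P.M P.Bs : ℕ) : ℤ) := by positivity
    linarith
  · have key : V (y - 1) ≤ P.Bs + P.X * y := by
      have hy3 : y ≤ 3 * P.M := by clear h1; omega
      have h8 := h.i8 hy3 (y - 1) hc (by omega)
      have h9 := nk_le hR h (c := y - 1) hc
      have hBs : 1 ≤ P.Bs := Nat.succ_le_of_lt (Nat.succ_pos _)
      have h10 : 11 * P.z ≤ P.M * (P.Bs - 1) := by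
        unfold Pa.Bs
        have h11 : 11 * P.z / P.M + 2 - 1 = 11 * P.z / P.M + 1 := rfl
        rw [h11]
        have := Nat.div_add_mod (11 * P.z) P.M
        have h12 := Nat.mod_lt (11 * P.z) (y := P.M) (by omega)
        rw [Nat.mul_add]
        omega
      have hBr : (11 : ℝ) * P.z ≤ P.M * (P.Bs - 1) := by
        have h12 : ((11 * P.z : ℕ) : ℝ) ≤ ((P.M * (P.Bs - 1) : ℕ) : ℝ) := by exact_mod_cast h10
        push_cast [Nat.cast_sub hBs] at h12
        exact h12
      have hyr : (1 : ℝ) ≤ y := by exact_mod_cast hy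
      have hcr : ((y - 1 : ℕ) : ℝ) = y - 1 := by
        rw [Nat.cast_sub hy]; simp
      have hVr : (0 : ℝ) ≤ V (y - 1) := by exact_mod_cast h.i3a (y - 1) (by omega)
      have hXr : (16 : ℝ) ≤ P.X := hX16r
      have hka : P.ka = 3 / (40 * P.X) := rfl
      have hka0 : 0 ≤ P.ka := by rw [hka]; positivity
      have hlg : hs (3 * P.M) y ≤ Real.log (3 * P.M) := by
        refine (hs_le_log hy hy3).trans ?_
        apply Real.log_le_log (by positivity)
        push_cast
        exact div_le_self (by linarith) hyr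
      have hgoal : (V (y - 1) : ℝ) ≤ P.Bs + P.X * y := by
        refine num_v hMr hXr (z := P.z) (n := nk K ((y - 1 : ℕ) : ℤ)) ?_ ?_ hBr hyr P.hX ?_
        · exact_mod_cast P.hzX
        · exact_mod_cast h9
        · have e1 : 0 ≤ P.ka * ((y - 1 : ℕ) : ℝ) * V (y - 1) / y := by positivity
          have e2 : 13 * ((y - 1 : ℕ) : ℝ) * hs (3 * P.M) y ≤
              13 * (y : ℝ) * Real.log (3 * P.M) := by
            have e3 : 13 * ((y - 1 : ℕ) : ℝ) * hs (3 * P.M) y ≤
                13 * ((y - 1 : ℕ) : ℝ) * Real.log (3 * P.M) :=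
              mul_le_mul_of_nonneg_left hlg (by positivity)
            have e4 : 13 * ((y - 1 : ℕ) : ℝ) * Real.log (3 * P.M) ≤
                13 * (y : ℝ) * Real.log (3 * P.M) := by
              apply mul_le_mul_of_nonneg_right _ hlog
              rw [hcr]
              linarith
            linarith
          have e5 : P.ka * P.Bs * ((y - 1 : ℕ) : ℝ) / y ≤ P.ka * P.Bs := by
            rw [div_le_iff₀ (by linarith)]
            apply mul_le_mul_of_nonneg_left _ (by positivity)
            rw [hcr]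
            linarith
          have e6 : 2 * P.ka * ((y - 1 : ℕ) : ℝ) ≤ 2 * P.ka * y := by
            apply mul_le_mul_of_nonneg_left _ (by positivity)
            rw [hcr]
            linarith
          rw [← hka]
          linarith
      exact_mod_cast hgoal
    rw [Nat.cast_min]
    rcases le_total (P.M : ℤ) P.Bs with hm | hm
    · rw [min_eq_left hm]
      linarith
    · rw [min_eq_right hm]
      exact key

end Pool.Agent.Lib.MP_6b2d39_agUn
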