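import Pool.Agent.Lib.MP_6b2d39_agUn.SumLd
import Pool.Agent.Lib.MP_6b2d39_agUn.OpsA

set_option autoImplicit false

namespace Pool.Agent.Lib.MP_6b2d39_agUn

open Pool.Agent.Lib.MP_6b2d39_agArr

variable {ι : Type} [DecidableEq ι]

/-- the load of a simple point on the rows `≤ y` -/
private theorem ld_one (y c : ℕ) (hc : c < y + 1) :
    ld (((y + 1 : ℕ) : ℤ) - 1 - ((1 : ℕ) : ℤ)) c = if c = y then 1 else 0 := by
  unfold ld
  split_ifs with h
  · subst h
    push_cast
    rw [max_eq_left (by linarith)]
    ring
  · have h2 : c < y := by omega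
    rw [max_eq_right]
    push_cast
    omega

/-- U31. `ν` simple points for the top row -/
theorem use_simple {m : ι → ℕ} {J : Finset ι} {y : ℕ} :
    ∀ (ν : ℕ) (Z : Finset ι) (D : ℕ → ℤ), Disjoint J Z → (∀ i ∈ Z, m i = 1) → ν ≤ Z.card →
      ∃ Z' ⊆ Z, Z'.card + ν = Z.card ∧
        (Cert m (J ∪ Z') (y + 1) (fun c => if c = y then D c - ν else D c) →
          Cert m (J ∪ Z) (y + 1) D) := by
  intro ν
  induction ν with
  | zero =>
    intro Z D _ _ _
    refine ⟨Z, Finset.Subset.refl Z, by simp, fun h => ?_⟩
    refine cert_mono (Finset.Subset.refl _) (fun b _ => ?_) h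
    simp only [Nat.cast_zero, sub_zero, ite_self, le_refl]
  | succ ν ih =>
    intro Z D hJZ hZ hν
    have hne : Z.Nonempty := by
      rw [← Finset.card_pos]
      omega
    obtain ⟨i, hi⟩ := hne
    have hiJ : i ∉ J := fun h => Finset.disjoint_left.1 hJZ h hi
    have hcard : (Z.erase i).card = Z.card - 1 := Finset.card_erase_of_mem hi
    obtain ⟨Z', hZ', hc', hcert⟩ := ih (Z.erase i)
      (fun c => D c - ld (((y + 1 : ℕ) : ℤ) - 1 - (m i : ℤ)) c)
      (Finset.disjoint_of_subset_right (Finset.erase_subset i Z) hJZ)
      (fun j hj => hZ j (Finset.mem_of_mem_erase hj)) (by omega)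
    refine ⟨Z', hZ'.trans (Finset.erase_subset i Z), by omega, fun h => ?_⟩
    have hi' : i ∈ J ∪ Z := Finset.mem_union_right J hi
    refine op_a hi' ?_
    have he : (J ∪ Z).erase i = J ∪ Z.erase i := by
      rw [Finset.erase_union_distrib, Finset.erase_eq_of_notMem hiJ]
    rw [he]
    refine hcert (cert_mono (Finset.Subset.refl _) (fun b hb => ?_) h)
    have hl := ld_one y b hb
    rw [hZ i hi, hl]
    split_ifs with hb'
    · push_cast
      linarith
    · simp

/-- U31 (only simple points): decreasing nonnegative demands with sum `#Z`. Induction on `y + #Z`: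
`D (y-1) = 0`: OpC; `D (y-1) > 0`: OpA with a point of `Z` (load `1` on the row `y - 1`, else `0`). -/
theorem simple_end {m : ι → ℕ} :
    ∀ (k : ℕ) (Z : Finset ι) (y : ℕ) (D : ℕ → ℤ), y + Z.card = k → (∀ i ∈ Z, m i = 1) →
      (∀ c, c + 1 < y → D (c + 1) ≤ D c) → (1 ≤ y → 0 ≤ D (y - 1)) →
      ∑ c ∈ Finset.range y, D c = Z.card → Cert m Z y D := by
  intro k
  induction k using Nat.strong_induction_on with
  | _ k ih =>
    intro Z y D hk hZ hdec hnn hsum
    rcases y with _ | y
    · exact ⟨0, 0, fun b hb => absurd hb (Nat.not_lt_zero b)⟩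
    · have h0 : 0 ≤ D y := by simpa using hnn (by omega)
      rcases eq_or_lt_of_le h0 with h1 | h1
      · -- OpC
        refine op_c (ih (k - 1) (by omega) Z y D (by omega) hZ (fun c hc => hdec c (by omega)) ?_ ?_) ?_
        · intro hy
          obtain ⟨x, rfl⟩ : ∃ x, y = x + 1 := ⟨y - 1, by omega⟩
          have := hdec x (by omega)
          simp only [Nat.add_sub_cancel]
          linarith
        · rw [Finset.sum_range_succ] at hsum
          linarith
        · unfold nd
          have : (0 : ℤ) ≤ ∑ i ∈ Z, ((m i - y : ℕ) : ℤ) := Finset.sum_nonneg fun i _ => by positivity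
          linarith
      · -- OpA
        have hge : ∀ j, ∀ c, c + j = y → D y ≤ D c := by
          intro j
          induction j with
          | zero =>
            intro c hc
            have : c = y := by omega
            rw [this]
          | succ j ihj =>
            intro c hc
            exact (ihj (c + 1) (by omega)).trans (hdec c (by omega))
        have hpos : 0 < (Z.card : ℤ) := by
          rw [← hsum, Finset.sum_range_succ]
          have : 0 ≤ ∑ c ∈ Finset.range y, D c := Finset.sum_nonneg fun c hc => by
            rw [Finset.mem_range] at hc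
            have := hge (y - c) c (by omega)
            linarith
          linarith
        have hne : Z.Nonempty := by
          rw [← Finset.card_pos]
          exact_mod_cast hpos
        obtain ⟨i, hi⟩ := hne
        have hcard : (Z.erase i).card = Z.card - 1 := Finset.card_erase_of_mem hi
        have hcp : 0 < Z.card := by exact_mod_cast hpos
        refine op_a hi ?_
        refine ih (k - 1) (by omega) (Z.erase i) (y + 1) _ (by omega)
          (fun j hj => hZ j (Finset.mem_of_mem_erase hj)) (fun c hc => ?_) (fun _ => ?_) ?_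
        · rw [hZ i hi, ld_one y c (by omega), ld_one y (c + 1) hc]
          have := hdec c hc
          have h3 : c ≠ y := by omega
          rw [if_neg h3]
          split_ifs <;> linarith
        · simp only [Nat.add_sub_cancel]
          rw [hZ i hi, ld_one y y (by omega), if_pos rfl]
          omega
        · have he : ∀ c ∈ Finset.range (y + 1), D c - ld (((y + 1 : ℕ) : ℤ) - 1 - (m i : ℤ)) c =
              D c - (if c = y then 1 else 0) := by
            intro c hc
            rw [hZ i hi, ld_one y c (Finset.mem_range.1 hc)]
          rw [Finset.sum_congr rfl he, Finset.sum_sub_distrib, hsum, Finset.sum_ite_eq' (Finset.range (y + 1)) y (fun _ => (1 : ℤ)),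
            if_pos (Finset.mem_range.2 (Nat.lt_succ_self y)), hcard]
          push_cast [Nat.cast_sub hcp]
          ring

end Pool.Agent.Lib.MP_6b2d39_agUn
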