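import Pool.Agent.Lib.MP_6b2d39_agUn.Phase
import Pool.Agent.Lib.MP_6b2d39_agUn.EndPos
import Pool.Agent.Lib.MP_6b2d39_agUn.VTop

set_option autoImplicit false

namespace Pool.Agent.Lib.MP_6b2d39_agUn

open Pool.Agent.Lib.MP_6b2d39_agArr

variable {ι : Type} [DecidableEq ι]

omit [DecidableEq ι] in
private theorem start_st {P : Pa} {R : ℕ → ℤ} (hR : Rw P R) {m : ι → ℕ} {J : Finset ι}
    (hm1 : ∀ i ∈ J, m i ≤ P.M) (hm2 : ∀ i ∈ J, P.M < 2 * m i) {v0 : ℤ}
    (hv0 : ∑ c ∈ Finset.range P.T, nd m J R c = v0) :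
    St P R m v0 J P.T R [] (fun _ => 0) := by
  have hM := P.hM
  have hT := P.hT
  refine ⟨by omega, le_rfl, hm1, hm2, ?_, ?_, ?_, ?_, ?_, ?_, hv0, ?_, ?_, ?_⟩
  · intro c _
    simp [lds]
  · intro t ht
    simp at ht
  · intro c _
    exact le_rfl
  · intro c _
    exact le_rfl
  · intro c _
    exact le_max_right _ _
  · unfold nd
    have h0 : ∑ i ∈ J, ((m i - (P.T - 1) : ℕ) : ℤ) = 0 := by
      refine Finset.sum_eq_zero fun i hi => ?_
      have := hm1 i hi
      have h1 : m i - (P.T - 1) = 0 := by omega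
      rw [h1]
      rfl
    rw [h0, sub_zero]
    exact hR.r3
  · intro i hi s _ hs2 hs3
    exfalso
    have := hm1 i hi
    omega
  · intro c _
    simp [nk]
  · intro hy
    exfalso
    omega

/-- U34 (CLASS THEOREM, v > 0): `phase` with the simple points `Z` passive, then `end_pos` with
`a = y0`, `Vm = Vs + X y0`; `J = ∅`: `simple_end`. -/
theorem class_pos {P : Pa} {R : ℕ → ℤ} (hR : Rw P R) {m : ι → ℕ} {J Z : Finset ι}
    (hJZ : Disjoint J Z) (hm1 : ∀ i ∈ J, m i ≤ P.M) (hm2 : ∀ i ∈ J, P.M < 2 * m i)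
    (hZ : ∀ i ∈ Z, m i = 1) (hv0 : ∑ c ∈ Finset.range P.T, nd m J R c = Z.card)
    (hv1 : 2 * (P.y0 : ℤ) ^ 2 + P.y0 * (P.Vs + P.X * P.y0) ≤ Z.card) :
    Cert m (J ∪ Z) P.T R := by
  have hv : -(3000 * P.w * (Z.card : ℤ)) ≤ (P.y0 : ℤ) ^ 3 := by
    have h1 : (0 : ℤ) ≤ (P.y0 : ℤ) ^ 3 := by positivity
    have h2 : (0 : ℤ) ≤ 3000 * P.w * (Z.card : ℤ) := by positivity
    linarith
  refine phase hR hv hJZ ?_ J (Finset.Subset.refl J) P.T R [] (fun _ => 0)
    (start_st hR hm1 hm2 hv0)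
  intro J' hJ' y D K V hSt hend
  have hJZ' : Disjoint J' Z := Finset.disjoint_of_subset_left hJ' hJZ
  have hy := hSt.hy
  have hyT := hSt.hyT
  rcases hend with hE | ⟨hy3, hya⟩
  · subst hE
    rw [Finset.empty_union]
    have hnd : ∀ c, nd m ∅ D c = D c := fun c => by simp [nd]
    refine simple_end (y + Z.card) Z y D rfl hZ ?_ ?_ ?_
    · intro c hc
      have hQ := P.hQ
      have h1 := hR.r2 c (by omega)
      have h2 := hSt.i3b c hc
      have h3 : lds K c ≤ lds K (c + 1) := by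
        unfold lds
        refine List.sum_le_sum fun t _ => ?_
        unfold ld
        refine max_le_max ?_ le_rfl
        push_cast
        linarith
      have hQ' : (8 : ℤ) ≤ P.Q := by exact_mod_cast hQ
      rw [hSt.i1 c (by omega), hSt.i1 (c + 1) hc]
      linarith
    · intro _
      have h := hSt.i4
      rw [hnd] at h
      linarith
    · have h := hSt.i5
      simp only [hnd] at h
      exact h
  · have hVt := v_top hR hSt
    have hX : (P.X : ℤ) * y ≤ P.X * P.y0 := by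
      have : (y : ℤ) ≤ P.y0 := by exact_mod_cast hya
      exact mul_le_mul_of_nonneg_left this (by positivity)
    refine end_pos hR (a := P.y0) (Vm := P.Vs + P.X * P.y0) (by positivity) J' Z y D K V hJZ' hZ hy
      hy3 hya hSt.i1 ?_ hSt.i3b hSt.i5 hv1 ?_
    · intro c hc
      refine ⟨hSt.i3a c hc, ?_⟩
      have h1 : V c ≤ V (y - 1) := v_mono hSt.i3b (by omega) (by omega)
      linarith
    · have h := hSt.i4
      linarith

end Pool.Agent.Lib.MP_6b2d39_agUn
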