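import Pool.Agent.Lib.MP_6b2d39_agCr.Lower
import Pool.Agent.Lib.MP_6b2d39_agHw.Raise

/-!
THEOREM U, dimension in every degree: adding simple points.
-/

set_option autoImplicit false

namespace Pool.Agent.Lib.MP_6b2d39_agUn

open Pool.Agent.Lib.MP_6b2d39_ag Pool.Agent.Lib.MP_6b2d39_agCr Pool.Agent.Lib.MP_6b2d39_agHw

private theorem dmu_sum {n k c : ℕ} (μ : Fin n → ℕ) :
    ∑ i, (((Fin.append μ (fun _ : Fin k => c) i + 1).choose 2 : ℕ) : ℤ) =
      ∑ i, (((μ i + 1).choose 2 : ℕ) : ℤ) + k * (((c + 1).choose 2 : ℕ) : ℤ) := by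
  rw [Fin.sum_univ_add]
  simp

theorem vd_append {n k c : ℕ} (d : ℕ) (μ : Fin n → ℕ) :
    vd d (Fin.append μ (fun _ : Fin k => c)) = vd d μ - k * (((c + 1).choose 2 : ℕ) : ℤ) := by
  unfold vd
  have h := dmu_sum (k := k) (c := c) μ
  linarith

private theorem dmu_zero {n k d : ℕ} (μ : Fin n → ℕ) (P : Fin (n + k) → Fin 3 → ℂ) :
    curves d (Fin.append μ (fun _ : Fin k => 0)) P = curves d μ (fun i => P (Fin.castAdd k i)) := by
  unfold curves
  congr 1
  apply le_antisymm
  · refine le_iInf fun i => ?_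
    refine (iInf_le _ (Fin.castAdd k i)).trans ?_
    rw [Fin.append_left]
  · refine le_iInf fun i => ?_
    induction i using Fin.addCases with
    | left i =>
      rw [Fin.append_left]
      exact iInf_le _ i
    | right i =>
      rw [Fin.append_right, pow_zero, Ideal.one_eq_top]
      intro x _
      trivial

/-- if the system with `k` more simple points is empty, then the dimension is at most `k` -/
theorem general_le_simple {n k d : ℕ} (μ : Fin n → ℕ)
    (h : General (fun P => (Module.finrank ℂ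
      (curves d (Fin.append μ (fun _ : Fin k => 1)) P) : ℤ) = 0)) :
    General (fun P => (Module.finrank ℂ (curves d μ P) : ℤ) ≤ k) := by
  obtain ⟨P', hP, hP2⟩ := (h.and (general_coord_ne 2)).exists
  have h1 := curves_raise d (m := Fin.append μ (fun _ : Fin k => 0))
    (m' := Fin.append μ (fun _ : Fin k => 1)) (fun i => by
      induction i using Fin.addCases with
      | left i => rw [Fin.append_left, Fin.append_left]
      | right i => rw [Fin.append_right, Fin.append_right]; exact Nat.zero_le _) hP2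
  rw [hP, vd_append, vd_append, dmu_zero] at h1
  have e0 : ((0 + 1).choose 2 : ℕ) = 0 := by decide
  have e1 : ((1 + 1).choose 2 : ℕ) = 1 := by decide
  rw [e0, e1] at h1
  refine (general_finrank_le d μ (fun i => P' (Fin.castAdd k i))).mono fun P hP3 => ?_
  have h2 : (Module.finrank ℂ (curves d μ P) : ℤ) ≤
      Module.finrank ℂ (curves d μ (fun i => P' (Fin.castAdd k i))) := by exact_mod_cast hP3
  push_cast at h1
  linarith

/-- From emptiness for `v ≤ - W` (every number of points, multiplicities at most `M`) to the bound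
`max v 0 ≤ dim ≤ max v 0 + W + 1` for every system of the same degree. -/
theorem dim_of_empty {d M : ℕ} {W : ℝ} (hM : 1 ≤ M) (hW : 0 ≤ W)
    (hU : ∀ (n : ℕ) (μ : Fin n → ℕ), (∀ i, μ i ≤ M) → ((vd d μ : ℤ) : ℝ) ≤ -W →
      General (fun P => (Module.finrank ℂ (curves d μ P) : ℤ) = max (vd d μ) 0))
    {n : ℕ} (μ : Fin n → ℕ) (hμ : ∀ i, μ i ≤ M) :
    General (fun P => max (vd d μ) 0 ≤ (Module.finrank ℂ (curves d μ P) : ℤ) ∧
      (Module.finrank ℂ (curves d μ P) : ℝ) ≤ max ((vd d μ : ℤ) : ℝ) 0 + W + 1) := by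
  obtain ⟨k, hk⟩ : ∃ k : ℕ, k = ⌈((vd d μ : ℤ) : ℝ) + W⌉₊ := ⟨_, rfl⟩
  have h1 : ((vd d μ : ℤ) : ℝ) + W ≤ k := by
    rw [hk]
    exact Nat.le_ceil _
  have h2 : (k : ℝ) ≤ max ((vd d μ : ℤ) : ℝ) 0 + W + 1 := by
    rcases le_or_gt (((vd d μ : ℤ) : ℝ) + W) 0 with h3 | h3
    · rw [hk, Nat.ceil_eq_zero.2 h3, Nat.cast_zero]
      have := le_max_right ((vd d μ : ℤ) : ℝ) 0
      linarith
    · have h4 := Nat.ceil_lt_add_one h3.le
      rw [← hk] at h4
      have := le_max_left ((vd d μ : ℤ) : ℝ) 0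
      linarith
  have h3 : vd d (Fin.append μ (fun _ : Fin k => 1)) = vd d μ - k := by
    rw [vd_append]
    have e1 : ((1 + 1).choose 2 : ℕ) = 1 := by decide
    rw [e1]
    push_cast
    ring
  have h4 : ((vd d (Fin.append μ (fun _ : Fin k => 1)) : ℤ) : ℝ) ≤ -W := by
    rw [h3]
    push_cast
    linarith
  have h5 := hU (n + k) (Fin.append μ (fun _ : Fin k => 1)) (fun i => by
    induction i using Fin.addCases with
    | left i => rw [Fin.append_left]; exact hμ i
    | right i => rw [Fin.append_right]; exact hM) h4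
  have h6 : vd d (Fin.append μ (fun _ : Fin k => 1)) ≤ 0 := by
    have : ((vd d (Fin.append μ (fun _ : Fin k => 1)) : ℤ) : ℝ) ≤ ((0 : ℤ) : ℝ) := by
      rw [Int.cast_zero]
      linarith
    exact_mod_cast this
  rw [max_eq_right h6] at h5
  refine ((general_le_simple μ h5).and (general_coord_ne 2)).mono ?_
  rintro P ⟨h7, h8⟩
  refine ⟨max_le (vd_le_finrank d μ h8) (Int.natCast_nonneg _), ?_⟩
  have h9 : (Module.finrank ℂ (curves d μ P) : ℝ) ≤ k := by exact_mod_cast h7
  linarith

end Pool.Agent.Lib.MP_6b2d39_agUn
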