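import Pool.Agent.Lib.MP_6b2d39_agUn.BaseM

set_option autoImplicit false

namespace Pool.Agent.Lib.MP_6b2d39_agUn

/-- real data of the problem -/
private structure Rd (M N X : ℕ) (W : ℕ) (C a B l : ℝ) : Prop where
  hM : 1 ≤ M
  hN : 1 ≤ N
  hC : 10 ^ 30 ≤ C
  hl : 1 ≤ l
  hx1 : 16 ≤ (X : ℝ)
  hx2 : (X : ℝ) ≤ 45 * l
  hXl : 13 * Real.log (3 * M) + 16 ≤ X
  ha : (M : ℝ) ≤ a
  ha4 : a ^ 4 = (M : ℝ) ^ 4 * √(M : ℝ)
  hB : B = (M : ℝ) ^ 6 / (N : ℝ) ^ 4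
  hW : C / 2 * (a + B) * l ^ 3 ≤ W
  hW7 : W ≤ 7 * M ^ 2
  hn : 10 ^ 6 * (M : ℝ) ^ 2 * X ≤ (N : ℝ) ^ 2
  hr : 100 * (X : ℝ) ≤ √(M : ℝ)

private theorem rd_nc {M N X W q : ℕ} {C a B l : ℝ} (h : Rd M N X W C a B l) (hq : 3 ≤ q)
    (hqN : 256 * M * q ≤ N) (hs1 : 160 * (M : ℝ) * X ≤ q * N)
    (hs2 : (q : ℝ) * N ≤ 48 * M * √(M : ℝ))
    (hb : 10 ^ 14 * (4 * (M : ℝ) ^ 2 / (q * N) + 2) ^ 2 * (X : ℝ) ^ 3 ≤ W) : Nc M N q X W := by
  have hm : (1 : ℝ) ≤ M := by exact_mod_cast h.hM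
  have hl := h.hl
  have hC := h.hC
  have hB0 : 0 ≤ B := by rw [h.hB]; positivity
  have hl3 : 1 ≤ l ^ 3 := one_le_pow₀ hl
  have hWa : C / 2 * a ≤ W := by
    refine le_trans ?_ h.hW
    have h1 : C / 2 * a ≤ C / 2 * (a + B) := mul_le_mul_of_nonneg_left (by linarith) (by linarith)
    have h2 : 0 ≤ C / 2 * (a + B) := by
      have := h.ha
      have : 0 ≤ a + B := by linarith
      have : 0 ≤ C / 2 := by linarith
      positivity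
    nlinarith
  refine ⟨h.hM, hq, hqN, h.hXl, ?_, ?_, ?_, ?_, h.hW7⟩
  · have : ((160 * M * X : ℕ) : ℝ) ≤ ((q * N : ℕ) : ℝ) := by push_cast; exact hs1
    exact_mod_cast this
  · have h1 : ((4 * M ^ 2 / (q * N) : ℕ) : ℝ) ≤ 4 * (M : ℝ) ^ 2 / (q * N) := by
      have := Nat.cast_div_le (α := ℝ) (m := 4 * M ^ 2) (n := q * N)
      push_cast at this
      exact this
    have h2 : (10 : ℝ) ^ 14 * (((4 * M ^ 2 / (q * N) : ℕ) : ℝ) + 2) ^ 2 * (X : ℝ) ^ 3 ≤ W := by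
      refine le_trans ?_ hb
      have h3 : (((4 * M ^ 2 / (q * N) : ℕ) : ℝ) + 2) ^ 2 ≤ (4 * (M : ℝ) ^ 2 / (q * N) + 2) ^ 2 :=
        pow_le_pow_left₀ (by positivity) (by linarith) 2
      have h4 : (10 : ℝ) ^ 14 * (((4 * M ^ 2 / (q * N) : ℕ) : ℝ) + 2) ^ 2 ≤
          10 ^ 14 * (4 * (M : ℝ) ^ 2 / (q * N) + 2) ^ 2 := mul_le_mul_of_nonneg_left h3 (by positivity)
      exact mul_le_mul_of_nonneg_right h4 (by positivity)
    have h5 : ((10 ^ 14 * (4 * M ^ 2 / (q * N) + 2) ^ 2 * X ^ 3 : ℕ) : ℝ) ≤ (W : ℝ) := by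
      push_cast
      norm_num at h2 ⊢
      exact h2
    exact_mod_cast h5
  · have h1 : (10 : ℝ) ^ 8 * M * X ≤ W := by
      refine le_trans ?_ h.hW
      have hx : (X : ℝ) ≤ 45 * l ^ 3 := by
        refine h.hx2.trans ?_
        have : l ≤ l ^ 3 := by
          calc l = l * 1 := by ring
            _ ≤ l * l ^ 2 := mul_le_mul_of_nonneg_left (one_le_pow₀ hl) (by linarith)
            _ = l ^ 3 := by ring
        linarith
      have e1 : (10 : ℝ) ^ 8 * M * X ≤ 10 ^ 8 * M * (45 * l ^ 3) :=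
        mul_le_mul_of_nonneg_left hx (by positivity)
      have e2 : (10 : ℝ) ^ 8 * M * (45 * l ^ 3) = (10 ^ 8 * 45) * M * l ^ 3 := by ring
      have e3 : (10 ^ 8 * 45 : ℝ) * M ≤ C / 2 * (a + B) := by
        have := h.ha
        exact mul_le_mul (by linarith) (by linarith) (by linarith) (by linarith)
      have e4 : (10 ^ 8 * 45 : ℝ) * M * l ^ 3 ≤ C / 2 * (a + B) * l ^ 3 :=
        mul_le_mul_of_nonneg_right e3 (by positivity)
      linarith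
    have h5 : ((10 ^ 8 * M * X : ℕ) : ℝ) ≤ (W : ℝ) := by
      push_cast
      norm_num at h1 ⊢
      exact h1
    exact_mod_cast h5
  · have hr0 : 0 ≤ √(M : ℝ) := Real.sqrt_nonneg _
    have hrr : √(M : ℝ) * √(M : ℝ) = M := Real.mul_self_sqrt (by positivity)
    have h1 : ((q : ℝ) * N) ^ 3 ≤ (48 * M * √(M : ℝ)) ^ 3 := pow_le_pow_left₀ (by positivity) hs2 3
    have h2 : (48 * (M : ℝ) * √(M : ℝ)) ^ 3 = 110592 * ((M : ℝ) ^ 4 * √(M : ℝ)) := by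
      calc (48 * (M : ℝ) * √(M : ℝ)) ^ 3 = 110592 * M ^ 3 * (√(M : ℝ) * √(M : ℝ)) * √(M : ℝ) := by ring
        _ = _ := by rw [hrr]; ring
    have h3 : (C / 2 * a) ^ 4 ≤ (W : ℝ) ^ 4 := by
      refine pow_le_pow_left₀ ?_ hWa 4
      have := h.ha
      have : 0 ≤ a := by linarith
      have : 0 ≤ C / 2 := by linarith
      positivity
    have h4 : (C / 2 * a) ^ 4 = (C / 2) ^ 4 * ((M : ℝ) ^ 4 * √(M : ℝ)) := by
      rw [mul_pow, h.ha4]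
    have h5 : (10 : ℝ) ^ 21 * 110592 ≤ (C / 2) ^ 4 := by
      have e1 : (10 : ℝ) ^ 29 ≤ C / 2 := by linarith
      have e2 : ((10 : ℝ) ^ 29) ^ 4 ≤ (C / 2) ^ 4 := pow_le_pow_left₀ (by positivity) e1 4
      refine le_trans ?_ e2
      norm_num
    have h6 : (0 : ℝ) ≤ (M : ℝ) ^ 4 * √(M : ℝ) := by positivity
    have h7 : (10 : ℝ) ^ 21 * ((q : ℝ) * N) ^ 3 ≤ (W : ℝ) ^ 4 := by
      calc (10 : ℝ) ^ 21 * ((q : ℝ) * N) ^ 3 ≤ 10 ^ 21 * (110592 * ((M : ℝ) ^ 4 * √(M : ℝ))) := by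
            rw [← h2]; exact mul_le_mul_of_nonneg_left h1 (by positivity)
        _ = (10 ^ 21 * 110592) * ((M : ℝ) ^ 4 * √(M : ℝ)) := by ring
        _ ≤ (C / 2) ^ 4 * ((M : ℝ) ^ 4 * √(M : ℝ)) := mul_le_mul_of_nonneg_right h5 h6
        _ = (C / 2 * a) ^ 4 := h4.symm
        _ ≤ (W : ℝ) ^ 4 := h3
    have h8 : ((10 ^ 21 * (q * N) ^ 3 : ℕ) : ℝ) ≤ ((W ^ 4 : ℕ) : ℝ) := by
      push_cast
      norm_num at h7 ⊢
      exact h7
    exact_mod_cast h8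

/-- the bound `hW1` if `4 M ^ 2 / s + 2 ≤ √M` -/
private theorem rd_b2 {M N X W : ℕ} {C a B l : ℝ} (h : Rd M N X W C a B l) {k : ℝ} (hk0 : 0 ≤ k)
    (hk : k + 2 ≤ √(M : ℝ)) : 10 ^ 14 * (k + 2) ^ 2 * (X : ℝ) ^ 3 ≤ W := by
  have hm : (1 : ℝ) ≤ M := by exact_mod_cast h.hM
  have hC := h.hC
  have hl := h.hl
  have hB0 : 0 ≤ B := by rw [h.hB]; positivity
  have h1 : (k + 2) ^ 2 ≤ M := by
    have := pow_le_pow_left₀ (by linarith : 0 ≤ k + 2) hk 2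
    rwa [Real.sq_sqrt (by positivity)] at this
  have h2 : (X : ℝ) ^ 3 ≤ 91125 * l ^ 3 := by
    have := pow_le_pow_left₀ (by positivity : (0 : ℝ) ≤ X) h.hx2 3
    calc (X : ℝ) ^ 3 ≤ (45 * l) ^ 3 := this
      _ = 91125 * l ^ 3 := by ring
  refine le_trans ?_ h.hW
  have e1 : (10 : ℝ) ^ 14 * (k + 2) ^ 2 * (X : ℝ) ^ 3 ≤ 10 ^ 14 * M * (91125 * l ^ 3) :=
    mul_le_mul (mul_le_mul_of_nonneg_left h1 (by positivity)) h2 (by positivity) (by positivity)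
  have e3 : (10 ^ 14 * 91125 : ℝ) * M ≤ C / 2 * (a + B) := by
    have := h.ha
    exact mul_le_mul (by linarith) (by linarith) (by linarith) (by linarith)
  have e4 : (10 ^ 14 * 91125 : ℝ) * M * l ^ 3 ≤ C / 2 * (a + B) * l ^ 3 :=
    mul_le_mul_of_nonneg_right e3 (by positivity)
  calc (10 : ℝ) ^ 14 * (k + 2) ^ 2 * (X : ℝ) ^ 3 ≤ 10 ^ 14 * M * (91125 * l ^ 3) := e1
    _ = (10 ^ 14 * 91125 : ℝ) * M * l ^ 3 := by ring
    _ ≤ _ := e4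

private theorem rd_main {M N X W : ℕ} {C a B l : ℝ} (h : Rd M N X W C a B l)
    (hN16 : (N : ℝ) < 16 * M * √(M : ℝ)) : ∃ q : ℕ, Nc M N q X W := by
  have hm : (1 : ℝ) ≤ M := by exact_mod_cast h.hM
  have hn0 : (1 : ℝ) ≤ N := by exact_mod_cast h.hN
  have hC := h.hC
  have hl := h.hl
  have hx1 := h.hx1
  have hr := h.hr
  set r := √(M : ℝ) with hrdef
  have hrr : r * r = M := Real.mul_self_sqrt (by positivity)
  have hr1600 : 1600 ≤ r := by linarith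
  -- N > 4000 M
  have hn4 : 4000 * (M : ℝ) ≤ N := by
    have h1 := h.hn
    have h2 : (4000 * (M : ℝ)) ^ 2 ≤ (N : ℝ) ^ 2 := by
      refine le_trans ?_ h1
      have : (M : ℝ) ^ 2 * 16 ≤ (M : ℝ) ^ 2 * X := mul_le_mul_of_nonneg_left hx1 (by positivity)
      nlinarith
    exact le_of_sq_le_sq h2 (by linarith)
  have hn4' : 4000 * M ≤ N := by exact_mod_cast hn4
  set q1 := N / (256 * M) with hq1
  have hq1a : 256 * M * q1 ≤ N := Nat.mul_div_le _ _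
  have hq1b : N < 256 * M * (q1 + 1) := Nat.lt_mul_div_succ _ (by have := h.hM; omega)
  have hq1c : (N : ℝ) < 256 * M * (q1 + 1) := by exact_mod_cast hq1b
  have hM0 : (0 : ℝ) < M := by linarith
  by_cases hc1 : (q1 : ℝ) * N ≤ 20 * M * r
  · -- first case
    have hq1d : (N : ℝ) ≤ 512 * M * q1 := by nlinarith
    have hq3 : 3 ≤ q1 := by
      by_contra hlt
      have h1 : q1 ≤ 2 := by omega
      have h2 : (q1 : ℝ) ≤ 2 := by exact_mod_cast h1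
      have h3 : 512 * (M : ℝ) * q1 ≤ 512 * M * 2 := mul_le_mul_of_nonneg_left h2 (by linarith)
      linarith
    have hs : (N : ℝ) ^ 2 ≤ 512 * M * (q1 * N) := by
      calc (N : ℝ) ^ 2 = N * N := by ring
        _ ≤ 512 * M * q1 * N := mul_le_mul_of_nonneg_right hq1d (by linarith)
        _ = _ := by ring
    have hs0 : 0 < (q1 : ℝ) * N := by
      have : (3 : ℝ) ≤ q1 := by exact_mod_cast hq3
      positivity
    refine ⟨q1, rd_nc h hq3 hq1a ?_ (by nlinarith) ?_⟩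
    · have h1 := h.hn
      have h2 : 10 ^ 6 * (M : ℝ) ^ 2 * X ≤ 512 * M * (q1 * N) := h1.trans hs
      have h3 : (M : ℝ) * (160 * M * X) ≤ M * (q1 * N) := by
        have h4 : (0 : ℝ) ≤ (M : ℝ) ^ 2 * X := by positivity
        nlinarith
      exact le_of_mul_le_mul_left h3 hM0
    · set k := 4 * (M : ℝ) ^ 2 / (q1 * N) with hk
      have hk0 : 0 ≤ k := by positivity
      have hk1 : k ≤ 2048 * (M : ℝ) ^ 3 / (N : ℝ) ^ 2 := by
        rw [hk, div_le_div_iff₀ hs0 (by positivity)]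
        have : (M : ℝ) ^ 2 * (N : ℝ) ^ 2 ≤ M ^ 2 * (512 * M * (q1 * N)) :=
          mul_le_mul_of_nonneg_left hs (by positivity)
        nlinarith
      have hk2 : k ^ 2 ≤ 2 ^ 22 * B := by
        have h1 := pow_le_pow_left₀ hk0 hk1 2
        refine h1.trans (le_of_eq ?_)
        rw [h.hB]
        field_simp
        ring
      have hk3 : (k + 2) ^ 2 ≤ 2 ^ 23 * B + 8 := by nlinarith [sq_nonneg (k - 2)]
      have hB0 : 0 ≤ B := by rw [h.hB]; positivity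
      have h2 : (X : ℝ) ^ 3 ≤ 91125 * l ^ 3 := by
        have := pow_le_pow_left₀ (by positivity : (0 : ℝ) ≤ X) h.hx2 3
        calc (X : ℝ) ^ 3 ≤ (45 * l) ^ 3 := this
          _ = 91125 * l ^ 3 := by ring
      refine le_trans ?_ h.hW
      have e1 : (10 : ℝ) ^ 14 * (k + 2) ^ 2 * (X : ℝ) ^ 3 ≤ 10 ^ 14 * (2 ^ 23 * B + 8) * (91125 * l ^ 3) :=
        mul_le_mul (mul_le_mul_of_nonneg_left hk3 (by positivity)) h2 (by positivity) (by positivity)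
      have ha := h.ha
      have e3 : (10 ^ 14 * 91125 : ℝ) * (2 ^ 23 * B + 8) ≤ C / 2 * (a + B) := by nlinarith
      have e4 : (10 ^ 14 * 91125 : ℝ) * (2 ^ 23 * B + 8) * l ^ 3 ≤ C / 2 * (a + B) * l ^ 3 :=
        mul_le_mul_of_nonneg_right e3 (by positivity)
      calc (10 : ℝ) ^ 14 * (k + 2) ^ 2 * (X : ℝ) ^ 3 ≤ 10 ^ 14 * (2 ^ 23 * B + 8) * (91125 * l ^ 3) := e1
        _ = (10 ^ 14 * 91125 : ℝ) * (2 ^ 23 * B + 8) * l ^ 3 := by ring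
        _ ≤ _ := e4
  · rw [not_le] at hc1
    have hmr : 0 < (M : ℝ) * r := by positivity
    by_cases hc2 : (N : ℝ) ≤ 4 * M * r
    · set q := ⌊20 * M * r / N⌋₊ with hq
      have h0 : 0 ≤ 20 * (M : ℝ) * r / N := by positivity
      have h1 : (q : ℝ) ≤ 20 * M * r / N := Nat.floor_le h0
      have h2 : 20 * (M : ℝ) * r / N < q + 1 := Nat.lt_floor_add_one _
      have hN0 : (0 : ℝ) < N := by linarith
      rw [le_div_iff₀ hN0] at h1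
      rw [div_lt_iff₀ hN0] at h2
      have h3 : 16 * (M : ℝ) * r < q * N := by nlinarith
      have h5 : 5 ≤ q := by
        refine Nat.le_floor ?_
        rw [le_div_iff₀ hN0]
        push_cast
        linarith
      have h6 : q < q1 := by
        have : (q : ℝ) * N < q1 * N := by linarith
        have : (q : ℝ) < q1 := lt_of_mul_lt_mul_right this (by linarith)
        exact_mod_cast this
      have h7 : 256 * M * q ≤ N := (Nat.mul_le_mul_left _ h6.le).trans hq1a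
      have hs0 : 0 < (q : ℝ) * N := by linarith
      refine ⟨q, rd_nc h (by omega) h7 ?_ (by nlinarith) (rd_b2 h (by positivity) ?_)⟩
      · have : (M : ℝ) * (100 * X) ≤ M * r := mul_le_mul_of_nonneg_left hr (by linarith)
        nlinarith
      · have h8 : 4 * (M : ℝ) ^ 2 / (q * N) ≤ r / 4 := by
          rw [div_le_div_iff₀ hs0 (by norm_num)]
          have e1 : r * (16 * (M : ℝ) * r) ≤ r * (q * N) := mul_le_mul_of_nonneg_left h3.le (by linarith)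
          have e2 : r * (16 * (M : ℝ) * r) = 16 * M * (r * r) := by ring
          rw [e2, hrr] at e1
          nlinarith
        linarith
    · rw [not_le] at hc2
      have hs0 : 0 < ((3 : ℕ) : ℝ) * N := by positivity
      refine ⟨3, rd_nc h le_rfl (by omega) ?_ ?_ (rd_b2 h (by positivity) ?_)⟩
      · have : (M : ℝ) * (100 * X) ≤ M * r := mul_le_mul_of_nonneg_left hr (by linarith)
        push_cast
        nlinarith
      · push_cast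
        linarith
      · have h8 : 4 * (M : ℝ) ^ 2 / (((3 : ℕ) : ℝ) * N) ≤ r / 3 := by
          rw [div_le_div_iff₀ hs0 (by norm_num)]
          have e1 : r * (4 * (M : ℝ) * r) ≤ r * N := mul_le_mul_of_nonneg_left hc2.le (by linarith)
          have e2 : r * (4 * (M : ℝ) * r) = 4 * M * (r * r) := by ring
          rw [e2, hrr] at e1
          push_cast
          nlinarith
        linarith

/-- U64 (choice of `q`). `N = d + 1`, `ℓ = log (M + 2)`, `X = ⌈13 log (3 M) + 16⌉ ≤ 45 ℓ`,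
`W = ⌊C (M^(9/8) + M^6/N^4) ℓ^3⌋ < 6 M^2 + 1`. `C M^6/N^4 ℓ^3 < 6 M^2` gives `N ≥ 1000 M √X`,
`C M^(9/8) ℓ^3 < 6 M^2` gives that `M` is large and `√M ≥ 100 X`. `q1 = N / (256 M)`. If
`q1 N ≤ 20 M √M` take `q = q1` (`q N ≥ N^2/(512 M)`, so `(M^2/(q N))^2 ≤ 2^18 M^6/N^4`); otherwise the
largest `q` with `q N ≤ 20 M √M` (`q N ≥ 4 M √M`, `q ≥ 3` needs `N ≤ 4 M √M`: so in the second case
for `N > 4 M √M` take `q = 3`, `q N ≤ 48 M √M`). In all cases `q N ≤ 60 M √M`, so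
`(q N)^3 ≤ 216000 M^(9/2)` and `W^4 ≥ (C M^(9/8) / 2)^4`. -/
theorem ch_q : ∃ C : ℝ, 1 ≤ C ∧ ∀ M N : ℕ, 1 ≤ M → (N : ℝ) < 16 * M * √(M : ℝ) → 1 ≤ N →
    C * ((M : ℝ) ^ (9 / 8 : ℝ) + (M : ℝ) ^ 6 / (N : ℝ) ^ 4) * Real.log (M + 2) ^ 3 <
      6 * (M : ℝ) ^ 2 →
    ∃ q X : ℕ, Nc M N q X
      ⌊C * ((M : ℝ) ^ (9 / 8 : ℝ) + (M : ℝ) ^ 6 / (N : ℝ) ^ 4) * Real.log (M + 2) ^ 3⌋₊ := by
  refine ⟨10 ^ 30, by norm_num, fun M N hM hN16 hN hlt => ?_⟩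
  have hm : (1 : ℝ) ≤ M := by exact_mod_cast hM
  have hn1 : (1 : ℝ) ≤ N := by exact_mod_cast hN
  have hm0 : (0 : ℝ) < M := by linarith
  have hn0 : (0 : ℝ) < N := by linarith
  set l := Real.log ((M : ℝ) + 2) with hldef
  set a := (M : ℝ) ^ (9 / 8 : ℝ) with hadef
  set B := (M : ℝ) ^ 6 / (N : ℝ) ^ 4 with hBdef
  have hB0 : 0 ≤ B := by rw [hBdef]; positivity
  have hl3 : Real.log 3 ≤ l := Real.log_le_log (by norm_num) (by linarith)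
  have hlog3 : 1 < Real.log 3 := by
    rw [Real.lt_log_iff_exp_lt (by norm_num)]
    exact lt_trans Real.exp_one_lt_d9 (by norm_num)
  have hl : 1 ≤ l := by linarith
  have hlM : Real.log M ≤ l := Real.log_le_log hm0 (by linarith)
  have hlog : Real.log (3 * M) ≤ 2 * l := by
    rw [Real.log_mul (by norm_num) (by linarith)]
    linarith
  have hlog0 : 0 ≤ Real.log (3 * M) := Real.log_nonneg (by linarith)
  set X := ⌈13 * Real.log (3 * M) + 16⌉₊ with hX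
  have hX1 : 13 * Real.log (3 * M) + 16 ≤ X := Nat.le_ceil _
  have hX2 : (X : ℝ) < 13 * Real.log (3 * M) + 16 + 1 := Nat.ceil_lt_add_one (by linarith)
  have hx1 : 16 ≤ (X : ℝ) := by linarith
  have hx2 : (X : ℝ) ≤ 45 * l := by linarith
  have ha : (M : ℝ) ≤ a := by
    have := Real.rpow_le_rpow_of_exponent_le hm (show (1 : ℝ) ≤ 9 / 8 by norm_num)
    rwa [Real.rpow_one] at this
  have ha4 : a ^ 4 = (M : ℝ) ^ 4 * √(M : ℝ) := by
    rw [hadef, ← Real.rpow_natCast, ← Real.rpow_mul hm0.le, Real.sqrt_eq_rpow,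
      ← Real.rpow_natCast (M : ℝ) 4, ← Real.rpow_add hm0]
    norm_num
  have hl3' : 1 ≤ l ^ 3 := one_le_pow₀ hl
  have hl23 : l ^ 2 ≤ l ^ 3 := pow_le_pow_right₀ hl (by norm_num)
  have hl3pos : 0 < l ^ 3 := by linarith
  -- consequences of the hypothesis
  have hF1 : 10 ^ 30 * l ^ 3 < 6 * (M : ℝ) := by
    have h1 : 10 ^ 30 * (M : ℝ) * l ^ 3 ≤ 10 ^ 30 * (a + B) * l ^ 3 := by
      refine mul_le_mul_of_nonneg_right ?_ hl3pos.le
      exact mul_le_mul_of_nonneg_left (by linarith) (by norm_num)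
    have h2 : (M : ℝ) * (10 ^ 30 * l ^ 3) < M * (6 * M) := by
      calc (M : ℝ) * (10 ^ 30 * l ^ 3) = 10 ^ 30 * (M : ℝ) * l ^ 3 := by ring
        _ ≤ 10 ^ 30 * (a + B) * l ^ 3 := h1
        _ < 6 * (M : ℝ) ^ 2 := hlt
        _ = M * (6 * M) := by ring
    exact lt_of_mul_lt_mul_left h2 hm0.le
  have hF2 : 10 ^ 30 * (M : ℝ) ^ 4 * l ^ 3 < 6 * (N : ℝ) ^ 4 := by
    have h1 : 10 ^ 30 * B * l ^ 3 < 6 * (M : ℝ) ^ 2 := by
      refine lt_of_le_of_lt ?_ hlt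
      refine mul_le_mul_of_nonneg_right ?_ hl3pos.le
      exact mul_le_mul_of_nonneg_left (by linarith) (by norm_num)
    have h2 : 10 ^ 30 * B * l ^ 3 = 10 ^ 30 * (M : ℝ) ^ 6 * l ^ 3 / (N : ℝ) ^ 4 := by
      rw [hBdef]; ring
    rw [h2, div_lt_iff₀ (by positivity)] at h1
    have h3 : (M : ℝ) ^ 2 * (10 ^ 30 * (M : ℝ) ^ 4 * l ^ 3) < (M : ℝ) ^ 2 * (6 * (N : ℝ) ^ 4) := by
      calc (M : ℝ) ^ 2 * (10 ^ 30 * (M : ℝ) ^ 4 * l ^ 3) = 10 ^ 30 * (M : ℝ) ^ 6 * l ^ 3 := by ring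
        _ < 6 * (M : ℝ) ^ 2 * (N : ℝ) ^ 4 := h1
        _ = _ := by ring
    exact lt_of_mul_lt_mul_left h3 (by positivity)
  have hxx : (X : ℝ) ^ 2 ≤ 2025 * l ^ 3 := by
    have h1 := pow_le_pow_left₀ (by positivity : (0 : ℝ) ≤ X) hx2 2
    calc (X : ℝ) ^ 2 ≤ (45 * l) ^ 2 := h1
      _ = 2025 * l ^ 2 := by ring
      _ ≤ 2025 * l ^ 3 := by linarith
  have hn : 10 ^ 6 * (M : ℝ) ^ 2 * X ≤ (N : ℝ) ^ 2 := by
    have h1 : (10 ^ 6 * (M : ℝ) ^ 2 * X) ^ 2 ≤ ((N : ℝ) ^ 2) ^ 2 := by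
      have e1 : (10 ^ 6 * (M : ℝ) ^ 2 * X) ^ 2 = 10 ^ 12 * (M : ℝ) ^ 4 * (X : ℝ) ^ 2 := by ring
      have e2 : 10 ^ 12 * (M : ℝ) ^ 4 * (X : ℝ) ^ 2 ≤ 10 ^ 12 * (M : ℝ) ^ 4 * (2025 * l ^ 3) :=
        mul_le_mul_of_nonneg_left hxx (by positivity)
      have e3 : (0 : ℝ) ≤ (M : ℝ) ^ 4 * l ^ 3 := by positivity
      rw [e1]
      calc 10 ^ 12 * (M : ℝ) ^ 4 * (X : ℝ) ^ 2 ≤ 10 ^ 12 * (M : ℝ) ^ 4 * (2025 * l ^ 3) := e2
        _ ≤ (N : ℝ) ^ 4 := by nlinarith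
        _ = _ := by ring
    exact le_of_sq_le_sq h1 (by positivity)
  have hr : 100 * (X : ℝ) ≤ √(M : ℝ) := by
    refine Real.le_sqrt_of_sq_le ?_
    calc (100 * (X : ℝ)) ^ 2 = 10 ^ 4 * (X : ℝ) ^ 2 := by ring
      _ ≤ 10 ^ 4 * (2025 * l ^ 3) := mul_le_mul_of_nonneg_left hxx (by norm_num)
      _ ≤ M := by linarith
  -- the number `W`
  set Wr := 10 ^ 30 * (a + B) * l ^ 3 with hWr
  have hWr2 : 2 ≤ Wr := by
    have h1 : (1 : ℝ) ≤ a + B := by linarith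
    have h2 : (10 : ℝ) ^ 30 * 1 ≤ 10 ^ 30 * (a + B) := mul_le_mul_of_nonneg_left h1 (by norm_num)
    calc (2 : ℝ) ≤ 10 ^ 30 * 1 * 1 := by norm_num
      _ ≤ 10 ^ 30 * (a + B) * l ^ 3 := mul_le_mul h2 hl3' (by norm_num) (by positivity)
  have hW1 : (⌊Wr⌋₊ : ℝ) ≤ Wr := Nat.floor_le (by linarith)
  have hW2 : Wr < ⌊Wr⌋₊ + 1 := Nat.lt_floor_add_one _
  have hWa : (10 : ℝ) ^ 30 / 2 * (a + B) * l ^ 3 ≤ (⌊Wr⌋₊ : ℝ) := by
    have e1 : (10 : ℝ) ^ 30 / 2 * (a + B) * l ^ 3 = Wr / 2 := by rw [hWr]; ring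
    rw [e1]
    linarith
  have hWb : ⌊Wr⌋₊ ≤ 7 * M ^ 2 := by
    have h1 : (⌊Wr⌋₊ : ℝ) ≤ 7 * (M : ℝ) ^ 2 := by
      have : (0 : ℝ) ≤ (M : ℝ) ^ 2 := by positivity
      linarith
    have h2 : ((⌊Wr⌋₊ : ℕ) : ℝ) ≤ ((7 * M ^ 2 : ℕ) : ℝ) := by push_cast; exact h1
    exact_mod_cast h2
  have hRd : Rd M N X ⌊Wr⌋₊ (10 ^ 30) a B l :=
    ⟨hM, hN, le_rfl, hl, hx1, hx2, hX1, ha, ha4, hBdef, hWa, hWb, hn, hr⟩
  obtain ⟨q, hq⟩ := rd_main hRd hN16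
  exact ⟨q, X, hq⟩

end Pool.Agent.Lib.MP_6b2d39_agUn
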