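import Pool.Agent.Lib.MP_6b2d39_agHl.ToGen
import Pool.Agent.Lib.MP_6b2d39_agHl.SmallA
import Pool.Agent.Lib.MP_6b2d39_ag.Effective
import Pool.Agent.Lib.MP_6b2d39_agCr.Lower

set_option autoImplicit false

namespace Pool.Agent.Lib.MP_6b2d39_agUn

open Pool.Agent.Lib.MP_6b2d39_ag Pool.Agent.Lib.MP_6b2d39_agNw Pool.Agent.Lib.MP_6b2d39_agHl
  Pool.Agent.Lib.MP_6b2d39_agCr

/-- U63 (`effective_AH` with `a = ⌈3 √M⌉`, `general_nonspecial_of_affine`) -/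
theorem exact_u {n d M : ℕ} (hM : 1 ≤ M) {μ : Fin n → ℕ} (hμ : ∀ i, μ i ≤ M)
    (hd : 16 * (M : ℝ) * √M ≤ (d : ℝ) + 1) :
    General (fun P => (Module.finrank ℂ (curves d μ P) : ℤ) = max (vd d μ) 0) := by
  apply general_nonspecial_of_affine
  have hM0 : (1 : ℝ) ≤ (M : ℝ) := by exact_mod_cast hM
  have hs1 : (1 : ℝ) ≤ √(M : ℝ) := by
    rw [Real.one_le_sqrt]
    exact hM0
  have hsq : √(M : ℝ) * √(M : ℝ) = (M : ℝ) := Real.mul_self_sqrt (by positivity)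
  have h1 : 3 * √(M : ℝ) ≤ (⌈3 * √(M : ℝ)⌉₊ : ℝ) := Nat.le_ceil _
  have h2 : (⌈3 * √(M : ℝ)⌉₊ : ℝ) < 3 * √(M : ℝ) + 1 := Nat.ceil_lt_add_one (by positivity)
  apply effective_AH (M := M) (a := ⌈3 * √(M : ℝ)⌉₊) μ hμ
  · have h3 : 9 * (M : ℝ) ≤ (⌈3 * √(M : ℝ)⌉₊ : ℝ) ^ 2 + 1 := by
      nlinarith
    exact_mod_cast h3
  · have h3 : 2 * ((M : ℝ) + 1) * (⌈3 * √(M : ℝ)⌉₊ : ℝ) ≤ (d : ℝ) + 1 := by
      have h4 : 2 * ((M : ℝ) + 1) * (⌈3 * √(M : ℝ)⌉₊ : ℝ) ≤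
          2 * ((M : ℝ) + 1) * (3 * √(M : ℝ) + 1) :=
        mul_le_mul_of_nonneg_left h2.le (by positivity)
      have h5 : 2 * ((M : ℝ) + 1) * (3 * √(M : ℝ) + 1) ≤ 16 * (M : ℝ) * √M := by
        have h6 : (M : ℝ) ≤ (M : ℝ) * √(M : ℝ) := by nlinarith
        have h7 : √(M : ℝ) ≤ (M : ℝ) * √(M : ℝ) := by nlinarith
        nlinarith
      linarith
    exact_mod_cast h3

end Pool.Agent.Lib.MP_6b2d39_agUn
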