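import Pool.Agent.Lib.MP_6b2d39_agHl.ToGen
import Pool.Agent.Lib.MP_6b2d39_agHl.SmallA
import Pool.Agent.Lib.MP_6b2d39_agHl.Small
import Pool.Agent.Lib.MP_6b2d39_ag.Effective
import Pool.Agent.Lib.MP_6b2d39_agCr.Lower

set_option autoImplicit false

namespace Pool.Agent.Lib.MP_6b2d39_agUn

open Pool.Agent.Lib.MP_6b2d39_ag Pool.Agent.Lib.MP_6b2d39_agNw Pool.Agent.Lib.MP_6b2d39_agHl
  Pool.Agent.Lib.MP_6b2d39_agCr

private theorem triv_cast {n k k' : ℕ} (h : k = k') {P : Finset (ℕ × ℕ)} {μ : Fin n → ℕ}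
    (hE : EmpQ P (Sum.elim μ (fun _ => 1) : Fin n ⊕ Fin k → ℕ) Finset.univ) :
    EmpQ P (Sum.elim μ (fun _ => 1) : Fin n ⊕ Fin k' → ℕ) Finset.univ := by
  subst h
  exact hE

private theorem triv_choose (a : ℕ) : 2 * (((a + 1).choose 2 : ℕ) : ℤ) = ((a : ℤ) + 1) * a := by
  have h := Nat.add_one_mul_choose_eq a 1
  rw [Nat.choose_one_right] at h
  have h2 : (((a + 1) * a : ℕ) : ℤ) = (((a + 1).choose (1 + 1) * (1 + 1) : ℕ) : ℤ) := by rw [h]
  push_cast at h2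
  linarith

/-- U62 (`emp_window`, `general_of_emp`; if `d + 1 < M` and `vd < 0` use the degree `M - 1`,
`emp_tri_mono`; `vd ≥ 6 M^2` is impossible for `d + 1 < M`) -/
theorem triv_u {n d M : ℕ} (hM : 1 ≤ M) {μ : Fin n → ℕ} (hμ : ∀ i, μ i ≤ M)
    (hv : 6 * (M : ℤ) ^ 2 ≤ |vd d μ|) :
    General (fun P => (Module.finrank ℂ (curves d μ P) : ℤ) = max (vd d μ) 0) := by
  apply general_of_emp
  have hM0 : 0 ≤ (M : ℤ) ^ 2 := by positivity
  have hM1 : (1 : ℤ) ≤ M := by exact_mod_cast hM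
  rcases le_or_gt M (d + 1) with hd | hd
  · refine emp_window hM hd hμ ?_
    rcases le_abs.1 hv with h | h
    · exact Or.inr h
    · left
      linarith
  · obtain ⟨N, rfl⟩ : ∃ N, M = N + 1 := ⟨M - 1, by omega⟩
    have hdN : d + 1 ≤ N := by omega
    have hs : 0 ≤ ∑ i, ((μ i + 1).choose 2 : ℤ) := Finset.sum_nonneg fun i _ => by positivity
    have hc := triv_choose (d + 1)
    have hcN := triv_choose (N + 1)
    have hdN' : (d : ℤ) + 1 ≤ N := by exact_mod_cast hdN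
    have hd0 : (0 : ℤ) ≤ d := by positivity
    have e1 : vd d μ = ((d + 1 + 1).choose 2 : ℤ) - ∑ i, ((μ i + 1).choose 2 : ℤ) := rfl
    have e2 : vd N μ = ((N + 1 + 1).choose 2 : ℤ) - ∑ i, ((μ i + 1).choose 2 : ℤ) := rfl
    push_cast at hc hcN hv
    have hcd : 2 * ((d + 1 + 1).choose 2 : ℤ) ≤ ((N : ℤ) + 1) * N := by
      rw [hc]
      nlinarith
    have hneg : vd d μ ≤ -(6 * ((N : ℤ) + 1) ^ 2) := by
      rcases le_abs.1 hv with h | h
      · exfalso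
        nlinarith
      · linarith
    have hvN : vd N μ ≤ -(3 * ((N + 1 : ℕ) : ℤ) ^ 2) := by
      push_cast
      have h3 : (0 : ℤ) ≤ ((d + 1 + 1).choose 2 : ℤ) := by positivity
      nlinarith
    have hE := emp_window (κ := N + 1) (d := N) (by omega) le_rfl hμ (Or.inl hvN)
    have h0 : 0 ≤ 3 * ((N + 1 : ℕ) : ℤ) ^ 2 := by positivity
    have h1 : 0 ≤ 6 * ((N : ℤ) + 1) ^ 2 := by positivity
    refine triv_cast ?_ (emp_tri_mono (by omega : d + 1 ≤ N + 1) hE)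
    omega

end Pool.Agent.Lib.MP_6b2d39_agUn
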