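import Pool.Agent.Lib.MP_6b2d39_agUn.WinU
import Pool.Agent.Lib.MP_6b2d39_agUn.Triv
import Pool.Agent.Lib.MP_6b2d39_agUn.Exact
import Pool.Agent.Lib.MP_6b2d39_agUn.ChQ

set_option autoImplicit false

namespace Pool.Agent.Lib.MP_6b2d39_agUn

open Pool.Agent.Lib.MP_6b2d39_agArr Pool.Agent.Lib.MP_6b2d39_agNw Pool.Agent.Lib.MP_6b2d39_agHl
  Pool.Agent.Lib.MP_6b2d39_agCr

/-- THEOREM U (U65): `exact_u` if `16 M √M ≤ d + 1`, `triv_u` if the window is `≥ 6 M^2`, otherwise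
`ch_q` and `win_u` -/
theorem main_u : ∃ C : ℝ, 1 ≤ C ∧ ∀ (n d M : ℕ) (μ : Fin n → ℕ), 1 ≤ M → (∀ i, μ i ≤ M) →
    C * ((M : ℝ) ^ (9 / 8 : ℝ) + (M : ℝ) ^ 6 / ((d : ℝ) + 1) ^ 4) * Real.log (M + 2) ^ 3 ≤
      |((vd d μ : ℤ) : ℝ)| →
    General (fun P => (Module.finrank ℂ (curves d μ P) : ℤ) = max (vd d μ) 0) := by
  obtain ⟨C, hC1, hC⟩ := ch_q
  refine ⟨C, hC1, fun n d M μ hM hμ hv => ?_⟩
  have e0 : ((d + 1 : ℕ) : ℝ) = (d : ℝ) + 1 := by push_cast; ring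
  have hab : ((|vd d μ| : ℤ) : ℝ) = |((vd d μ : ℤ) : ℝ)| := Int.cast_abs
  rcases le_or_gt (16 * (M : ℝ) * √(M : ℝ)) ((d : ℝ) + 1) with h1 | h1
  · exact exact_u hM hμ h1
  · rcases le_or_gt (6 * (M : ℤ) ^ 2) |vd d μ| with h2 | h2
    · exact triv_u hM hμ h2
    · have h3 : |((vd d μ : ℤ) : ℝ)| < 6 * (M : ℝ) ^ 2 := by
        rw [← hab]
        exact_mod_cast h2
      obtain ⟨q, X, hN⟩ := hC M (d + 1) hM (by rw [e0]; exact h1) (by omega)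
        (by rw [e0]; exact lt_of_le_of_lt hv h3)
      rw [e0] at hN
      refine win_u hN hμ ?_
      have h4 : (0 : ℝ) ≤ C * ((M : ℝ) ^ (9 / 8 : ℝ) + (M : ℝ) ^ 6 / ((d : ℝ) + 1) ^ 4) *
          Real.log (M + 2) ^ 3 := by
        have hl : 0 ≤ Real.log ((M : ℝ) + 2) :=
          Real.log_nonneg (by
            have : (0 : ℝ) ≤ M := Nat.cast_nonneg M
            linarith)
        positivity
      have h5 := (Nat.floor_le h4).trans hv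
      rw [← hab] at h5
      exact_mod_cast h5

end Pool.Agent.Lib.MP_6b2d39_agUn
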