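import Pool.Agent.Lib.MP_6b2d39_agUn.DimU

set_option autoImplicit false

namespace Pool.Agent.Lib.MP_6b2d39_agUn

open Pool.Agent.Lib.MP_6b2d39_agCr

private theorem au_zero {n k d : ℕ} (μ : Fin n → ℕ)
    (P : Fin (n + k) → Fin 3 → ℂ) :
    curves d (Fin.append μ (fun _ : Fin k => 0)) P =
      curves d μ (fun i => P (Fin.castAdd k i)) := by
  unfold curves
  congr 1
  apply le_antisymm
  · refine le_iInf fun i => ?_
    refine (iInf_le _ (Fin.castAdd k i)).trans ?_
    rw [Fin.append_left]
  · refine le_iInf fun i => ?_
    induction i using Fin.addCases with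
    | left i =>
      rw [Fin.append_left]
      exact iInf_le _ i
    | right i =>
      rw [Fin.append_right, pow_zero, Ideal.one_eq_top]
      intro x _
      trivial

/-- U58 (removing points from a non-special system of nonnegative virtual dimension; as
`general_le_simple`, `curves_raise`; lower bound of the dimension) -/
theorem app_u {n k c d : ℕ} (μ : Fin n → ℕ)
    (h0 : 0 ≤ vd d (Fin.append μ (fun _ : Fin k => c)))
    (h : General (fun P => (Module.finrank ℂ
      (curves d (Fin.append μ (fun _ : Fin k => c)) P) : ℤ) =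
        max (vd d (Fin.append μ (fun _ : Fin k => c))) 0)) :
    General (fun P => (Module.finrank ℂ (curves d μ P) : ℤ) = max (vd d μ) 0) := by
  obtain ⟨P', hP, hP2⟩ := (h.and (general_coord_ne 2)).exists
  have h1 := Pool.Agent.Lib.MP_6b2d39_agHw.curves_raise d
    (m := Fin.append μ (fun _ : Fin k => 0))
    (m' := Fin.append μ (fun _ : Fin k => c)) (fun i => by
      induction i using Fin.addCases with
      | left i => rw [Fin.append_left, Fin.append_left]
      | right i => rw [Fin.append_right, Fin.append_right]; exact Nat.zero_le _) hP2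
  have e0 : ((0 + 1).choose 2 : ℕ) = 0 := by decide
  have h2 : vd d (Fin.append μ (fun _ : Fin k => 0)) = vd d μ := by
    rw [vd_append, e0]
    simp
  have h3 : 0 ≤ vd d μ := by
    have h4 := vd_append (k := k) (c := c) d μ
    have h5 : (0 : ℤ) ≤ k * (((c + 1).choose 2 : ℕ) : ℤ) := by positivity
    linarith
  rw [hP, max_eq_left h0, h2, au_zero] at h1
  rw [max_eq_left h3]
  refine ((general_finrank_le d μ (fun i => P' (Fin.castAdd k i))).and
    (general_coord_ne 2)).mono ?_
  rintro P ⟨hP3, hP4⟩
  have h6 : (Module.finrank ℂ (curves d μ P) : ℤ) ≤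
      Module.finrank ℂ (curves d μ (fun i => P' (Fin.castAdd k i))) := by exact_mod_cast hP3
  have h7 := vd_le_finrank d μ hP4
  linarith

end Pool.Agent.Lib.MP_6b2d39_agUn
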