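import Pool.Agent.Lib.MP_6b2d39_agUn.RowQ
import Pool.Agent.Lib.MP_6b2d39_agHl.Step
import Pool.Agent.Lib.MP_6b2d39_agHy.EmpCut

set_option autoImplicit false

namespace Pool.Agent.Lib.MP_6b2d39_agUn

open Pool.Agent.Lib.MP_6b2d39_agArr Pool.Agent.Lib.MP_6b2d39_agNw Pool.Agent.Lib.MP_6b2d39_agHl
  Pool.Agent.Lib.MP_6b2d39_agWin Pool.Agent.Lib.MP_6b2d39_ag Pool.Agent.Lib.MP_6b2d39_ag.Rel

variable {ι : Type} [Fintype ι] [DecidableEq ι]

/-- U55. as `emp_of_cert` (`Hy/EmpCut.lean`), any finite index type -/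
theorem emp_cert {L : ℕ} {μ : ι → ℕ} {r : ℕ → ℕ}
    (h : Cert μ Finset.univ L (fun b => (r b : ℤ))) : EmpQ (dgm r L) μ Finset.univ := by
  have h0 : EmpP (dgm r L) μ Finset.univ := by
    refine empP_of_cert_up (c := 0) h (fun b _ => ?_) (fun p hp => ?_)
    · rw [zero_add]
      have hsub : rowOf (dgm r L) b ⊆ Finset.range (r b) := by
        intro a ha
        unfold rowOf at ha
        rw [Finset.mem_image] at ha
        obtain ⟨p, hp, rfl⟩ := ha
        rw [Finset.mem_filter, mem_dgm] at hp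
        rw [Finset.mem_range, ← hp.2]
        exact hp.1.2
      have hc := Finset.card_le_card hsub
      rw [Finset.card_range] at hc
      exact_mod_cast hc
    · rw [mem_dgm] at hp
      exact ⟨Nat.zero_le _, by rw [zero_add]; exact hp.1⟩
  obtain ⟨x, y, _, _, hxy⟩ := h0
  exact ⟨x, y, hxy⟩

/-- U55. `emp_cert`, `emp_cut` (`rq_out`), `stp_tri`, `step` (`Hl/Step.lean`) -/
theorem emp_rq {q N : ℕ} (hq : 1 ≤ q) (hN : 1 ≤ N) {μ : ι → ℕ}
    (h : Cert μ Finset.univ ((N + q - 1) / q) (fun b => (rq q N b : ℤ))) :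
    EmpQ (dgm (tri N) N) μ Finset.univ := by
  have h1 : 1 ≤ (N + q - 1) / q := by
    rw [Nat.le_div_iff_mul_le (by omega)]
    omega
  have h2 : EmpQ (dgm (rq q N) N) μ Finset.univ := by
    refine Pool.Agent.Lib.MP_6b2d39_agHy.emp_cut (T := (N + q - 1) / q - 1)
      (fun b hb => rq_out hq (by omega)) ?_
    rw [Nat.sub_add_cancel h1]
    exact emp_cert h
  have h3 : stp q N (tri N) = rq q N := by
    funext b
    exact stp_tri hq b
  exact step hq (h3 ▸ h2)

end Pool.Agent.Lib.MP_6b2d39_agUn
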