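import Pool.Agent.Lib.MP_6b2d39_agHl.ToGen

set_option autoImplicit false

namespace Pool.Agent.Lib.MP_6b2d39_agUn

open Pool.Agent.Lib.MP_6b2d39_agArr Pool.Agent.Lib.MP_6b2d39_agNw Pool.Agent.Lib.MP_6b2d39_agHl
  Pool.Agent.Lib.MP_6b2d39_agCr

private theorem vd_update {n d : ℕ} (μ : Fin n → ℕ) (i : Fin n) (hi : μ i ≠ 0) :
    vd d (Function.update μ i (μ i - 1)) = vd d μ + μ i := by
  unfold vd
  have h1 : ∑ j, ((μ j + 1).choose 2 : ℤ) =
      ((μ i + 1).choose 2 : ℤ) + ∑ j ∈ Finset.univ.erase i, ((μ j + 1).choose 2 : ℤ) :=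
    (Finset.add_sum_erase _ _ (Finset.mem_univ i)).symm
  have h2 : ∑ j, ((Function.update μ i (μ i - 1) j + 1).choose 2 : ℤ) =
      ((Function.update μ i (μ i - 1) i + 1).choose 2 : ℤ) +
        ∑ j ∈ Finset.univ.erase i, ((Function.update μ i (μ i - 1) j + 1).choose 2 : ℤ) :=
    (Finset.add_sum_erase _ _ (Finset.mem_univ i)).symm
  have h3 : ∑ j ∈ Finset.univ.erase i, ((Function.update μ i (μ i - 1) j + 1).choose 2 : ℤ) =
      ∑ j ∈ Finset.univ.erase i, ((μ j + 1).choose 2 : ℤ) := by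
    refine Finset.sum_congr rfl fun j hj => ?_
    rw [Function.update_of_ne (Finset.ne_of_mem_erase hj)]
  have h4 : ((μ i + 1).choose 2 : ℤ) = ((μ i - 1 + 1).choose 2 : ℤ) + μ i := by
    obtain ⟨a, ha⟩ := Nat.exists_eq_succ_of_ne_zero hi
    rw [ha]
    have h5 : (a.succ + 1).choose 2 = (a + 1).choose 1 + (a + 1).choose 2 :=
      Nat.choose_succ_succ (a + 1) 1
    have h6 : a.succ - 1 = a := rfl
    rw [h5, h6, Nat.choose_one_right]
    push_cast
    ring
  rw [h1, h2, h3, Function.update_self, h4]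
  ring

private theorem vd_zero_pos {n d : ℕ} {μ : Fin n → ℕ} (h : ∀ i, μ i = 0) : 0 < vd d μ := by
  unfold vd
  have h1 : ∑ i, ((μ i + 1).choose 2 : ℤ) = 0 := by
    refine Finset.sum_eq_zero fun i _ => ?_
    rw [h i]
    rfl
  rw [h1, sub_zero]
  have : 0 < (d + 2).choose 2 := Nat.choose_pos (by omega)
  exact_mod_cast this

private theorem lower_aux {n d M W : ℕ} :
    ∀ (s : ℕ) (μ : Fin n → ℕ), ∑ i, μ i = s → (∀ i, μ i ≤ M) → vd d μ ≤ -(W : ℤ) →
    ∃ μ' : Fin n → ℕ, (∀ i, μ' i ≤ μ i) ∧ vd d μ' ≤ -(W : ℤ) ∧ -((W : ℤ) + M) ≤ vd d μ' := by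
  intro s
  induction s with
  | zero =>
    intro μ hs _ hv
    have h0 : ∀ i, μ i = 0 := fun i =>
      (Finset.sum_eq_zero_iff.1 hs) i (Finset.mem_univ i)
    have := vd_zero_pos (d := d) h0
    exfalso
    have hW : (0 : ℤ) ≤ W := by positivity
    linarith
  | succ s ih =>
    intro μ hs hμ hv
    by_cases hge : -((W : ℤ) + M) ≤ vd d μ
    · exact ⟨μ, fun i => le_rfl, hv, hge⟩
    · have hex : ∃ i, μ i ≠ 0 := by
        by_contra hcon
        have h0 : ∀ i, μ i = 0 := fun i => by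
          by_contra hi
          exact hcon ⟨i, hi⟩
        have := vd_zero_pos (d := d) h0
        have hW : (0 : ℤ) ≤ W := by positivity
        linarith
      obtain ⟨i, hi⟩ := hex
      have hup : ∀ j, Function.update μ i (μ i - 1) j ≤ μ j := by
        intro j
        by_cases hj : j = i
        · rw [hj, Function.update_self]
          omega
        · rw [Function.update_of_ne hj]
      have hsum : ∑ j, Function.update μ i (μ i - 1) j = s := by
        have h1 : ∑ j, μ j = μ i + ∑ j ∈ Finset.univ.erase i, μ j :=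
          (Finset.add_sum_erase _ _ (Finset.mem_univ i)).symm
        have h2 : ∑ j, Function.update μ i (μ i - 1) j =
            Function.update μ i (μ i - 1) i +
              ∑ j ∈ Finset.univ.erase i, Function.update μ i (μ i - 1) j :=
          (Finset.add_sum_erase _ _ (Finset.mem_univ i)).symm
        have h3 : ∑ j ∈ Finset.univ.erase i, Function.update μ i (μ i - 1) j =
            ∑ j ∈ Finset.univ.erase i, μ j := by
          refine Finset.sum_congr rfl fun j hj => ?_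
          rw [Function.update_of_ne (Finset.ne_of_mem_erase hj)]
        rw [h2, h3, Function.update_self]
        omega
      have hv' : vd d (Function.update μ i (μ i - 1)) ≤ -(W : ℤ) := by
        rw [vd_update μ i hi]
        have h1 : (μ i : ℤ) ≤ M := by exact_mod_cast hμ i
        linarith
      obtain ⟨μ', h1, h2, h3⟩ := ih (Function.update μ i (μ i - 1)) hsum
        (fun j => (hup j).trans (hμ j)) hv'
      exact ⟨μ', fun j => (h1 j).trans (hup j), h2, h3⟩

/-- U56 (lowering the multiplicities one by one: one step changes `vd` by `μ i ≤ M`; all `μ i = 0`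
gives `vd > 0`) -/
theorem lower_u {n d M W : ℕ} {μ : Fin n → ℕ} (hμ : ∀ i, μ i ≤ M)
    (hv : vd d μ ≤ -(W : ℤ)) :
    ∃ μ' : Fin n → ℕ, (∀ i, μ' i ≤ μ i) ∧ vd d μ' ≤ -(W : ℤ) ∧ -((W : ℤ) + M) ≤ vd d μ' := by
  exact lower_aux (∑ i, μ i) μ rfl hμ hv

/-- U56 (larger multiplicities) -/
theorem emp_mul {ι : Type} {P : Finset (ℕ × ℕ)} {m m' : ι → ℕ} {J : Finset ι}
    (h : ∀ i, m i ≤ m' i) (hE : EmpQ P m J) : EmpQ P m' J := by
  obtain ⟨x, y, H⟩ := hE
  refine ⟨x, y, fun f hf hc => H f hf fun i hi a => ?_⟩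
  refine (pow_dvd_pow _ ?_).trans (hc i hi a)
  unfold Pool.Agent.Lib.MP_6b2d39_ag.colH
  refine Finset.card_le_card (Finset.filter_subset_filter _ ?_)
  exact Finset.Icc_subset_Icc le_rfl (h i)

/-- U57 (adding `k` points of multiplicity `M`) -/
theorem upper_u {n d M W : ℕ} (hM : 1 ≤ M) {μ : Fin n → ℕ} (hv : (W : ℤ) ≤ vd d μ) :
    ∃ k : ℕ, (W : ℤ) ≤ vd d (Fin.append μ (fun _ : Fin k => M)) ∧
      vd d (Fin.append μ (fun _ : Fin k => M)) ≤ W + M ^ 2 := by
  have hc : 0 < (M + 1).choose 2 := Nat.choose_pos (by omega)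
  have hcz : (0 : ℤ) < ((M + 1).choose 2 : ℤ) := by exact_mod_cast hc
  have hcM : (M + 1).choose 2 ≤ M ^ 2 := by
    have h1 : (M + 1).choose 2 = (M + 1) * M / 2 := Nat.choose_two_right (M + 1)
    rw [h1]
    have h2 : (M + 1) * M ≤ 2 * M ^ 2 := by nlinarith
    omega
  have hcMz : ((M + 1).choose 2 : ℤ) ≤ (M : ℤ) ^ 2 := by exact_mod_cast hcM
  have hvd : ∀ k : ℕ, vd d (Fin.append μ (fun _ : Fin k => M)) =
      vd d μ - k * ((M + 1).choose 2 : ℤ) := by
    intro k
    unfold vd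
    rw [Fin.sum_univ_add]
    simp only [Fin.append_left, Fin.append_right, Finset.sum_const, Finset.card_univ,
      Fintype.card_fin, nsmul_eq_mul]
    ring
  have hnn : 0 ≤ vd d μ - W := by linarith
  refine ⟨((vd d μ - W) / ((M + 1).choose 2 : ℤ)).toNat, ?_⟩
  have hq : 0 ≤ (vd d μ - W) / ((M + 1).choose 2 : ℤ) := Int.ediv_nonneg hnn hcz.le
  have hcast : ((((vd d μ - W) / ((M + 1).choose 2 : ℤ)).toNat : ℕ) : ℤ) =
      (vd d μ - W) / ((M + 1).choose 2 : ℤ) := Int.toNat_of_nonneg hq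
  rw [hvd, hcast]
  have h1 := Int.emod_add_mul_ediv (vd d μ - W) ((M + 1).choose 2 : ℤ)
  have h2 := Int.emod_nonneg (vd d μ - W) hcz.ne'
  have h3 := Int.emod_lt_of_pos (vd d μ - W) hcz
  constructor
  · nlinarith
  · nlinarith

end Pool.Agent.Lib.MP_6b2d39_agUn
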