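import Pool.Agent.Lib.MP_6b2d39_agArr.StepA

/-!
THEOREM U: one point fills a block of rows; the pending points see these rows last, in increasing
order.
-/

set_option autoImplicit false

namespace Pool.Agent.Lib.MP_6b2d39_agUn

open Pool.Agent.Lib.MP_6b2d39_agArr

variable {ι : Type} [DecidableEq ι]

/-- `cert_scale` with the loads of the points of `J` on the rows `≥ L` -/
theorem cert_scale_asc {m : ι → ℕ} {J J0 : Finset ι} (hJ : Disjoint J J0) {L L' : ℕ} (hL : L ≤ L')
    {D D' : ℕ → ℤ} (h : Cert m J L D') (E : ℕ → ℤ) (P : ι → ℤ) (hE0 : ∀ b < L, E b = 0)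
    (hE1 : ∀ b, L ≤ b → b < L' → 0 < E b)
    (hasc : ∀ b c, L ≤ b → b < c → c < L' → E b < E c)
    (hinj : ∀ j ∈ J0, ∀ b < L', ∀ c < L', E b + P j * b = E c + P j * c → b = c)
    (h1 : ∀ b < L, D b ≤ D' b + ∑ j ∈ J0, ((m j - rk L' E (P j) b : ℕ) : ℤ))
    (h2 : ∀ b, L ≤ b → b < L' → D b ≤ ∑ j ∈ J0, ((m j - rk L' E (P j) b : ℕ) : ℤ) +
      ∑ j ∈ J, ((m j - b : ℕ) : ℤ)) :
    Cert m (J ∪ J0) L' D := by
  classical
  obtain ⟨e, p, hep⟩ := h
  -- the scale
  set K : ℤ := 1 + 2 * ∑ b ∈ Finset.range L, |e b| + (∑ j ∈ J, |p j|) * L' with hK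
  have hsum0 : 0 ≤ ∑ b ∈ Finset.range L, |e b| := Finset.sum_nonneg fun b _ => abs_nonneg _
  have hsum1 : 0 ≤ (∑ j ∈ J, |p j|) * L' :=
    mul_nonneg (Finset.sum_nonneg fun b _ => abs_nonneg _) (by positivity)
  have he : ∀ b < L, |e b| ≤ ∑ b ∈ Finset.range L, |e b| := fun b hb =>
    Finset.single_le_sum (f := fun b => |e b|) (fun b _ => abs_nonneg _) (Finset.mem_range.2 hb)
  have hp : ∀ j ∈ J, |p j| ≤ ∑ j ∈ J, |p j| := fun j hj =>
    Finset.single_le_sum (f := fun j => |p j|) (fun b _ => abs_nonneg _) hj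
  set δ : ℕ → ℤ := fun b => if b < L then e b else 0 with hδ
  have hδb : ∀ b, |δ b| ≤ ∑ b ∈ Finset.range L, |e b| := by
    intro b
    simp only [hδ]
    split_ifs with hb
    · exact he b hb
    · simpa using hsum0
  refine ⟨fun b => K * E b + δ b, fun j => if j ∈ J0 then K * P j else p j, ?_⟩
  -- the ranks
  have hrk0 : ∀ j ∈ J0, ∀ b < L', rk L' (fun b => K * E b + δ b) (K * P j) b = rk L' E (P j) b := by
    intro j hj b hb
    unfold rk
    congr 1
    refine Finset.filter_congr fun c hc => ?_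
    rw [Finset.mem_range] at hc
    refine and_congr_right fun hcb => ?_
    have hne : E c + P j * c ≠ E b + P j * b := fun h => hcb (hinj j hj c hc b hb h)
    have b1 := abs_le.1 (hδb b)
    have b2 := abs_le.1 (hδb c)
    constructor
    · intro h
      by_contra hlt
      have h3 : E b + P j * b + 1 ≤ E c + P j * c := by omega
      have h4 : K * (E b + P j * b + 1) ≤ K * (E c + P j * c) :=
        mul_le_mul_of_nonneg_left h3 (by linarith)
      nlinarith
    · intro h
      have h3 : E c + P j * c + 1 ≤ E b + P j * b := by omega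
      have h4 : K * (E c + P j * c + 1) ≤ K * (E b + P j * b) :=
        mul_le_mul_of_nonneg_left h3 (by linarith)
      nlinarith
  have hpK : ∀ j ∈ J, ∀ b < L', ∀ c < L', p j * b - p j * c ≤ (∑ j ∈ J, |p j|) * L' := by
    intro j hj b hb c hc
    have h7 : (p j * b - p j * c) ≤ |p j| * |(b : ℤ) - c| := by
      rw [← abs_mul, mul_sub]
      exact le_abs_self _
    have h8 : |(b : ℤ) - c| ≤ L' := by
      rw [abs_le]; constructor <;> omega
    exact h7.trans (mul_le_mul (hp j hj) h8 (abs_nonneg _)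
      (Finset.sum_nonneg fun b _ => abs_nonneg _))
  have hrk1 : ∀ j ∈ J, ∀ b < L, rk L' (fun b => K * E b + δ b) (p j) b = rk L e (p j) b := by
    intro j hj b hb
    unfold rk
    congr 1
    ext c
    simp only [Finset.mem_filter, Finset.mem_range]
    have hδ' : δ b = e b := by simp [hδ, hb]
    constructor
    · rintro ⟨hc, hcb, hle⟩
      by_cases hcL : c < L
      · have hδc : δ c = e c := by simp [hδ, hcL]
        rw [hE0 c hcL, hE0 b hb, hδ', hδc] at hle
        exact ⟨hcL, hcb, by linarith⟩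
      · exfalso
        push Not at hcL
        have hδc : δ c = 0 := by simp [hδ, hcL]
        rw [hE0 b hb, hδ', hδc] at hle
        have h3 := hE1 c hcL hc
        have h4 : K * 1 ≤ K * E c := mul_le_mul_of_nonneg_left (by omega) (by linarith)
        have h5 := (abs_le.1 (he b hb)).2
        have h6 := hpK j hj b (hb.trans_le hL) c hc
        linarith
    · rintro ⟨hc, hcb, hle⟩
      have hδc : δ c = e c := by simp [hδ, hc]
      refine ⟨by omega, hcb, ?_⟩
      rw [hE0 c hc, hE0 b hb, hδ', hδc]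
      linarith
  have hrk2 : ∀ j ∈ J, ∀ b, L ≤ b → b < L' →
      rk L' (fun b => K * E b + δ b) (p j) b ≤ b := by
    intro j hj b hLb hb
    unfold rk
    have h3 : ((Finset.range L').filter fun c => c ≠ b ∧ (fun b => K * E b + δ b) c + p j * c ≤
        (fun b => K * E b + δ b) b + p j * b) ⊆ Finset.range b := by
      intro c hc
      rw [Finset.mem_filter, Finset.mem_range] at hc
      obtain ⟨hcL', hcb, hle⟩ := hc
      rw [Finset.mem_range]
      by_contra hcon
      push Not at hcon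
      have hbc : b < c := by omega
      have hδ1 : δ b = 0 := by simp [hδ, hLb]
      have hδ2 : δ c = 0 := by
        have : L ≤ c := by omega
        simp [hδ, this]
      simp only [hδ1, hδ2, add_zero] at hle
      have h4 := hasc b c hLb hbc hcL'
      have h5 : K * (E b + 1) ≤ K * E c := mul_le_mul_of_nonneg_left (by omega) (by linarith)
      have h6 := hpK j hj b hb c hcL'
      have h7 : K * (E b + 1) = K * E b + K := by ring
      linarith
    exact (Finset.card_le_card h3).trans (by rw [Finset.card_range])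
  intro b hb
  have hs : ∑ j ∈ J ∪ J0, ((m j - rk L' (fun b => K * E b + δ b)
      (if j ∈ J0 then K * P j else p j) b : ℕ) : ℤ) =
      ∑ j ∈ J, ((m j - rk L' (fun b => K * E b + δ b) (p j) b : ℕ) : ℤ) +
      ∑ j ∈ J0, ((m j - rk L' E (P j) b : ℕ) : ℤ) := by
    rw [Finset.sum_union hJ]
    congr 1
    · refine Finset.sum_congr rfl fun j hj => ?_
      rw [if_neg (Finset.disjoint_left.1 hJ hj)]
    · refine Finset.sum_congr rfl fun j hj => ?_
      rw [if_pos hj, hrk0 j hj b hb]
  rw [hs]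
  by_cases hbL : b < L
  · have h3 : ∑ j ∈ J, ((m j - rk L' (fun b => K * E b + δ b) (p j) b : ℕ) : ℤ) =
        ∑ j ∈ J, ((m j - rk L e (p j) b : ℕ) : ℤ) :=
      Finset.sum_congr rfl fun j hj => by rw [hrk1 j hj b hbL]
    rw [h3]
    have := h1 b hbL
    have := hep b hbL
    linarith
  · push Not at hbL
    have h3 : ∑ j ∈ J, ((m j - b : ℕ) : ℤ) ≤
        ∑ j ∈ J, ((m j - rk L' (fun b => K * E b + δ b) (p j) b : ℕ) : ℤ) := by
      refine Finset.sum_le_sum fun j hj => ?_
      have := hrk2 j hj b hbL hb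
      have h4 : m j - b ≤ m j - rk L' (fun b => K * E b + δ b) (p j) b := by omega
      exact_mod_cast h4
    have := h2 b hbL hb
    linarith

private theorem ea_lt {ρ : ℕ → ℕ} {L L' : ℕ}
    (hinc : ∀ b c, L ≤ b → b < c → c < L' → ρ b < ρ c) {b c : ℕ} (hb : L ≤ b) (hbc : b < c)
    (hc : c < L') : EA ρ L L' b < EA ρ L L' c := by
  have h := hinc b c hb hbc hc
  unfold EA
  rw [if_neg (by omega), if_neg (by omega)]
  have h1 : tA ρ L b ≤ tA ρ L c := by
    unfold tA
    apply Finset.card_le_card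
    intro x hx
    rw [Finset.mem_filter] at hx ⊢
    exact ⟨hx.1, hx.2.trans h⟩
  have h2 : cA ρ L' b ≤ cA ρ L' c := by
    unfold cA
    apply Finset.card_le_card
    intro x hx
    rw [Finset.mem_filter] at hx ⊢
    exact ⟨hx.1, hx.2.trans h⟩
  have h1' : (tA ρ L b : ℤ) ≤ tA ρ L c := by exact_mod_cast h1
  have h2' : (cA ρ L' b : ℤ) ≤ cA ρ L' c := by exact_mod_cast h2
  have h3 : (b : ℤ) + 1 ≤ c := by exact_mod_cast hbc
  have h4 : ((L' : ℤ) + 2) * ((b : ℤ) - L + tA ρ L b + 1) ≤
      ((L' : ℤ) + 2) * ((c : ℤ) - L + tA ρ L c) :=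
    mul_le_mul_of_nonneg_left (by linarith) (by positivity)
  nlinarith

/-- UN2. (`cert_stepA` with the loads of the pending points on the rows of the block) -/
theorem cert_block {m : ι → ℕ} {J : Finset ι} {j : ι} (hj : j ∉ J) {L L' : ℕ} (hL : L ≤ L')
    {D D' : ℕ → ℤ} (h : Cert m J L D') (ρ : ℕ → ℕ) (hρ : ∀ b < L', ρ b < L')
    (hinj : ∀ b < L', ∀ c < L', ρ b = ρ c → b = c)
    (hanti : ∀ b c, b < c → c < L → ρ c < ρ b)
    (hinc : ∀ b c, L ≤ b → b < c → c < L' → ρ b < ρ c)
    (h1 : ∀ b < L, D b ≤ D' b + ((m j - ρ b : ℕ) : ℤ))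
    (h2 : ∀ b, L ≤ b → b < L' → D b ≤ ((m j - ρ b : ℕ) : ℤ) + ∑ i ∈ J, ((m i - b : ℕ) : ℤ)) :
    Cert m (insert j J) L' D := by
  have key : Cert m (J ∪ {j}) L' D := by
    refine cert_scale_asc (Finset.disjoint_singleton_right.2 hj) hL h (EA ρ L L')
      (fun _ => -((L' : ℤ) + 2)) ?_ ?_ ?_ ?_ ?_ ?_
    · intro b hb
      unfold EA
      rw [if_pos hb]
    · intro b hb _
      unfold EA
      rw [if_neg (by omega)]
      have : (0 : ℤ) ≤ (b : ℤ) - L + tA ρ L b := by
        have : (L : ℤ) ≤ b := by exact_mod_cast hb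
        have h0 : (0 : ℤ) ≤ tA ρ L b := by positivity
        linarith
      have h0 : (0 : ℤ) ≤ cA ρ L' b := by positivity
      positivity
    · intro b c hb hbc hc
      exact ea_lt hinc hb hbc hc
    · intro _ _ b hb c hc hbc
      have e1 := (theta_le_iff (L := L) hinj hanti hb hc).1 hbc.le
      have e2 := (theta_le_iff (L := L) hinj hanti hc hb).1 hbc.ge
      exact hinj b hb c hc (le_antisymm e1 e2)
    · intro b hb
      rw [Finset.sum_singleton, rk_eq hρ hinj hanti (hb.trans_le hL)]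
      exact h1 b hb
    · intro b hb hb'
      rw [Finset.sum_singleton, rk_eq hρ hinj hanti hb']
      exact h2 b hb hb'
  rwa [Finset.union_comm, ← Finset.insert_eq] at key

end Pool.Agent.Lib.MP_6b2d39_agUn
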