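import Pool.Agent.Lib.MP_6b2d39_agUn.Base
import Pool.Agent.Lib.MP_6b2d39_agUn.OpB
import Pool.Agent.Lib.MP_6b2d39_agArr.StepB

set_option autoImplicit false

namespace Pool.Agent.Lib.MP_6b2d39_agUn

open Pool.Agent.Lib.MP_6b2d39_agArr

variable {ι : Type} [DecidableEq ι]

/-- U1 -/
theorem cert_mono {m : ι → ℕ} {J J' : Finset ι} (hJ : J ⊆ J') {y : ℕ} {D D' : ℕ → ℤ}
    (hD : ∀ b < y, D b ≤ D' b) (h : Cert m J y D') : Cert m J' y D := by
  obtain ⟨e, p, h⟩ := h
  refine ⟨e, p, fun b hb => (hD b hb).trans ((h b hb).trans ?_)⟩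
  exact Finset.sum_le_sum_of_subset_of_nonneg hJ fun i _ _ => by positivity

/-- U2 (OpA): `cert_block` with `L = L' = y`, `ρ b = y - 1 - b` -/
theorem op_a {m : ι → ℕ} {J : Finset ι} {i : ι} (hi : i ∈ J) {y : ℕ} {D : ℕ → ℤ}
    (h : Cert m (J.erase i) y (fun c => D c - ld ((y : ℤ) - 1 - m i) c)) : Cert m J y D := by
  have key := cert_block (Finset.notMem_erase i J) le_rfl h (fun b => y - 1 - b) (D := D)
    (fun b hb => by omega) (fun b hb c hc hbc => by omega) (fun b c hbc hc => by omega)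
    (fun b c hb hbc hc => absurd (hbc.trans hc) (by omega)) (fun b hb => by
      unfold ld
      rcases le_total ((b : ℤ) - ((y : ℤ) - 1 - m i)) 0 with h1 | h1
      · rw [max_eq_right h1]
        have : (0 : ℤ) ≤ ((m i - (y - 1 - b) : ℕ) : ℤ) := by positivity
        linarith
      · rw [max_eq_left h1]
        omega) (fun b hb hb' => absurd hb' (by omega))
  rwa [Finset.insert_erase hi] at key

/-- number of places `≤ c` -/
private def plc (N : ℕ → ℤ) (μ L y c : ℕ) : ℕ :=
  ((Finset.Ico L y).filter fun b => N b + ((b - μ : ℕ) : ℤ) ≤ c).card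

private theorem plc_le (N : ℕ → ℤ) (μ L y c : ℕ) : plc N μ L y c ≤ y - L := by
  unfold plc
  exact (Finset.card_filter_le _ _).trans (by simp)

private theorem plc_mono (N : ℕ → ℤ) (μ L y : ℕ) {c c' : ℕ} (h : c ≤ c') :
    plc N μ L y c ≤ plc N μ L y c' := by
  unfold plc
  apply Finset.card_le_card
  intro b hb
  rw [Finset.mem_filter] at hb ⊢
  refine ⟨hb.1, hb.2.trans ?_⟩
  exact_mod_cast h

private theorem blk_step {N : ℕ → ℤ} {L y : ℕ}
    (h4 : ∀ b, L ≤ b → b + 1 < y → N (b + 1) + 2 ≤ N b) (k : ℕ) :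
    ∀ b, L ≤ b → b + k < y → N (b + k) + 2 * k ≤ N b := by
  induction k with
  | zero => intro b _ _; simp
  | succ k ih =>
    intro b hb hbk
    have h1 := ih b hb (by omega)
    have h2 := h4 (b + k) (by omega) (by omega)
    rw [← add_assoc]
    push_cast
    linarith

/-- the permutation of the ranks of one point that fills the block `[L, y)` -/
private theorem blk_perm {N : ℕ → ℤ} {μ L y : ℕ} (hL : L < y)
    (h3 : ∀ b, L ≤ b → b < y → 1 ≤ N b ∧ N b ≤ min (b : ℤ) μ)
    (h4 : ∀ b, L ≤ b → b + 1 < y → N (b + 1) + 2 ≤ N b) :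
    ∃ ρ : ℕ → ℕ, (∀ b < y, ρ b < y) ∧ (∀ b < y, ∀ c < y, ρ b = ρ c → b = c) ∧
      (∀ b c, b < c → c < L → ρ c < ρ b) ∧
      (∀ b c, L ≤ b → b < c → c < y → ρ b < ρ c) ∧
      (∀ c < L, ((μ - ρ c : ℕ) : ℤ) = ld ((y : ℤ) - 1 - μ) c + plc N μ L y c) ∧
      (∀ b, L ≤ b → b < y → ((μ - ρ b : ℕ) : ℤ) = N b + ((μ - b : ℕ) : ℤ)) := by
  have hstep := blk_step h4
  obtain ⟨r, hr⟩ : ∃ r : ℕ → ℕ, ∀ b, r b = (min (b : ℤ) μ - N b).toNat := ⟨_, fun _ => rfl⟩
  have hr1 : ∀ b, L ≤ b → b < y → (r b : ℤ) = min (b : ℤ) μ - N b := by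
    intro b h1 h2
    have := h3 b h1 h2
    rw [hr]
    omega
  have hr2 : ∀ b, L ≤ b → b < y → (b : ℤ) - r b = N b + ((b - μ : ℕ) : ℤ) := by
    intro b h1 h2
    rw [hr1 b h1 h2]
    omega
  have hr3 : ∀ b c, L ≤ b → b < c → c < y → r b + (c - b) < r c + 1 := by
    intro b c h1 h2 h5
    obtain ⟨k, rfl⟩ : ∃ k, c = b + k := ⟨c - b, by omega⟩
    have e1 := hr1 b h1 (by omega)
    have e2 := hr1 (b + k) (by omega) h5
    have e3 := hstep k b h1 h5
    push_cast at e2
    omega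
  obtain ⟨V, hV⟩ : ∃ V : ℕ → ℕ, ∀ c, V c = plc N μ L y c := ⟨_, fun _ => rfl⟩
  have hVle : ∀ c, V c ≤ y - L := fun c => by rw [hV]; exact plc_le _ _ _ _ _
  have hVmono : ∀ c c', c ≤ c' → V c ≤ V c' := fun c c' h => by
    rw [hV, hV]
    exact plc_mono _ _ _ _ h
  -- the rows of the block with place `≤ c`
  have hin : ∀ c b : ℕ, L ≤ b → b < y → (b : ℤ) - r b ≤ c → y - b ≤ V c := by
    intro c b h1 h2 h5
    rw [hV]
    unfold plc
    rw [← Nat.card_Ico]
    apply Finset.card_le_card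
    intro x hx
    rw [Finset.mem_Ico] at hx
    rw [Finset.mem_filter, Finset.mem_Ico]
    refine ⟨⟨by omega, hx.2⟩, ?_⟩
    rw [← hr2 x (by omega) hx.2]
    rcases Nat.eq_or_lt_of_le hx.1 with h6 | h6
    · rw [← h6]
      exact h5
    · have := hr3 b x h1 h6 hx.2
      omega
  have hout : ∀ c b : ℕ, L ≤ b → b < y → (c : ℤ) < (b : ℤ) - r b → V c ≤ y - 1 - b := by
    intro c b h1 h2 h5
    rw [hV]
    unfold plc
    have e : y - 1 - b = (Finset.Ico (b + 1) y).card := by
      rw [Nat.card_Ico]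
      omega
    rw [e]
    apply Finset.card_le_card
    intro x hx
    rw [Finset.mem_filter, Finset.mem_Ico] at hx
    obtain ⟨⟨hx1, hx2⟩, hx3⟩ := hx
    rw [← hr2 x hx1 hx2] at hx3
    rw [Finset.mem_Ico]
    refine ⟨?_, hx2⟩
    by_contra h6
    rcases Nat.eq_or_lt_of_le (by omega : x ≤ b) with h7 | h7
    · rw [h7] at hx3
      omega
    · have := hr3 x b hx1 h7 h2
      omega
  have hsep : ∀ c b, c < L → L ≤ b → b < y → y - 1 - c - V c ≠ r b := by
    intro c b h1 h2 h5 h6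
    have h7 := hVle c
    rcases le_or_gt ((b : ℤ) - r b) c with h8 | h8
    · have h9 := hin c b h2 h5 h8
      omega
    · have h9 := hout c b h2 h5 h8
      omega
  refine ⟨fun c => if c < L then y - 1 - c - V c else r c, ?_, ?_, ?_, ?_, ?_, ?_⟩
  · intro b hb
    simp only
    split_ifs with h1
    · omega
    · have e1 := hr1 b (by omega) hb
      have e2 := h3 b (by omega) hb
      omega
  · intro b hb c hc h
    simp only at h
    split_ifs at h with h1 h2 h2
    · have e1 := hVle b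
      have e2 := hVle c
      rcases lt_trichotomy b c with h5 | h5 | h5
      · have := hVmono b c h5.le
        omega
      · exact h5
      · have := hVmono c b h5.le
        omega
    · exact absurd h (hsep b c h1 (by omega) hc)
    · exact absurd h.symm (hsep c b h2 (by omega) hb)
    · rcases lt_trichotomy b c with h5 | h5 | h5
      · have := hr3 b c (by omega) h5 hc
        omega
      · exact h5
      · have := hr3 c b (by omega) h5 hb
        omega
  · intro b c hbc hc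
    simp only
    rw [if_pos hc, if_pos (hbc.trans hc)]
    have e1 := hVle b
    have e2 := hVle c
    have := hVmono b c hbc.le
    omega
  · intro b c hb hbc hc
    simp only
    rw [if_neg (by omega), if_neg (by omega)]
    have := hr3 b c hb hbc hc
    omega
  · intro c hc
    simp only
    rw [if_pos hc, ← hV]
    have e1 := hVle c
    unfold ld
    rcases le_or_gt ((c : ℤ) - ((y : ℤ) - 1 - μ)) 0 with h1 | h1
    · have hV0 : V c = 0 := by
        rw [hV]
        unfold plc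
        rw [Finset.card_eq_zero, Finset.filter_eq_empty_iff]
        intro b hb hb'
        rw [Finset.mem_Ico] at hb
        obtain ⟨k, hk⟩ : ∃ k, y = b + k + 1 := ⟨y - 1 - b, by omega⟩
        have e2 := hstep k b hb.1 (by omega)
        have e3 := (h3 (b + k) (by omega) (by omega)).1
        have e4 : (y : ℤ) = b + k + 1 := by exact_mod_cast hk
        have e5 : (b : ℤ) - μ ≤ ((b - μ : ℕ) : ℤ) := by omega
        linarith
      rw [max_eq_right h1, hV0]
      omega
    · rw [max_eq_left h1.le]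
      omega
  · intro b hb hb'
    simp only
    rw [if_neg (by omega)]
    have e1 := hr1 b hb hb'
    have e2 := h3 b hb hb'
    omega

/-- U3 (OpB): `Z` = passive points. `ρ c = y-1-c-pl c` for `c < L`, `ρ b = min b (m j) - N b` on the
block. -/
theorem op_b {m : ι → ℕ} {J Z : Finset ι} (hJZ : Disjoint J Z) {j : ι} (hj : j ∈ J) {L y : ℕ}
    (hL : L < y) {D : ℕ → ℤ}
    (h3 : ∀ b, L ≤ b → b < y → 1 ≤ nd m J D b ∧ nd m J D b ≤ min (b : ℤ) (m j))
    (h4 : ∀ b, L ≤ b → b + 1 < y → nd m J D (b + 1) + 2 ≤ nd m J D b)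
    (h : Cert m ((J.erase j) ∪ Z) L (fun c => D c - ld ((y : ℤ) - 1 - m j) c -
      pl m (nd m J D) j L y c)) : Cert m (J ∪ Z) y D := by
  obtain ⟨ρ, hρ, hinj, hanti, hinc, hlo, hhi⟩ := blk_perm hL h3 h4
  have hjn : j ∉ (J.erase j) ∪ Z := by
    rw [Finset.mem_union, not_or]
    exact ⟨Finset.notMem_erase j J, Finset.disjoint_left.1 hJZ hj⟩
  have key := cert_block hjn hL.le h ρ (D := D) hρ hinj hanti hinc (fun b hb => by
    rw [hlo b hb]
    have e : (pl m (nd m J D) j L y b : ℤ) = plc (nd m J D) (m j) L y b := rfl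
    rw [e]
    linarith) (fun b hb hb' => by
    rw [hhi b hb hb']
    have e1 : D b = nd m J D b + (((m j - b : ℕ) : ℤ) + ∑ i ∈ J.erase j, ((m i - b : ℕ) : ℤ)) := by
      rw [Finset.add_sum_erase J (fun i => ((m i - b : ℕ) : ℤ)) hj]
      unfold nd
      ring
    have e2 : ∑ i ∈ J.erase j, ((m i - b : ℕ) : ℤ) ≤ ∑ i ∈ (J.erase j) ∪ Z, ((m i - b : ℕ) : ℤ) :=
      Finset.sum_le_sum_of_subset_of_nonneg Finset.subset_union_left fun i _ _ => by positivity
    linarith)
  rwa [← Finset.insert_union, Finset.insert_erase hj] at key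

/-- U4 (SumLoad): the sum of the residual demands does not change -/
theorem sum_b {m : ι → ℕ} {J : Finset ι} {j : ι} (hj : j ∈ J) {L y : ℕ}
    (hL : L < y) {D : ℕ → ℤ}
    (h3 : ∀ b, L ≤ b → b < y → 1 ≤ nd m J D b ∧ nd m J D b ≤ min (b : ℤ) (m j))
    (h4 : ∀ b, L ≤ b → b + 1 < y → nd m J D (b + 1) + 2 ≤ nd m J D b) :
    ∑ c ∈ Finset.range L, nd m (J.erase j) (fun c => D c - ld ((y : ℤ) - 1 - m j) c -
      pl m (nd m J D) j L y c) c = ∑ c ∈ Finset.range y, nd m J D c := by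
  obtain ⟨ρ, hρ, hinj, -, -, hlo, hhi⟩ := blk_perm hL h3 h4
  -- the ranks are a permutation
  have hperm : ∑ c ∈ Finset.range y, ((m j - ρ c : ℕ) : ℤ) =
      ∑ c ∈ Finset.range y, ((m j - c : ℕ) : ℤ) := by
    have hinj' : Set.InjOn ρ (Finset.range y : Set ℕ) := by
      intro b hb c hc h
      rw [Finset.coe_range, Set.mem_Iio] at hb hc
      exact hinj b hb c hc h
    have himg : (Finset.range y).image ρ = Finset.range y := by
      apply Finset.eq_of_subset_of_card_le
      · intro x hx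
        rw [Finset.mem_image] at hx
        obtain ⟨b, hb, rfl⟩ := hx
        exact Finset.mem_range.2 (hρ b (Finset.mem_range.1 hb))
      · rw [Finset.card_image_of_injOn hinj']
    have h1 : ∑ b ∈ Finset.range y, ((m j - ρ b : ℕ) : ℤ) =
        ∑ r ∈ (Finset.range y).image ρ, ((m j - r : ℕ) : ℤ) :=
      (Finset.sum_image (f := fun r => ((m j - r : ℕ) : ℤ)) hinj').symm
    rw [h1, himg]
  have hlow : ∀ c ∈ Finset.range L, nd m (J.erase j) (fun c => D c - ld ((y : ℤ) - 1 - m j) c -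
      pl m (nd m J D) j L y c) c = nd m J D c + (((m j - c : ℕ) : ℤ) - ((m j - ρ c : ℕ) : ℤ)) := by
    intro c hc
    rw [Finset.mem_range] at hc
    rw [hlo c hc]
    have e1 : ∑ i ∈ J, ((m i - c : ℕ) : ℤ) =
        ((m j - c : ℕ) : ℤ) + ∑ i ∈ J.erase j, ((m i - c : ℕ) : ℤ) :=
      (Finset.add_sum_erase J (fun i => ((m i - c : ℕ) : ℤ)) hj).symm
    have e : (pl m (nd m J D) j L y c : ℤ) = plc (nd m J D) (m j) L y c := rfl
    rw [← e]
    unfold nd
    rw [e1]
    ring
  rw [Finset.sum_congr rfl hlow, Finset.sum_add_distrib]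
  have hhigh : ∑ c ∈ Finset.Ico L y, nd m J D c =
      ∑ c ∈ Finset.Ico L y, (((m j - ρ c : ℕ) : ℤ) - ((m j - c : ℕ) : ℤ)) := by
    refine Finset.sum_congr rfl fun c hc => ?_
    rw [Finset.mem_Ico] at hc
    rw [hhi c hc.1 hc.2]
    ring
  rw [← Finset.sum_range_add_sum_Ico (fun c => nd m J D c) hL.le, hhigh]
  congr 1
  rw [Finset.sum_sub_distrib, Finset.sum_sub_distrib]
  have e1 := Finset.sum_range_add_sum_Ico (fun c => ((m j - ρ c : ℕ) : ℤ)) hL.le
  have e2 := Finset.sum_range_add_sum_Ico (fun c => ((m j - c : ℕ) : ℤ)) hL.le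
  linarith

/-- U5 (OpC) -/
theorem op_c {m : ι → ℕ} {J : Finset ι} {y : ℕ} {D : ℕ → ℤ} (h : Cert m J y D)
    (hD : nd m J D y ≤ 0) : Cert m J (y + 1) D := by
  have key := cert_stepB (Finset.disjoint_empty_right J) h (D := D) (fun _ => 0)
    (fun j hj => absurd hj (Finset.notMem_empty j)) (fun i _ _ => by simp) (by
      unfold nd at hD
      simp only [Finset.sum_empty, zero_add]
      linarith)
  rwa [Finset.union_empty] at key

/-- U5 (STD) -/
theorem op_std {m : ι → ℕ} {J : Finset ι} {y : ℕ} {D : ℕ → ℤ} (h : ∀ c < y, nd m J D c ≤ 0) :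
    Cert m J y D := by
  induction y with
  | zero => exact ⟨0, 0, fun b hb => absurd hb (Nat.not_lt_zero b)⟩
  | succ y ih => exact op_c (ih fun c hc => h c (hc.trans (Nat.lt_succ_self y))) (h y (Nat.lt_succ_self y))

end Pool.Agent.Lib.MP_6b2d39_agUn
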