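import Pool.Agent.Lib.MP_6b2d39_agCr.Lower

/-!
THEOREM U: a window disappears if there are enough simple points.
-/

open MvPolynomial

set_option autoImplicit false

namespace Pool.Agent.Lib.MP_6b2d39_agUn

open Pool.Agent.Lib.MP_6b2d39_agCr

private theorem es_finite {n : ℕ} (d : ℕ) (m : Fin n → ℕ) (P : Fin n → Fin 3 → ℂ) :
    Module.Finite ℂ (curves d m P) := by
  have : Module.Finite ℂ (homogeneousSubmodule (Fin 3) ℂ d) :=
    Module.Finite.iff_fg.mpr (homogeneousSubmodule_fg (Fin 3) ℂ d)
  exact Submodule.finiteDimensional_of_le (S₂ := homogeneousSubmodule (Fin 3) ℂ d) inf_le_left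

private theorem es_mem {n d : ℕ} {m : Fin n → ℕ} {P : Fin n → Fin 3 → ℂ}
    {F : MvPolynomial (Fin 3) ℂ} :
    F ∈ curves d m P ↔ F.IsHomogeneous d ∧ ∀ i, F ∈ (RingHom.ker (eval (P i))) ^ (m i) := by
  unfold curves
  rw [Submodule.mem_inf, Submodule.mem_iInf, mem_homogeneousSubmodule]
  rfl

/-- one simple point at a point where a curve of the system does not vanish -/
private theorem es_step {n : ℕ} (d : ℕ) {m m' : Fin n → ℕ} {a : Fin n} (h0 : m a = 0)
    (h1 : m' a = 1) (hne : ∀ i, i ≠ a → m' i = m i) (P : Fin n → Fin 3 → ℂ) :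
    ∃ Q : Fin 3 → ℂ, Module.finrank ℂ (curves d m' (Function.update P a Q)) ≤
      Module.finrank ℂ (curves d m P) - 1 := by
  have hfin := es_finite d m P
  have hle : ∀ Q, curves d m' (Function.update P a Q) ≤ curves d m P := by
    intro Q F hF
    rw [es_mem] at hF ⊢
    refine ⟨hF.1, fun i => ?_⟩
    rcases eq_or_ne i a with hi | hi
    · subst hi
      rw [h0, pow_zero, Ideal.one_eq_top]
      exact Submodule.mem_top
    · have := hF.2 i
      rwa [Function.update_of_ne hi, hne i hi] at this
  have hz : ∀ Q, ∀ F ∈ curves d m' (Function.update P a Q), eval Q F = 0 := by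
    intro Q F hF
    have := (es_mem.1 hF).2 a
    rwa [Function.update_self, h1, pow_one, RingHom.mem_ker] at this
  rcases Nat.eq_zero_or_pos (Module.finrank ℂ (curves d m P)) with h2 | h2
  · refine ⟨0, ?_⟩
    have := Submodule.finrank_mono (hle 0)
    omega
  · have hne' : curves d m P ≠ ⊥ := by
      intro h
      rw [h, finrank_bot] at h2
      exact absurd h2 (lt_irrefl 0)
    obtain ⟨F, hF, hF0⟩ := (Submodule.ne_bot_iff _).1 hne'
    obtain ⟨Q, hQ⟩ : ∃ Q, eval Q F ≠ 0 := by
      by_contra hcon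
      push Not at hcon
      apply hF0
      apply MvPolynomial.funext
      intro x
      rw [hcon x, map_zero]
    refine ⟨Q, ?_⟩
    have hlt : curves d m' (Function.update P a Q) < curves d m P :=
      lt_of_le_of_ne (hle Q) fun h => hQ (hz Q F (h ▸ hF))
    have := Submodule.finrank_lt_finrank_of_lt hlt
    omega

/-- many simple points -/
private theorem es_many {n : ℕ} (d : ℕ) (μ : Fin n → ℕ) (S : Finset (Fin n)) :
    (∀ i ∈ S, μ i = 1) → ∀ P : Fin n → Fin 3 → ℂ, ∃ P' : Fin n → Fin 3 → ℂ,
      Module.finrank ℂ (curves d μ P') ≤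
        Module.finrank ℂ (curves d (fun i => if i ∈ S then 0 else μ i) P) - S.card := by
  classical
  induction S using Finset.induction_on with
  | empty =>
    intro _ P
    refine ⟨P, ?_⟩
    have h : (fun i => if i ∈ (∅ : Finset (Fin n)) then 0 else μ i) = μ := by
      funext i
      simp
    rw [h, Finset.card_empty, Nat.sub_zero]
  | insert a S ha ih =>
    intro hS P
    obtain ⟨Q, hQ⟩ := es_step d (m := fun i => if i ∈ insert a S then 0 else μ i)
      (m' := fun i => if i ∈ S then 0 else μ i) (a := a) (by simp)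
      (by simp only [if_neg ha]; exact hS a (Finset.mem_insert_self a S))
      (fun i hi => by simp [Finset.mem_insert, hi]) P
    obtain ⟨P', hP'⟩ := ih (fun i hi => hS i (Finset.mem_insert_of_mem hi)) (Function.update P a Q)
    refine ⟨P', hP'.trans ?_⟩
    rw [Finset.card_insert_of_notMem ha]
    omega

/-- If all systems with multiplicities at most `M` and `|v| ≥ W` are nonspecial in degree `d`, then
every system with at least `2 W` simple points is nonspecial in degree `d`. -/
theorem exact_simple {n d M : ℕ} {W : ℝ}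
    (hU : ∀ μ : Fin n → ℕ, (∀ i, μ i ≤ M) → W ≤ |((vd d μ : ℤ) : ℝ)| →
      General (fun P => (Module.finrank ℂ (curves d μ P) : ℤ) = max (vd d μ) 0))
    {μ : Fin n → ℕ} (hμ : ∀ i, μ i ≤ M)
    (hW : 2 * W ≤ ((Finset.univ.filter fun i => μ i = 1).card : ℝ)) :
    General (fun P => (Module.finrank ℂ (curves d μ P) : ℤ) = max (vd d μ) 0) := by
  classical
  set S := Finset.univ.filter fun i => μ i = 1 with hS
  have hS1 : ∀ i, i ∈ S ↔ μ i = 1 := fun i => by simp [hS]
  set μ' : Fin n → ℕ := fun i => if i ∈ S then 0 else μ i with hμ'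
  have hle : ∀ i, μ' i ≤ M := by
    intro i
    simp only [hμ']
    split_ifs
    · exact Nat.zero_le _
    · exact hμ i
  have hvd : vd d μ' = vd d μ + S.card := by
    have h1 : ∀ i, (((μ i + 1).choose 2 : ℕ) : ℤ) =
        (((μ' i + 1).choose 2 : ℕ) : ℤ) + if i ∈ S then 1 else 0 := by
      intro i
      simp only [hμ']
      split_ifs with h
      · rw [(hS1 i).1 h]
        simp
      · simp
    have h2 : ∑ i, (((μ i + 1).choose 2 : ℕ) : ℤ) =
        ∑ i, (((μ' i + 1).choose 2 : ℕ) : ℤ) + S.card := by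
      rw [Finset.sum_congr rfl fun i _ => h1 i, Finset.sum_add_distrib]
      congr 1
      rw [Finset.sum_ite_mem, Finset.univ_inter, Finset.sum_const, nsmul_eq_mul, mul_one]
    unfold vd
    linarith
  rcases le_or_gt W |((vd d μ' : ℤ) : ℝ)| with h1 | h1
  · obtain ⟨P, hP⟩ := (hU μ' hle h1).exists
    obtain ⟨P', hP'⟩ := es_many d μ S (fun i hi => (hS1 i).1 hi) P
    apply general_nonspecial_of_le P'
    have h2 : (Module.finrank ℂ (curves d μ P') : ℤ) ≤
        ((Module.finrank ℂ (curves d μ' P) - S.card : ℕ) : ℤ) := by exact_mod_cast hP'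
    refine h2.trans ?_
    rw [hvd] at hP
    omega
  · have h2 : ((vd d μ' : ℤ) : ℝ) < W := (le_abs_self _).trans_lt h1
    have h3 : ((vd d μ' : ℤ) : ℝ) = ((vd d μ : ℤ) : ℝ) + S.card := by
      rw [hvd]
      push_cast
      ring
    apply hU μ hμ
    have h4 := neg_abs_le ((vd d μ : ℤ) : ℝ)
    linarith

end Pool.Agent.Lib.MP_6b2d39_agUn
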