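import Pool.Agent.Lib.MP_6b2d39_agUn.RowQ

set_option autoImplicit false

namespace Pool.Agent.Lib.MP_6b2d39_agUn

/-- U54: `z = rq q N 0`, `q N / 2 ≤ z ≤ q N` (`rq_z`) -/
theorem ab_of {M N q X W : ℕ} (h : Nc M N q X W) : Ab M (rq q N 0) (q ^ 2) X W := by
  have hM := h.hM
  have hq := h.hq
  have hqN := h.hqN
  have hqN' : q ≤ N := by
    have h1 : 1 * q ≤ 256 * M * q := Nat.mul_le_mul_right q (by omega)
    omega
  obtain ⟨h1, h2⟩ := rq_z hqN'
  have hpos : 0 < q * N := Nat.mul_pos (by omega) (by omega)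
  set z := rq q N 0 with hz
  refine ⟨hM, ?_, ?_, h.hX, ?_, ?_, h.hW2, ?_, h.hW4⟩
  · nlinarith
  · have h3 : q * (256 * M * q) ≤ q * N := Nat.mul_le_mul_left q hqN
    have h4 : q * (256 * M * q) = 2 * (128 * M * q ^ 2) := by ring
    omega
  · have h3 := h.hzX
    have h4 : 160 * M * X = 2 * (80 * M * X) := by ring
    omega
  · refine le_trans ?_ h.hW1
    have h3 : 2 * M ^ 2 / z ≤ 4 * M ^ 2 / (q * N) := by
      have h4 : 2 * M ^ 2 / z = 4 * M ^ 2 / (2 * z) := by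
        rw [show 4 * M ^ 2 = 2 * (2 * M ^ 2) by ring]
        exact (Nat.mul_div_mul_left _ _ (by norm_num)).symm
      rw [h4]
      exact Nat.div_le_div_left h1 hpos
    exact Nat.mul_le_mul_right _ (Nat.mul_le_mul_left _ (Nat.pow_le_pow_left (by omega) 2))
  · refine le_trans ?_ h.hW3
    exact Nat.mul_le_mul_left _ (Nat.pow_le_pow_left h2 3)

end Pool.Agent.Lib.MP_6b2d39_agUn
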