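import Pool.Agent.Lib.MP_6b2d39_agUn.ArClass
import Pool.Agent.Lib.MP_6b2d39_agUn.NumY
import Pool.Agent.Lib.MP_6b2d39_agUn.ClassNeg
import Pool.Agent.Lib.MP_6b2d39_agUn.ClassPos

set_option autoImplicit false

namespace Pool.Agent.Lib.MP_6b2d39_agUn

open Pool.Agent.Lib.MP_6b2d39_agArr

variable {ι : Type} [DecidableEq ι]

/-- the parameters of the class `(μ / 2, μ]` -/
private theorem ar_pa {M z Q X W : ℕ} (h : Ab M z Q X W) {μ y : ℕ} (h1 : 1 ≤ μ) (hμ : μ ≤ M)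
    (hy : 4 * μ ≤ y) : ∃ P : Pa, P.M = μ ∧ P.z = z ∧ P.Q = Q ∧ P.T = y ∧ P.X = X ∧
      3000 * P.w * (W + M) ≤ P.y0 ^ 3 ∧ 2 * P.y0 ^ 2 + P.y0 * (P.Vs + P.X * P.y0) ≤ W := by
  obtain ⟨y0, k1, k2, k3, k4⟩ := num_y h h1 hμ
  have hM0 : (1 : ℝ) ≤ μ := by exact_mod_cast h1
  have hμM : (μ : ℝ) ≤ M := by exact_mod_cast hμ
  have hl : Real.log (3 * μ) ≤ Real.log (3 * M) :=
    Real.log_le_log (by linarith) (by linarith)
  have hX := h.hX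
  refine ⟨⟨μ, z, Q, y, 2 * μ ^ 2 / z + 2, X, y0, h1, h.hQ, ?_, hy, rfl, by linarith, ?_, k1, k2⟩,
    rfl, rfl, rfl, rfl, rfl, k3, k4⟩
  · calc 16 * μ * Q ≤ 128 * M * Q := by gcongr; norm_num
      _ ≤ z := h.hz
  · calc 80 * μ * X ≤ 80 * M * X := by gcongr
      _ ≤ z := h.hzX

/-- U52: `ar_class` (`Z = ∅`), `num_y`, `class_neg` -/
theorem ar_neg {M z Q X W T : ℕ} (h : Ab M z Q X W) {R : ℕ → ℤ} (hR : RwA M z Q T R)
    {m : ι → ℕ} {J : Finset ι} (hm : ∀ i ∈ J, m i ≤ M) {v0 : ℤ}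
    (hs : ∑ c ∈ Finset.range T, R c = v0 + ms m J) (h1 : v0 ≤ -(W : ℤ))
    (h2 : -((W : ℤ) + M) ≤ v0) : Cert m J T R := by
  have hM0 : (1 : ℤ) ≤ M := by exact_mod_cast h.hM
  have hW0 : (0 : ℤ) ≤ W := by positivity
  have hv : |v0| ≤ W + M ^ 2 := by
    rw [abs_le]
    constructor <;> nlinarith
  obtain ⟨μ, y, J', D, hμ1, hμM, -, hJ', hy, hD0, hD1, hD2, hD3, hsum, hC⟩ :=
    ar_class h hR (Finset.disjoint_empty_right J) hm hv hs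
  rw [Finset.union_empty, Finset.union_empty] at hC
  obtain ⟨P, hPM, hPz, hPQ, hPT, hPX, k3, k4⟩ := ar_pa h hμ1 hμM hy
  have hRw : Rw P D := by
    refine ⟨by rw [hPz]; exact hD0, ?_, ?_, by rw [hPT]; exact hD3⟩
    · rw [hPM, hPQ]
      exact hD1
    · rw [hPT, hPQ]
      exact hD2
  have k3' : (3000 : ℤ) * P.w * (W + M) ≤ (P.y0 : ℤ) ^ 3 := by exact_mod_cast k3
  have k4' : 2 * (P.y0 : ℤ) ^ 2 + P.y0 * (P.Vs + P.X * P.y0) ≤ W := by exact_mod_cast k4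
  refine hC ?_
  rw [← hPT]
  refine class_neg hRw (fun i hi => ?_) (fun i hi => ?_) (v0 := v0) ?_ ?_ ?_
  · rw [hPM]
    exact (hJ' i hi).1
  · rw [hPM]
    exact (hJ' i hi).2
  · rw [hPT]
    exact hsum
  · have h3 : (0 : ℤ) ≤ 3000 * P.w := by positivity
    have h4 : 3000 * (P.w : ℤ) * (-v0) ≤ 3000 * P.w * (W + M) :=
      mul_le_mul_of_nonneg_left (by linarith) h3
    linarith
  · have h3 : (0 : ℤ) ≤ (P.y0 : ℤ) ^ 2 := by positivity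
    linarith

/-- U52: `ar_class`, `num_y`, `class_pos` -/
theorem ar_pos {M z Q X W T : ℕ} (h : Ab M z Q X W) {R : ℕ → ℤ} (hR : RwA M z Q T R)
    {m : ι → ℕ} {J Z : Finset ι} (hJZ : Disjoint J Z) (hm : ∀ i ∈ J, m i ≤ M)
    (hZ : ∀ i ∈ Z, m i = 1) (hs : ∑ c ∈ Finset.range T, R c = Z.card + ms m J)
    (h1 : W ≤ Z.card) (h2 : Z.card ≤ W + M ^ 2) : Cert m (J ∪ Z) T R := by
  have h2' : (Z.card : ℤ) ≤ W + (M : ℤ) ^ 2 := by exact_mod_cast h2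
  have hv : |(Z.card : ℤ)| ≤ W + M ^ 2 := by
    rw [abs_of_nonneg (by positivity)]
    exact h2'
  obtain ⟨μ, y, J', D, hμ1, hμM, hJJ, hJ', hy, hD0, hD1, hD2, hD3, hsum, hC⟩ :=
    ar_class h hR hJZ hm hv hs
  obtain ⟨P, hPM, hPz, hPQ, hPT, hPX, k3, k4⟩ := ar_pa h hμ1 hμM hy
  have hRw : Rw P D := by
    refine ⟨by rw [hPz]; exact hD0, ?_, ?_, by rw [hPT]; exact hD3⟩
    · rw [hPM, hPQ]
      exact hD1
    · rw [hPT, hPQ]
      exact hD2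
  have k4' : 2 * (P.y0 : ℤ) ^ 2 + P.y0 * (P.Vs + P.X * P.y0) ≤ W := by exact_mod_cast k4
  have h1' : (W : ℤ) ≤ Z.card := by exact_mod_cast h1
  refine hC ?_
  rw [← hPT]
  refine class_pos hRw (Finset.disjoint_of_subset_left hJJ hJZ) (fun i hi => ?_)
    (fun i hi => ?_) hZ ?_ (by linarith)
  · rw [hPM]
    exact (hJ' i hi).1
  · rw [hPM]
    exact (hJ' i hi).2
  · rw [hPT]
    exact hsum

end Pool.Agent.Lib.MP_6b2d39_agUn
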