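import Mathlib

/-!
THEOREM U: one step of the potential `V c + κ c V (y - 1) / y`.
-/

set_option autoImplicit false

namespace Pool.Agent.Lib.MP_6b2d39_agUn

/-- the harmonic sum over `[y, n)` -/
noncomputable def hs (n y : ℕ) : ℝ := ∑ b ∈ Finset.Ico y n, (1 : ℝ) / (b + 1)

theorem hs_nonneg (n y : ℕ) : 0 ≤ hs n y :=
  Finset.sum_nonneg fun b _ => by positivity

theorem hs_zero {n y : ℕ} (h : n ≤ y) : hs n y = 0 := by
  unfold hs
  rw [Finset.Ico_eq_empty_of_le h, Finset.sum_empty]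

theorem hs_step {n y L : ℕ} (hLy : L ≤ y) (hy : y ≤ n) :
    hs n y + ((y : ℝ) - L) / y ≤ hs n L := by
  unfold hs
  rw [← Finset.sum_Ico_consecutive _ hLy hy]
  have h1 : ∑ b ∈ Finset.Ico L y, (1 : ℝ) / y ≤ ∑ b ∈ Finset.Ico L y, (1 : ℝ) / (b + 1) := by
    refine Finset.sum_le_sum fun b hb => ?_
    rw [Finset.mem_Ico] at hb
    have h2 : (b : ℝ) + 1 ≤ y := by exact_mod_cast hb.2
    exact one_div_le_one_div_of_le (by positivity) h2
  rw [Finset.sum_const, Nat.card_Ico, nsmul_eq_mul, Nat.cast_sub hLy, mul_one_div] at h1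
  linarith

theorem hs_le_log {n y : ℕ} (hy : 1 ≤ y) (hn : y ≤ n) : hs n y ≤ Real.log ((n : ℝ) / y) := by
  have key : ∀ k, hs (y + k) y ≤ Real.log (((y + k : ℕ) : ℝ) / y) := by
    intro k
    have hy0 : (0 : ℝ) < y := by exact_mod_cast hy
    induction k with
    | zero =>
      rw [add_zero, hs_zero le_rfl, div_self hy0.ne', Real.log_one]
    | succ k ih =>
      unfold hs at ih ⊢
      rw [show y + (k + 1) = y + k + 1 by omega, Finset.sum_Ico_succ_top (by omega)]
      have h0 : (0 : ℝ) < ((y + k : ℕ) : ℝ) := by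
        have : 0 < y + k := by omega
        exact_mod_cast this
      have h1 : (1 : ℝ) / (((y + k : ℕ) : ℝ) + 1) ≤
          Real.log ((((y + k : ℕ) : ℝ) + 1) / ((y + k : ℕ) : ℝ)) := by
        have h2 := Real.one_sub_inv_le_log_of_pos
          (show 0 < (((y + k : ℕ) : ℝ) + 1) / ((y + k : ℕ) : ℝ) by positivity)
        have h3 : 1 - ((((y + k : ℕ) : ℝ) + 1) / ((y + k : ℕ) : ℝ))⁻¹ =
            1 / (((y + k : ℕ) : ℝ) + 1) := by
          field_simp
          ring
        linarith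
      have h4 : Real.log (((y + k + 1 : ℕ) : ℝ) / y) = Real.log (((y + k : ℕ) : ℝ) / y) +
          Real.log ((((y + k : ℕ) : ℝ) + 1) / ((y + k : ℕ) : ℝ)) := by
        rw [← Real.log_mul (by positivity) (by positivity)]
        congr 1
        push_cast
        field_simp
      rw [h4]
      linarith
  have h1 := key (n - y)
  rwa [show y + (n - y) = n by omega] at h1

/-- UN (psi_step). One step of (I8): `V c + κ c V (y-1) / y` under a block `[L, y)` with
`l = y - L ≤ y / 3` rows. `δ` is `1` if the new kink is below `c` and `0` otherwise. -/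
theorem psi_step {κ X Bs y L c Vc Vy Vc' VL' W n δ H H' : ℝ} (hL : 0 < L) (hLy : L ≤ y)
    (h3 : 2 * y ≤ 3 * L) (hc : 0 ≤ c) (hκ : 0 ≤ κ) (hκX : κ + κ * X ≤ 2 / 3)
    (hold : Vc + κ * c * Vy / y ≤ n + 13 * c * H + κ * Bs * c / y + 2 * κ * c)
    (hVc : Vc' ≤ Vc + δ + 8 * c * (y - L) / L + κ * c / L * W)
    (hVL : VL' ≤ Vy - W + (y - L)) (hVy : Vy ≤ Bs + X * y)
    (hH : H + (y - L) / y ≤ H') :
    Vc' + κ * c * VL' / L ≤ n + δ + 13 * c * H' + κ * Bs * c / L + 2 * κ * c := by
  have hy : 0 < y := by linarith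
  set l := y - L with hl
  have hl0 : 0 ≤ l := by linarith
  have e1 : κ * c * VL' / L ≤ κ * c * (Vy - W + l) / L := by
    apply div_le_div_of_nonneg_right _ hL.le
    exact mul_le_mul_of_nonneg_left hVL (mul_nonneg hκ hc)
  have e2 : κ * c * (Vy - W + l) / L = κ * c * Vy / L - κ * c / L * W + κ * c * (l / L) := by
    field_simp
  have e3 : κ * c * Vy / L = κ * c * Vy / y + κ * c * Vy * (l / (L * y)) := by
    rw [hl]
    field_simp
    ring
  have e4 : κ * c * Vy * (l / (L * y)) ≤ κ * c * (Bs + X * y) * (l / (L * y)) := by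
    apply mul_le_mul_of_nonneg_right _ (by positivity)
    exact mul_le_mul_of_nonneg_left hVy (mul_nonneg hκ hc)
  have e5 : κ * c * (Bs + X * y) * (l / (L * y)) =
      κ * Bs * c / L - κ * Bs * c / y + κ * X * c * (l / L) := by
    rw [hl]
    field_simp
  have e6 : 8 * c * l / L = 8 * c * (l / L) := by ring
  have e7 : l / L * (2 / 3) ≤ l / y := by
    rw [div_mul_eq_mul_div, div_le_div_iff₀ hL hy]
    have : l * (2 / 3) * y = l * (2 * y / 3) := by ring
    rw [this]
    exact mul_le_mul_of_nonneg_left (by linarith) hl0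
  have e8 : 13 * c * H + 13 * c * (l / y) ≤ 13 * c * H' := by
    have : 13 * c * (H + l / y) ≤ 13 * c * H' := mul_le_mul_of_nonneg_left hH (by linarith)
    linarith
  have e9 : (8 + κ + κ * X) * (c * (l / L)) ≤ 13 * c * (l / y) := by
    have h1 : c * (l / L * (2 / 3)) ≤ c * (l / y) := mul_le_mul_of_nonneg_left e7 hc
    have h2 : 0 ≤ c * (l / L) := mul_nonneg hc (by positivity)
    have h4 : (8 + κ + κ * X) * (c * (l / L)) ≤ (26 / 3) * (c * (l / L)) :=
      mul_le_mul_of_nonneg_right (by linarith) h2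
    linarith
  have e10 : (8 + κ + κ * X) * (c * (l / L)) =
      8 * c * (l / L) + κ * c * (l / L) + κ * X * c * (l / L) := by ring
  linarith

end Pool.Agent.Lib.MP_6b2d39_agUn
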