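import Pool.Agent.Lib.MP_6b2d39_agArr.Defs
import Pool.Agent.Lib.MP_6b2d39_agUn.PsiStep

/-!
THEOREM U, class theorem: definitions.

`m` = multiplicities, `J` = pending points, rows `0, ..., y - 1` with demands `D`.
-/

set_option autoImplicit false

namespace Pool.Agent.Lib.MP_6b2d39_agUn

open Pool.Agent.Lib.MP_6b2d39_agArr

variable {ι : Type} [DecidableEq ι]

/-- demand of the row `c` minus the loads of the pending points that see the row `c` at place `c` -/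
def nd (m : ι → ℕ) (J : Finset ι) (D : ℕ → ℤ) (c : ℕ) : ℤ := D c - ∑ i ∈ J, ((m i - c : ℕ) : ℤ)

/-- load of the kink `t` on the row `c` -/
def ld (t : ℤ) (c : ℕ) : ℤ := max ((c : ℤ) - t) 0

/-- load of all kinks on the row `c` -/
def lds (K : List ℤ) (c : ℕ) : ℤ := (K.map fun t => ld t c).sum

/-- number of kinks `< s` -/
def nk (K : List ℤ) (s : ℤ) : ℕ := K.countP fun t => t < s

/-- slope of the profile without the places -/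
def sl (R : ℕ → ℤ) (m : ι → ℕ) (J : Finset ι) (K : List ℤ) (c : ℕ) : ℤ :=
  R c - R (c + 1) + (nk K ((c : ℤ) + 1) : ℤ) - ((J.filter fun i => c < m i).card : ℤ)

/-- number of rows of the block `[L, y)` whose place for the point `j` is `≤ c` -/
def pl (m : ι → ℕ) (N : ℕ → ℤ) (j : ι) (L y : ℕ) (c : ℕ) : ℕ :=
  ((Finset.Ico L y).filter fun b => N b + ((b - m j : ℕ) : ℤ) ≤ c).card

/-- parameters: all multiplicities of the class are in `(M / 2, M]`, `z` = first row, `Q` = slope -/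
structure Pa where
  M : ℕ
  z : ℕ
  Q : ℕ
  T : ℕ
  w : ℕ
  X : ℕ
  y0 : ℕ
  hM : 1 ≤ M
  hQ : 8 ≤ Q
  hz : 16 * M * Q ≤ z
  hT : 4 * M ≤ T
  hw : w = 2 * M ^ 2 / z + 2
  hX : 13 * Real.log (3 * M) + 16 ≤ X
  hzX : 80 * M * X ≤ z
  hy1 : 120000 * w * X ≤ y0
  hy2 : 10000 * w * min M (11 * z / M + 2) ≤ y0 ^ 2

/-- bound for the number of kinks, and its minimum with `M` -/
def Pa.Bs (P : Pa) : ℕ := 11 * P.z / P.M + 2

def Pa.Vs (P : Pa) : ℕ := min P.M P.Bs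

/-- `3 / Γ`, `Γ = 40 X` -/
noncomputable def Pa.ka (P : Pa) : ℝ := 3 / (40 * P.X)

/-- the rows -/
structure Rw (P : Pa) (R : ℕ → ℤ) : Prop where
  r0 : R 0 = P.z
  r1 : ∀ c < 3 * P.M, R c - R (c + 1) = P.Q
  r2 : ∀ c, c + 1 < P.T → (P.Q : ℤ) ≤ 2 * (R c - R (c + 1))
  r3 : 1 ≤ R (P.T - 1)

/-- the state: rows `< y`, pending points `J`, kinks `K`, places `V` -/
structure St (P : Pa) (R : ℕ → ℤ) (m : ι → ℕ) (v0 : ℤ) (J : Finset ι) (y : ℕ) (D : ℕ → ℤ)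
    (K : List ℤ) (V : ℕ → ℤ) : Prop where
  hy : 1 ≤ y
  hyT : y ≤ P.T
  hm1 : ∀ i ∈ J, m i ≤ P.M
  hm2 : ∀ i ∈ J, P.M < 2 * m i
  i1 : ∀ c < y, D c = R c - lds K c - V c
  i2 : ∀ t ∈ K, (y : ℤ) - 1 - P.M ≤ t
  i3a : ∀ c < y, 0 ≤ V c
  i3b : ∀ c, c + 1 < y → V c ≤ V (c + 1)
  i3c : ∀ c < y, V c ≤ max ((c : ℤ) + P.M + 1 - y) 0
  i4 : 1 ≤ nd m J D (y - 1)
  i5 : ∑ c ∈ Finset.range y, nd m J D c = v0
  i6 : ∀ i ∈ J, ∀ s : ℤ, (P.w : ℤ) ≤ s → s ≤ P.M → (y : ℤ) - 1 - m i < s →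
    ∃ t ∈ K, s ≤ t ∧ t < s + P.w
  i7 : ∀ c : ℕ, 16 * c ≤ P.M →
    P.M * nk K c ≤ 6 * P.z + P.M + P.M * (K.countP fun t => 4 * t ≤ -(P.M : ℤ))
  i8 : y ≤ 3 * P.M → ∀ c : ℕ, 16 * c ≤ P.M → c < y →
    (V c : ℝ) + P.ka * c * V (y - 1) / y ≤
      nk K c + 13 * c * hs (3 * P.M) y + P.ka * P.Bs * c / y + 2 * P.ka * c

/-- the block `[L, y)` filled by the largest pending point `j` -/
structure Blk (P : Pa) (R : ℕ → ℤ) (m : ι → ℕ) (J : Finset ι) (y : ℕ) (D : ℕ → ℤ)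
    (K : List ℤ) (j : ι) (L : ℕ) : Prop where
  hj : j ∈ J
  hmax : ∀ i ∈ J, m i ≤ m j
  b0 : 1 ≤ L
  b1 : L < y
  b2 : 2 * y ≤ 3 * L
  b3 : ∀ b, L ≤ b → b < y → 1 ≤ nd m J D b ∧ nd m J D b ≤ min (b : ℤ) (m j)
  b4 : ∀ b, L ≤ b → b + 1 < y → nd m J D (b + 1) + 2 ≤ nd m J D b
  b5 : min ((L : ℤ) - 1) (m j) < nd m J D (L - 1)
  b6 : 3 * P.M < y → 4 * (y - L) ≤ P.M + 4
  b7 : y ≤ 3 * P.M → ∀ b, L ≤ b + 1 → b + 1 < y → (40 * P.X : ℤ) ≤ sl R m J K b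

end Pool.Agent.Lib.MP_6b2d39_agUn
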