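import Pool.Agent.Lib.MP_6b2d39_agUn.Base
import Pool.Agent.Lib.MP_6b2d39_agUn.Early

set_option autoImplicit false

namespace Pool.Agent.Lib.MP_6b2d39_agUn

/-- numbers for the abstract rows: `M` bounds the multiplicities, `z` = first row, `Q` = slope -/
structure Ab (M z Q X W : ℕ) : Prop where
  hM : 1 ≤ M
  hQ : 8 ≤ Q
  hz : 128 * M * Q ≤ z
  hX : 13 * Real.log (3 * M) + 16 ≤ X
  hzX : 80 * M * X ≤ z
  hW1 : 10 ^ 14 * (2 * M ^ 2 / z + 2) ^ 2 * X ^ 3 ≤ W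
  hW2 : 10 ^ 8 * M * X ≤ W
  hW3 : 10 ^ 21 * z ^ 3 ≤ W ^ 4
  hW4 : W ≤ 7 * M ^ 2

/-- abstract rows -/
structure RwA (M z Q T : ℕ) (R : ℕ → ℤ) : Prop where
  a0 : R 0 = z
  a1 : ∀ c < 3 * M, R c - R (c + 1) = Q
  a2 : ∀ c, c + 1 < T → (Q : ℤ) ≤ 2 * (R c - R (c + 1))
  a3 : 1 ≤ R (T - 1)
  a4 : 1 ≤ T
  a5 : 32 * M * z ≤ ∑ c ∈ Finset.range T, R c

/-- numbers for the triangle of side `N` and the step `y = x ^ q` -/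
structure Nc (M N q X W : ℕ) : Prop where
  hM : 1 ≤ M
  hq : 3 ≤ q
  hqN : 256 * M * q ≤ N
  hX : 13 * Real.log (3 * M) + 16 ≤ X
  hzX : 160 * M * X ≤ q * N
  hW1 : 10 ^ 14 * (4 * M ^ 2 / (q * N) + 2) ^ 2 * X ^ 3 ≤ W
  hW2 : 10 ^ 8 * M * X ≤ W
  hW3 : 10 ^ 21 * (q * N) ^ 3 ≤ W ^ 4
  hW4 : W ≤ 7 * M ^ 2

/-- the rows after the step `y = x ^ q` (see `stp_tri`) -/
def rq (q N b : ℕ) : ℕ := ∑ i ∈ Finset.range q, (N - (q * b + i))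

end Pool.Agent.Lib.MP_6b2d39_agUn
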