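import Mathlib

/-!
THEOREM U: existence of the next block.
-/

set_option autoImplicit false

namespace Pool.Agent.Lib.MP_6b2d39_agUn

/-- UN (blockEx). The block `[L, y)`: the rows from `y - 1` downwards as long as `N b ≤ a b`. -/
theorem block_ex {y Lm : ℕ} {Γ A : ℤ} {N a : ℕ → ℤ} (hLm : 1 ≤ Lm) (hLmy : Lm < y)
    (hK : ∀ L, Lm ≤ L + 1 → L + 1 < y → (∀ b, L < b → b < y → N b ≤ a b) →
      N (L + 1) + Γ ≤ N L)
    (ha : ∀ b, b < y → a b ≤ A) (hΓ : A ≤ Γ * ((y : ℤ) - Lm))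
    (h1 : 1 ≤ N (y - 1)) (h2 : N (y - 1) ≤ a (y - 1)) :
    ∃ L, Lm ≤ L ∧ L < y ∧ (∀ b, L ≤ b → b < y → N b ≤ a b) ∧ a (L - 1) < N (L - 1) ∧
      ∀ b, L ≤ b + 1 → b + 1 < y → N (b + 1) + Γ ≤ N b := by
  classical
  have hex : ∃ L, Lm ≤ L ∧ L < y ∧ ∀ b, L ≤ b → b < y → N b ≤ a b := by
    refine ⟨y - 1, by omega, by omega, fun b hb hb' => ?_⟩
    have : b = y - 1 := by omega
    rw [this]
    exact h2
  obtain ⟨hL1, hL2, hL3⟩ := Nat.find_spec hex
  have hmin := fun m => Nat.find_min (H := hex) (m := m)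
  set L := Nat.find hex with hLdef
  have hsl : ∀ b, L ≤ b + 1 → b + 1 < y → N (b + 1) + Γ ≤ N b := fun b hb hb' =>
    hK b (by omega) hb' fun x hx hx' => hL3 x (by omega) hx'
  have htel : ∀ k a, L ≤ a + 1 → a + k < y → N (a + k) + Γ * k ≤ N a := by
    intro k
    induction k with
    | zero => intro a _ _; simp
    | succ k ih =>
      intro a ha hk
      have h3 := ih a ha (by omega)
      have h4 := hsl (a + k) (by omega) (by omega)
      rw [show a + (k + 1) = a + k + 1 by omega]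
      push_cast
      linarith
  refine ⟨L, hL1, hL2, hL3, ?_, hsl⟩
  by_cases hLL : L = Lm
  · have h3 := htel (y - L) (L - 1) (by omega) (by omega)
    rw [show L - 1 + (y - L) = y - 1 by omega] at h3
    have h4 := ha (L - 1) (by omega)
    have h5 : ((y - L : ℕ) : ℤ) = (y : ℤ) - Lm := by
      rw [Nat.cast_sub hL2.le, hLL]
    rw [h5] at h3
    linarith
  · by_contra hcon
    push Not at hcon
    refine hmin (L - 1) (by omega) ⟨by omega, by omega, fun b hb hb' => ?_⟩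
    by_cases hbL : b = L - 1
    · rw [hbL]; exact hcon
    · exact hL3 b (by omega) hb'

end Pool.Agent.Lib.MP_6b2d39_agUn
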