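import Pool.Agent.Lib.MP_6b2d39_agUn.Prof
import Pool.Agent.Lib.MP_6b2d39_agUn.RwL
import Pool.Agent.Lib.MP_6b2d39_agUn.BlockEx

set_option autoImplicit false

namespace Pool.Agent.Lib.MP_6b2d39_agUn

open Pool.Agent.Lib.MP_6b2d39_agArr

variable {ι : Type} [DecidableEq ι]

private theorem bh_one {N : ℕ → ℤ} {y L : ℕ} (h1 : 1 ≤ N (y - 1))
    (hs : ∀ b, L ≤ b → b + 1 < y → N (b + 1) ≤ N b) : ∀ b, L ≤ b → b < y → 1 ≤ N b := by
  have key : ∀ k b, L ≤ b → b + k + 1 = y → 1 ≤ N b := by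
    intro k
    induction k with
    | zero =>
      intro b _ hb'
      have : b = y - 1 := by omega
      rw [this]
      exact h1
    | succ k ih =>
      intro b hb hb'
      exact (ih (b + 1) (by omega) (by omega)).trans (hs b hb (by omega))
  intro b hb hb'
  exact key (y - 1 - b) b hb (by omega)

/-- U15. `y > 3 M`: for `c ≥ M` there is no pending load, `N c - N (c+1) ≥ D c - D (c+1) ≥ Q / 2 ≥ 4`
(`i1`, `r2`, kinks and `V` increase); the rows `b` going down from `y - 1` with `N b ≤ M`: at most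
`M / 4 + 1` (`block_ex` with `Γ = 4`). -/
theorem blk_hi {P : Pa} {R : ℕ → ℤ} (hR : Rw P R) {m : ι → ℕ} {v0 : ℤ} {J : Finset ι} {y : ℕ}
    {D : ℕ → ℤ} {K : List ℤ} {V : ℕ → ℤ} (h : St P R m v0 J y D K V)
    (hy : 3 * P.M < y) {j : ι} (hj : j ∈ J) (hmax : ∀ i ∈ J, m i ≤ m j)
    (hN : nd m J D (y - 1) ≤ min ((y : ℤ) - 1) (m j)) : ∃ L, Blk P R m J y D K j L := by
  have hM := P.hM
  have hQ := P.hQ
  have hQ' : (8 : ℤ) ≤ P.Q := by exact_mod_cast hQ
  have hyT := h.hyT
  obtain ⟨L, hL1, hL2, hL3, hL4, hL5⟩ := block_ex (y := y) (Lm := y - (P.M / 4 + 1))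
    (Γ := 4) (A := P.M) (N := nd m J D) (a := fun b => min (b : ℤ) (m j)) (by omega) (by omega)
    (fun L hL1 hL2 hL3 => by
      have h2 := prof (m := m) (J := J) h.i1 (c := L) hL2
      have h3 := h.i3b L hL2
      have h4 := hR.r2 L (by omega)
      have h5 : (J.filter fun i => L < m i) = ∅ := by
        rw [Finset.filter_eq_empty_iff]
        intro i hi
        have := h.hm1 i hi
        omega
      have h6 : R L - R (L + 1) ≤ sl R m J K L := by
        unfold sl
        rw [h5, Finset.card_empty]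
        have : (0 : ℤ) ≤ (nk K ((L : ℤ) + 1) : ℤ) := by positivity
        push_cast
        linarith
      have h7 : (4 : ℤ) ≤ R L - R (L + 1) := by omega
      linarith)
    (fun b _ => (min_le_right _ _).trans (by exact_mod_cast h.hm1 j hj))
    (by omega)
    h.i4 (by
      have h1 : ((y - 1 : ℕ) : ℤ) = (y : ℤ) - 1 := by omega
      simp only [h1]
      exact hN)
  refine ⟨L, ⟨hj, hmax, by omega, hL2, by omega, fun b hb hb' => ⟨?_, hL3 b hb hb'⟩,
    fun b hb hb' => ?_, ?_, fun _ => by omega, fun h1 => by omega⟩⟩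
  · exact bh_one h.i4 (fun b hb hb' => by
      have := hL5 b (by omega) hb'
      linarith) b hb hb'
  · have := hL5 b (by omega) hb'
    linarith
  · have h1 : ((L - 1 : ℕ) : ℤ) = (L : ℤ) - 1 := by omega
    simp only [h1] at hL4
    exact hL4

end Pool.Agent.Lib.MP_6b2d39_agUn
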