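import Pool.Agent.Lib.MP_6b2d39_agUn.LemK
import Pool.Agent.Lib.MP_6b2d39_agUn.BlockEx

set_option autoImplicit false

namespace Pool.Agent.Lib.MP_6b2d39_agUn

open Pool.Agent.Lib.MP_6b2d39_agArr

variable {ι : Type} [DecidableEq ι]

private theorem bl_X (P : Pa) : 16 ≤ P.X := by
  have h1 : (1 : ℝ) ≤ 3 * P.M := by
    have : (1 : ℝ) ≤ P.M := by exact_mod_cast P.hM
    linarith
  have h2 := Real.log_nonneg h1
  have h3 := P.hX
  have h4 : (16 : ℝ) ≤ P.X := by linarith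
  exact_mod_cast h4

private theorem bl_one {N : ℕ → ℤ} {y L : ℕ} (h1 : 1 ≤ N (y - 1))
    (hs : ∀ b, L ≤ b → b + 1 < y → N (b + 1) ≤ N b) : ∀ b, L ≤ b → b < y → 1 ≤ N b := by
  have key : ∀ k b, L ≤ b → b + k + 1 = y → 1 ≤ N b := by
    intro k
    induction k with
    | zero =>
      intro b _ hb'
      have : b = y - 1 := by omega
      rw [this]
      exact h1
    | succ k ih =>
      intro b hb hb'
      exact (ih (b + 1) (by omega) (by omega)).trans (hs b hb (by omega))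
  intro b hb hb'
  exact key (y - 1 - b) b hb (by omega)

/-- U16. `y0 ≤ y ≤ 3 M`: `block_ex` with `Γ = 40 X`, `Lm = ⌈2 y / 3⌉`, `lem_k`, `prof`. -/
theorem blk_lo {P : Pa} {R : ℕ → ℤ} (hR : Rw P R) {m : ι → ℕ} {v0 : ℤ} {J : Finset ι} {y : ℕ}
    {D : ℕ → ℤ} {K : List ℤ} {V : ℕ → ℤ} (h : St P R m v0 J y D K V)
    (hv : -(3000 * P.w * v0) ≤ (P.y0 : ℤ) ^ 3) (hy0 : P.y0 ≤ y)
    (hy : y ≤ 3 * P.M) {j : ι} (hj : j ∈ J) (hmax : ∀ i ∈ J, m i ≤ m j)
    (hN : nd m J D (y - 1) ≤ min ((y : ℤ) - 1) (m j)) : ∃ L, Blk P R m J y D K j L := by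
  have hX := bl_X P
  have hM := P.hM
  have hX' : (16 : ℤ) ≤ P.X := by exact_mod_cast hX
  have hw : 2 ≤ P.w := by rw [P.hw]; exact Nat.le_add_left 2 _
  have hwX : 32 ≤ P.w * P.X := by nlinarith
  have hy1 := P.hy1
  have hyb : 120000 * (P.w * P.X) ≤ y := by
    have : 120000 * P.w * P.X = 120000 * (P.w * P.X) := by ring
    omega
  have hKK : ∀ L, (2 * y + 2) / 3 ≤ L + 1 → L + 1 < y →
      (∀ b, L < b → b < y → nd m J D b ≤ min (b : ℤ) (m j)) → (40 * P.X : ℤ) ≤ sl R m J K L :=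
    fun L hL1 hL2 hL3 => lem_k hR h hv hy0 hy hj hmax (by omega) (by omega) hL3
  obtain ⟨L, hL1, hL2, hL3, hL4, hL5⟩ := block_ex (y := y) (Lm := (2 * y + 2) / 3)
    (Γ := 40 * P.X) (A := y) (N := nd m J D) (a := fun b => min (b : ℤ) (m j)) (by omega) (by omega)
    (fun L hL1 hL2 hL3 => by
      have h1 := hKK L hL1 hL2 hL3
      have h2 := prof (m := m) (J := J) h.i1 (c := L) hL2
      have h3 := h.i3b L hL2
      linarith)
    (fun b hb => (min_le_left _ _).trans (by exact_mod_cast hb.le))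
    (by
      have h1 : (y : ℤ) ≤ 640 * ((y : ℤ) - ((2 * y + 2) / 3 : ℕ)) := by omega
      have h2 : 640 * ((y : ℤ) - ((2 * y + 2) / 3 : ℕ)) ≤
          40 * P.X * ((y : ℤ) - ((2 * y + 2) / 3 : ℕ)) :=
        mul_le_mul_of_nonneg_right (by linarith) (by omega)
      linarith)
    h.i4 (by
      have h1 : ((y - 1 : ℕ) : ℤ) = (y : ℤ) - 1 := by omega
      simp only [h1]
      exact hN)
  have hL0 : 1 ≤ L := by omega
  have hsl : ∀ b, L ≤ b + 1 → b + 1 < y → (40 * P.X : ℤ) ≤ sl R m J K b := fun b hb hb' =>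
    hKK b (by omega) hb' fun x hx hx' => hL3 x (by omega) hx'
  refine ⟨L, ⟨hj, hmax, hL0, hL2, by omega, fun b hb hb' => ⟨?_, hL3 b hb hb'⟩,
    fun b hb hb' => ?_, ?_, fun h1 => by omega, fun _ => hsl⟩⟩
  · exact bl_one h.i4 (fun b hb hb' => by
      have := hL5 b (by omega) hb'
      linarith) b hb hb'
  · have := hL5 b (by omega) hb'
    linarith
  · have h1 : ((L - 1 : ℕ) : ℤ) = (L : ℤ) - 1 := by omega
    simp only [h1] at hL4
    exact hL4

end Pool.Agent.Lib.MP_6b2d39_agUn
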