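import Pool.Agent.Lib.MP_6b2d39_agUn.CorU
import Pool.Agent.Lib.MP_6b2d39_agUn.DegMono

set_option autoImplicit false

namespace Pool.Agent.Lib.MP_6b2d39_agUn

open Pool.Agent.Lib.MP_6b2d39_agArr Pool.Agent.Lib.MP_6b2d39_agNw Pool.Agent.Lib.MP_6b2d39_agHl
  Pool.Agent.Lib.MP_6b2d39_agCr

private theorem vd_le {n d e : ℕ} (h : d ≤ e) (μ : Fin n → ℕ) : vd d μ ≤ vd e μ := by
  unfold vd
  have h1 : (d + 2).choose 2 ≤ (e + 2).choose 2 := Nat.choose_le_choose 2 (by omega)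
  have h2 : (((d + 2).choose 2 : ℕ) : ℤ) ≤ (((e + 2).choose 2 : ℕ) : ℤ) := by exact_mod_cast h1
  linarith

private theorem two_vd {n e : ℕ} (μ : Fin n → ℕ) :
    2 * ((vd e μ : ℤ) : ℝ) ≤ ((e : ℝ) + 2) ^ 2 - ((∑ i, μ i ^ 2 : ℕ) : ℝ) := by
  unfold vd
  push_cast
  rw [Nat.cast_choose_two]
  have h1 : ∀ i : Fin n, ((μ i : ℝ) ^ 2) ≤ 2 * (((μ i + 1).choose 2 : ℕ) : ℝ) := by
    intro i
    rw [Nat.cast_choose_two]
    push_cast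
    have h0 : (0 : ℝ) ≤ μ i := Nat.cast_nonneg _
    nlinarith
  have h2 : ∑ i, ((μ i : ℝ) ^ 2) ≤ 2 * ∑ i, (((μ i + 1).choose 2 : ℕ) : ℝ) := by
    rw [Finset.mul_sum]
    exact Finset.sum_le_sum fun i _ => h1 i
  push_cast
  have h0 : (0 : ℝ) ≤ e := Nat.cast_nonneg _
  nlinarith

/-- U71 (all degrees but one). With the constants `C0` of `cor_u`, `C1` of `main_u`, `ℓ = log (M + 2)`,
`e = ⌈C0 M^(6/5) ℓ⌉`: for `d ≥ e` use `cor_u`. For `d < e`: `2 vd e μ ≤ (e + 2)^2 - ∑ μ i ^ 2`, so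
`vd e μ ≤ - C1 (M^(9/8) + M^6/(e+1)^4) ℓ^3` if the constant is large (`M^(9/8) ℓ ≤ c M^(12/5)`,
`M^6/(e+1)^4 ≤ M^(6/5)`), hence `curves e μ P = 0` for general `P` (`main_u`), `deg_mono`,
`vd d μ ≤ vd e μ < 0`. -/
theorem cor_a : ∃ C : ℝ, 1 ≤ C ∧ ∀ (n M : ℕ) (μ : Fin n → ℕ), 1 ≤ M → (∀ i, μ i ≤ M) →
    C * (M : ℝ) ^ (12 / 5 : ℝ) * Real.log (M + 2) ^ 2 ≤ ((∑ i, μ i ^ 2 : ℕ) : ℝ) →
    ∃ d0 : ℕ, ∀ d : ℕ, d ≠ d0 →
    General (fun P => (Module.finrank ℂ (curves d μ P) : ℤ) = max (vd d μ) 0) := by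
  obtain ⟨C0, hC0, h0⟩ := cor_u
  obtain ⟨C1, hC1, h1⟩ := main_u
  refine ⟨16 * C0 ^ 2 + 6 * C1, by nlinarith, fun n M μ hM hμ hs => ?_⟩
  obtain ⟨d0, hd0⟩ := h0 n M μ hM hμ
  refine ⟨d0, fun d hd => ?_⟩
  rcases le_or_gt (C0 * (M : ℝ) ^ (6 / 5 : ℝ) * Real.log (M + 2)) (d : ℝ) with hcase | hcase
  · exact hd0 d hcase hd
  -- small degrees
  have hm : (1 : ℝ) ≤ M := by exact_mod_cast hM
  have hm0 : (0 : ℝ) < M := by linarith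
  set l := Real.log ((M : ℝ) + 2) with hldef
  set b := (M : ℝ) ^ (6 / 5 : ℝ) with hbdef
  set a := (M : ℝ) ^ (12 / 5 : ℝ) with hadef
  have hl3 : Real.log 3 ≤ l := Real.log_le_log (by norm_num) (by linarith)
  have hlog3 : 1 < Real.log 3 := by
    rw [Real.lt_log_iff_exp_lt (by norm_num)]
    exact lt_trans Real.exp_one_lt_d9 (by norm_num)
  have hl : 1 ≤ l := by linarith
  have hlM : l ≤ 2 * M := by
    have := Real.log_le_sub_one_of_pos (show (0 : ℝ) < (M : ℝ) + 2 by linarith)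
    linarith
  have hb : 1 ≤ b := Real.one_le_rpow hm (by norm_num)
  have ha : 1 ≤ a := Real.one_le_rpow hm (by norm_num)
  have hab : b ^ 2 = a := by
    rw [hbdef, hadef, ← Real.rpow_natCast, ← Real.rpow_mul hm0.le]
    norm_num
  have hbl : 1 ≤ b * l := one_le_mul_of_one_le_of_one_le hb hl
  have hcbl : b * l ≤ C0 * b * l := by
    have : 0 ≤ b * l := by linarith
    calc b * l = 1 * (b * l) := by ring
      _ ≤ C0 * (b * l) := mul_le_mul_of_nonneg_right hC0 this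
      _ = C0 * b * l := by ring
  set e := ⌈C0 * b * l⌉₊ with hedef
  have he1 : C0 * b * l ≤ e := Nat.le_ceil _
  have he2 : (e : ℝ) < C0 * b * l + 1 := Nat.ceil_lt_add_one (by linarith)
  have hde : d ≤ e := by
    have : (d : ℝ) ≤ e := by linarith
    exact_mod_cast this
  -- the virtual dimension in degree `e`
  have hv1 := two_vd (e := e) μ
  have hv2 : ((e : ℝ) + 2) ^ 2 ≤ 16 * C0 ^ 2 * a * l ^ 2 := by
    have e1 : (e : ℝ) + 2 ≤ 4 * (C0 * b * l) := by linarith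
    have e2 : ((e : ℝ) + 2) ^ 2 ≤ (4 * (C0 * b * l)) ^ 2 := pow_le_pow_left₀ (by positivity) e1 2
    calc ((e : ℝ) + 2) ^ 2 ≤ (4 * (C0 * b * l)) ^ 2 := e2
      _ = 16 * C0 ^ 2 * (b ^ 2) * l ^ 2 := by ring
      _ = _ := by rw [hab]
  have hv3 : 2 * ((vd e μ : ℤ) : ℝ) ≤ -(6 * C1 * a * l ^ 2) := by
    have e1 : (16 * C0 ^ 2 + 6 * C1) * a * l ^ 2 = 16 * C0 ^ 2 * a * l ^ 2 + 6 * C1 * a * l ^ 2 := by
      ring
    rw [e1] at hs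
    linarith
  -- the window in degree `e`
  have hw1 : (M : ℝ) ^ (9 / 8 : ℝ) * l ^ 3 ≤ 2 * a * l ^ 2 := by
    have e1 : (M : ℝ) ^ (9 / 8 : ℝ) * M ≤ a := by
      calc (M : ℝ) ^ (9 / 8 : ℝ) * M = (M : ℝ) ^ (9 / 8 : ℝ) * (M : ℝ) ^ (1 : ℝ) := by
            rw [Real.rpow_one]
        _ = (M : ℝ) ^ (9 / 8 + 1 : ℝ) := (Real.rpow_add hm0 _ _).symm
        _ ≤ a := Real.rpow_le_rpow_of_exponent_le hm (by norm_num)
    have e2 : (M : ℝ) ^ (9 / 8 : ℝ) * l ≤ 2 * a := by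
      have e3 : 0 ≤ (M : ℝ) ^ (9 / 8 : ℝ) := by positivity
      calc (M : ℝ) ^ (9 / 8 : ℝ) * l ≤ (M : ℝ) ^ (9 / 8 : ℝ) * (2 * M) :=
            mul_le_mul_of_nonneg_left hlM e3
        _ = 2 * ((M : ℝ) ^ (9 / 8 : ℝ) * M) := by ring
        _ ≤ 2 * a := by linarith
    calc (M : ℝ) ^ (9 / 8 : ℝ) * l ^ 3 = ((M : ℝ) ^ (9 / 8 : ℝ) * l) * l ^ 2 := by ring
      _ ≤ 2 * a * l ^ 2 := mul_le_mul_of_nonneg_right e2 (by positivity)
  have hw2 : (M : ℝ) ^ 6 / ((e : ℝ) + 1) ^ 4 * l ^ 3 ≤ a * l ^ 2 := by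
    have e0 : 0 < (e : ℝ) + 1 := by positivity
    have e1 : b * l ≤ (e : ℝ) + 1 := by linarith
    have e2 : (b * l) ^ 4 ≤ ((e : ℝ) + 1) ^ 4 := pow_le_pow_left₀ (by linarith) e1 4
    have e3 : (b * l) ^ 4 = b ^ 4 * l ^ 4 := by ring
    have e4 : b ^ 4 * b = (M : ℝ) ^ 6 := by
      have : b ^ 5 = (M : ℝ) ^ 6 := by
        rw [hbdef, ← Real.rpow_natCast, ← Real.rpow_mul hm0.le, ← Real.rpow_natCast (M : ℝ) 6]
        norm_num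
      rw [← this]
      ring
    have e5 : b ≤ a := by
      rw [← hab]
      nlinarith
    have hl4 : l ^ 3 ≤ l ^ 4 := pow_le_pow_right₀ hl (by norm_num)
    rw [div_mul_eq_mul_div, div_le_iff₀ (by positivity)]
    have e6 : (M : ℝ) ^ 6 * l ^ 3 ≤ b * (b ^ 4 * l ^ 4) := by
      rw [← e4]
      have : b ^ 4 * b * l ^ 3 ≤ b ^ 4 * b * l ^ 4 := mul_le_mul_of_nonneg_left hl4 (by positivity)
      calc b ^ 4 * b * l ^ 3 ≤ b ^ 4 * b * l ^ 4 := this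
        _ = _ := by ring
    have e7 : b * (b ^ 4 * l ^ 4) ≤ a * l ^ 2 * ((e : ℝ) + 1) ^ 4 := by
      have e8 : b ≤ a * l ^ 2 := by
        have : 1 ≤ l ^ 2 := one_le_pow₀ hl
        nlinarith
      have e9 : b ^ 4 * l ^ 4 ≤ ((e : ℝ) + 1) ^ 4 := by rw [← e3]; exact e2
      exact mul_le_mul e8 e9 (by positivity) (by positivity)
    exact e6.trans e7
  have hw3 : C1 * ((M : ℝ) ^ (9 / 8 : ℝ) + (M : ℝ) ^ 6 / ((e : ℝ) + 1) ^ 4) * l ^ 3 ≤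
      3 * C1 * a * l ^ 2 := by
    have e1 : ((M : ℝ) ^ (9 / 8 : ℝ) + (M : ℝ) ^ 6 / ((e : ℝ) + 1) ^ 4) * l ^ 3 ≤ 3 * a * l ^ 2 := by
      rw [add_mul]
      linarith
    calc C1 * ((M : ℝ) ^ (9 / 8 : ℝ) + (M : ℝ) ^ 6 / ((e : ℝ) + 1) ^ 4) * l ^ 3 =
          C1 * (((M : ℝ) ^ (9 / 8 : ℝ) + (M : ℝ) ^ 6 / ((e : ℝ) + 1) ^ 4) * l ^ 3) := by ring
      _ ≤ C1 * (3 * a * l ^ 2) := mul_le_mul_of_nonneg_left e1 (by linarith)
      _ = _ := by ring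
  have hpos : 0 ≤ 3 * C1 * a * l ^ 2 := by positivity
  have hvneg : ((vd e μ : ℤ) : ℝ) ≤ -(3 * C1 * a * l ^ 2) := by linarith
  have hG := h1 n e M μ hM hμ (by
    rw [abs_of_nonpos (by linarith)]
    linarith)
  have hve : vd e μ ≤ 0 := by
    have : ((vd e μ : ℤ) : ℝ) ≤ 0 := by linarith
    exact_mod_cast this
  have hvd : vd d μ ≤ 0 := (vd_le hde μ).trans hve
  refine hG.mono ?_
  intro P hP
  rw [max_eq_right hve] at hP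
  rw [max_eq_right hvd]
  have h2 := deg_mono hde μ P
  have h3 : Module.finrank ℂ (curves e μ P) = 0 := by exact_mod_cast hP
  have h4 : Module.finrank ℂ (curves d μ P) = 0 := by omega
  exact_mod_cast h4

end Pool.Agent.Lib.MP_6b2d39_agUn
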