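import Pool.Agent.Lib.MP_6b2d39_agUn.MainU
import Pool.Agent.Lib.MP_6b2d39_agHx.Main

set_option autoImplicit false

namespace Pool.Agent.Lib.MP_6b2d39_agUn

open Pool.Agent.Lib.MP_6b2d39_agArr Pool.Agent.Lib.MP_6b2d39_agNw Pool.Agent.Lib.MP_6b2d39_agHl
  Pool.Agent.Lib.MP_6b2d39_agCr

private theorem log_sq_le {x : ℝ} (hx : 1 ≤ x) :
    Real.log (x + 2) ^ 2 ≤ 2200 * x ^ (3 / 40 : ℝ) := by
  have h0 : (0 : ℝ) ≤ x + 2 := by linarith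
  have h1 : Real.log (x + 2) ≤ (x + 2) ^ (3 / 80 : ℝ) / (3 / 80 : ℝ) :=
    Real.log_le_rpow_div h0 (by norm_num)
  have h2 : 0 ≤ Real.log (x + 2) := Real.log_nonneg (by linarith)
  have h3 : Real.log (x + 2) ^ 2 ≤ ((x + 2) ^ (3 / 80 : ℝ) / (3 / 80 : ℝ)) ^ 2 :=
    pow_le_pow_left₀ h2 h1 2
  have h4 : ((x + 2) ^ (3 / 80 : ℝ)) ^ 2 = (x + 2) ^ (3 / 40 : ℝ) := by
    rw [← Real.rpow_natCast, ← Real.rpow_mul h0]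
    norm_num
  have h5 : (x + 2) ^ (3 / 40 : ℝ) ≤ (3 * x) ^ (3 / 40 : ℝ) :=
    Real.rpow_le_rpow h0 (by linarith) (by norm_num)
  have h6 : (3 * x) ^ (3 / 40 : ℝ) = (3 : ℝ) ^ (3 / 40 : ℝ) * x ^ (3 / 40 : ℝ) :=
    Real.mul_rpow (by norm_num) (by linarith)
  have h7 : (3 : ℝ) ^ (3 / 40 : ℝ) ≤ 3 := by
    calc (3 : ℝ) ^ (3 / 40 : ℝ) ≤ (3 : ℝ) ^ (1 : ℝ) :=
          Real.rpow_le_rpow_of_exponent_le (by norm_num) (by norm_num)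
      _ = 3 := Real.rpow_one 3
  have h8 : 0 ≤ x ^ (3 / 40 : ℝ) := Real.rpow_nonneg (by linarith) _
  have h9 : ((x + 2) ^ (3 / 80 : ℝ) / (3 / 80 : ℝ)) ^ 2 =
      (6400 / 9) * (x + 2) ^ (3 / 40 : ℝ) := by
    rw [div_pow, h4]
    ring
  have h10 : (3 : ℝ) ^ (3 / 40 : ℝ) * x ^ (3 / 40 : ℝ) ≤ 3 * x ^ (3 / 40 : ℝ) :=
    mul_le_mul_of_nonneg_right h7 h8
  nlinarith

/-- U66 (at most one degree): for `d ≥ C M^(6/5) ℓ` the window is `≤ d / 2` (`M^6/d^4 ℓ^3 ≤ d / (4 C0)`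
and `M^(9/8) ℓ^3 ≤ d / (4 C0)`), and `vd d' μ - vd d μ ≥ d + 2` for `d < d'`
(`unique_degree`, `Hx/Main.lean`). -/
theorem cor_u : ∃ C : ℝ, 1 ≤ C ∧ ∀ (n M : ℕ) (μ : Fin n → ℕ), 1 ≤ M → (∀ i, μ i ≤ M) →
    ∃ d0 : ℕ, ∀ d : ℕ, C * (M : ℝ) ^ (6 / 5 : ℝ) * Real.log (M + 2) ≤ d → d ≠ d0 →
    General (fun P => (Module.finrank ℂ (curves d μ P) : ℤ) = max (vd d μ) 0) := by
  obtain ⟨C0, hC1, hC⟩ := main_u
  refine ⟨10000 * C0, by linarith, fun n M μ hM hμ => ?_⟩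
  obtain ⟨d0, hd0⟩ := Pool.Agent.Lib.MP_6b2d39_agHx.unique_degree μ
  refine ⟨d0, fun d hd hne => hC n d M μ hM hμ (le_trans ?_ (hd0 d hne))⟩
  have hx : (1 : ℝ) ≤ (M : ℝ) := by exact_mod_cast hM
  have hx0 : (0 : ℝ) < (M : ℝ) := by linarith
  generalize (M : ℝ) = x at hx hx0 hd ⊢
  have hl1 : 1 ≤ Real.log (x + 2) := by
    rw [Real.le_log_iff_exp_le (by linarith)]
    have := Real.exp_one_lt_d9
    linarith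
  have hl2 := log_sq_le hx
  generalize Real.log (x + 2) = l at hl1 hl2 hd ⊢
  have hdn : (0 : ℝ) ≤ (d : ℝ) := Nat.cast_nonneg d
  generalize (d : ℝ) = D at hd hdn ⊢
  have e1 : x ^ (9 / 8 : ℝ) * x ^ (3 / 40 : ℝ) = x ^ (6 / 5 : ℝ) := by
    rw [← Real.rpow_add hx0]
    norm_num
  have e2 : (x ^ (6 / 5 : ℝ)) ^ 5 = x ^ 6 := by
    rw [← Real.rpow_natCast, ← Real.rpow_mul hx0.le, ← Real.rpow_natCast]
    norm_num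
  have p1 : 0 ≤ x ^ (9 / 8 : ℝ) := Real.rpow_nonneg hx0.le _
  have p2 : 0 ≤ x ^ (6 / 5 : ℝ) := Real.rpow_nonneg hx0.le _
  have k1 : C0 * (x ^ (6 / 5 : ℝ) * l) ≤ D / 10000 := by
    have : 10000 * (C0 * (x ^ (6 / 5 : ℝ) * l)) = 10000 * C0 * x ^ (6 / 5 : ℝ) * l := by ring
    linarith
  have k0 : 0 ≤ x ^ (6 / 5 : ℝ) * l := mul_nonneg p2 (by linarith)
  have k2 : x ^ (6 / 5 : ℝ) * l ≤ D := by
    have : 1 * (x ^ (6 / 5 : ℝ) * l) ≤ C0 * (x ^ (6 / 5 : ℝ) * l) :=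
      mul_le_mul_of_nonneg_right hC1 k0
    linarith
  have hA : C0 * x ^ (9 / 8 : ℝ) * l ^ 3 ≤ D / 4 := by
    have q1 : C0 * x ^ (9 / 8 : ℝ) * l ^ 3 = (C0 * x ^ (9 / 8 : ℝ) * l) * l ^ 2 := by ring
    have q2 : 0 ≤ C0 * x ^ (9 / 8 : ℝ) * l := by positivity
    have q3 : (C0 * x ^ (9 / 8 : ℝ) * l) * l ^ 2 ≤
        (C0 * x ^ (9 / 8 : ℝ) * l) * (2200 * x ^ (3 / 40 : ℝ)) :=
      mul_le_mul_of_nonneg_left hl2 q2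
    have q4 : (C0 * x ^ (9 / 8 : ℝ) * l) * (2200 * x ^ (3 / 40 : ℝ)) =
        2200 * (C0 * (x ^ (6 / 5 : ℝ) * l)) := by
      rw [← e1]
      ring
    rw [q1]
    linarith
  have hB : C0 * (x ^ 6 / (D + 1) ^ 4) * l ^ 3 ≤ D / 4 := by
    have hp : (0 : ℝ) < (D + 1) ^ 4 := by positivity
    have r1 : C0 * (x ^ 6 / (D + 1) ^ 4) * l ^ 3 = C0 * x ^ 6 * l ^ 3 / (D + 1) ^ 4 := by ring
    rw [r1, div_le_iff₀ hp, ← e2]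
    have r2 : l ^ 3 ≤ l ^ 5 := pow_le_pow_right₀ hl1 (by norm_num)
    have r3 : C0 * (x ^ (6 / 5 : ℝ)) ^ 5 * l ^ 3 ≤ C0 * (x ^ (6 / 5 : ℝ)) ^ 5 * l ^ 5 :=
      mul_le_mul_of_nonneg_left r2 (by positivity)
    have r4 : C0 * (x ^ (6 / 5 : ℝ)) ^ 5 * l ^ 5 =
        (C0 * (x ^ (6 / 5 : ℝ) * l)) * (x ^ (6 / 5 : ℝ) * l) ^ 4 := by ring
    have r5 : (x ^ (6 / 5 : ℝ) * l) ^ 4 ≤ (D + 1) ^ 4 :=
      pow_le_pow_left₀ k0 (by linarith) 4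
    have r6 : (C0 * (x ^ (6 / 5 : ℝ) * l)) * (x ^ (6 / 5 : ℝ) * l) ^ 4 ≤
        D / 10000 * (D + 1) ^ 4 :=
      mul_le_mul k1 r5 (by positivity) (by linarith)
    have r7 : D / 10000 * (D + 1) ^ 4 ≤ D / 4 * (D + 1) ^ 4 :=
      mul_le_mul_of_nonneg_right (by linarith) hp.le
    linarith
  have e3 : C0 * (x ^ (9 / 8 : ℝ) + x ^ 6 / (D + 1) ^ 4) * l ^ 3 =
      C0 * x ^ (9 / 8 : ℝ) * l ^ 3 + C0 * (x ^ 6 / (D + 1) ^ 4) * l ^ 3 := by ring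
  rw [e3]
  linarith

end Pool.Agent.Lib.MP_6b2d39_agUn
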