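import Pool.Agent.Lib.MP_6b2d39_agUn.MainU
import Pool.Agent.Lib.MP_6b2d39_agUn.DimU

set_option autoImplicit false

namespace Pool.Agent.Lib.MP_6b2d39_agUn

open Pool.Agent.Lib.MP_6b2d39_agArr Pool.Agent.Lib.MP_6b2d39_agNw Pool.Agent.Lib.MP_6b2d39_agHl
  Pool.Agent.Lib.MP_6b2d39_agCr

/-- U67 (`dim_of_empty`, `main_u`) -/
theorem dim_m : ∃ C : ℝ, 1 ≤ C ∧ ∀ (n d M : ℕ) (μ : Fin n → ℕ), 1 ≤ M → (∀ i, μ i ≤ M) →
    General (fun P => max (vd d μ) 0 ≤ (Module.finrank ℂ (curves d μ P) : ℤ) ∧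
      (Module.finrank ℂ (curves d μ P) : ℝ) ≤ max ((vd d μ : ℤ) : ℝ) 0 +
        C * ((M : ℝ) ^ (9 / 8 : ℝ) + (M : ℝ) ^ 6 / ((d : ℝ) + 1) ^ 4) *
          Real.log (M + 2) ^ 3) := by
  obtain ⟨C, hC, h⟩ := main_u
  refine ⟨C + 1, by linarith, fun n d M μ hM hμ => ?_⟩
  have hM1 : (1 : ℝ) ≤ M := by exact_mod_cast hM
  have hd : (0 : ℝ) < (d : ℝ) + 1 := by positivity
  have hA : 1 ≤ (M : ℝ) ^ (9 / 8 : ℝ) + (M : ℝ) ^ 6 / ((d : ℝ) + 1) ^ 4 := by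
    have h1 : 1 ≤ (M : ℝ) ^ (9 / 8 : ℝ) := Real.one_le_rpow hM1 (by norm_num)
    have h2 : 0 ≤ (M : ℝ) ^ 6 / ((d : ℝ) + 1) ^ 4 := by positivity
    linarith
  have hL : 1 ≤ Real.log (M + 2) := by
    rw [Real.le_log_iff_exp_le (by linarith)]
    have h3 := Real.exp_one_lt_d9
    linarith
  have hL3 : 1 ≤ Real.log (M + 2) ^ 3 := one_le_pow₀ hL
  have hAL : 1 ≤ ((M : ℝ) ^ (9 / 8 : ℝ) + (M : ℝ) ^ 6 / ((d : ℝ) + 1) ^ 4) *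
      Real.log (M + 2) ^ 3 := one_le_mul_of_one_le_of_one_le hA hL3
  have hW : 0 ≤ C * ((M : ℝ) ^ (9 / 8 : ℝ) + (M : ℝ) ^ 6 / ((d : ℝ) + 1) ^ 4) *
      Real.log (M + 2) ^ 3 := by
    rw [mul_assoc]
    exact mul_nonneg (by linarith) (by linarith)
  refine (dim_of_empty hM hW (fun n' μ' hμ' hv => h n' d M μ' hM hμ' ?_) μ hμ).mono ?_
  · rw [abs_of_nonpos (by linarith)]
    linarith
  · rintro P ⟨h4, h5⟩
    refine ⟨h4, h5.trans ?_⟩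
    rw [mul_assoc (C + 1), add_mul, one_mul, ← mul_assoc]
    linarith

end Pool.Agent.Lib.MP_6b2d39_agUn
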