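import Pool.Agent.Lib.MP_6b2d39_agUn.CorA
import Pool.Agent.Lib.MP_6b2d39_agUn.DimM

set_option autoImplicit false

namespace Pool.Agent.Lib.MP_6b2d39_agUn

open Pool.Agent.Lib.MP_6b2d39_agCr

/-- THEOREM U, one constant (U72): the maximum of the three constants (`General.and`, `General.mono`) -/
theorem all_mult : ∃ C : ℝ, ∀ (n M : ℕ) (μ : Fin n → ℕ), 1 ≤ M → (∀ i, μ i ≤ M) →
    (∀ (d : ℕ) (W : ℝ),
      W = C * ((M : ℝ) ^ (9 / 8 : ℝ) + (M : ℝ) ^ 6 / ((d : ℝ) + 1) ^ 4) * Real.log (M + 2) ^ 3 →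
      General (fun P => max (vd d μ) 0 ≤ (Module.finrank ℂ (curves d μ P) : ℤ) ∧
        (Module.finrank ℂ (curves d μ P) : ℝ) ≤ max ((vd d μ : ℤ) : ℝ) 0 + W ∧
        (W ≤ |((vd d μ : ℤ) : ℝ)| →
          (Module.finrank ℂ (curves d μ P) : ℤ) = max (vd d μ) 0))) ∧
    (C * (M : ℝ) ^ (12 / 5 : ℝ) * Real.log (M + 2) ^ 2 ≤ ((∑ i, μ i ^ 2 : ℕ) : ℝ) →
      ∃ d0 : ℕ, ∀ d : ℕ, d ≠ d0 →
        General (fun P => (Module.finrank ℂ (curves d μ P) : ℤ) = max (vd d μ) 0)) := by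
  obtain ⟨C1, hC1, h1⟩ := main_u
  obtain ⟨C2, hC2, h2⟩ := dim_m
  obtain ⟨C3, hC3, h3⟩ := cor_a
  refine ⟨C1 + C2 + C3, fun n M μ hM hμ => ⟨fun d W hW => ?_, fun hs => ?_⟩⟩
  · have hl : 0 ≤ Real.log ((M : ℝ) + 2) :=
      Real.log_nonneg (by
        have : (0 : ℝ) ≤ M := Nat.cast_nonneg M
        linarith)
    have hA : 0 ≤ (M : ℝ) ^ (9 / 8 : ℝ) + (M : ℝ) ^ 6 / ((d : ℝ) + 1) ^ 4 := by positivity
    have hAl : 0 ≤ ((M : ℝ) ^ (9 / 8 : ℝ) + (M : ℝ) ^ 6 / ((d : ℝ) + 1) ^ 4) *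
        Real.log (M + 2) ^ 3 := mul_nonneg hA (pow_nonneg hl 3)
    have key : ∀ c : ℝ, c ≤ C1 + C2 + C3 →
        c * ((M : ℝ) ^ (9 / 8 : ℝ) + (M : ℝ) ^ 6 / ((d : ℝ) + 1) ^ 4) *
          Real.log (M + 2) ^ 3 ≤ W := by
      intro c hc
      rw [hW, mul_assoc, mul_assoc]
      exact mul_le_mul_of_nonneg_right hc hAl
    have g2 := h2 n d M μ hM hμ
    have k2 := key C2 (by linarith)
    by_cases hc : W ≤ |((vd d μ : ℤ) : ℝ)|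
    · have g1 := h1 n d M μ hM hμ ((key C1 (by linarith)).trans hc)
      refine (g1.and g2).mono ?_
      rintro P ⟨a, b, c⟩
      exact ⟨b, by linarith, fun _ => a⟩
    · refine g2.mono ?_
      rintro P ⟨b, c⟩
      exact ⟨b, by linarith, fun h => absurd h hc⟩
  · refine h3 n M μ hM hμ (le_trans ?_ hs)
    have ha : 0 ≤ (M : ℝ) ^ (12 / 5 : ℝ) * Real.log (M + 2) ^ 2 := by positivity
    rw [mul_assoc, mul_assoc]
    exact mul_le_mul_of_nonneg_right (by linarith) ha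

end Pool.Agent.Lib.MP_6b2d39_agUn
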