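import Mathlib

/-!
THEOREM U: counting kinks (lists of integers).
-/

set_option autoImplicit false

namespace Pool.Agent.Lib.MP_6b2d39_agUn

/-- UN (kinks_count). A kink in every window of length `w` in `(L/2, L]`: at least `L / (4 w)`
kinks there. -/
theorem kinks_count {w L : ℕ} (hw : 1 ≤ w) (hL : 4 * w ≤ L) {K : List ℤ}
    (h : ∀ s : ℤ, (L : ℤ) < 2 * s → s + w ≤ L + 1 → ∃ t ∈ K, s ≤ t ∧ t < s + w) :
    (L : ℤ) ≤ 4 * w * (K.countP fun t => (L : ℤ) < 2 * t ∧ t ≤ L) := by
  classical
  set n : ℕ := (L - L / 2) / w with hn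
  have hn1 : n * w ≤ L - L / 2 := Nat.div_mul_le_self _ _
  have hn2 : L - L / 2 < (n + 1) * w := by
    have := Nat.lt_div_mul_add (a := L - L / 2) (show 0 < w by omega)
    rw [← hn] at this
    rw [add_mul, one_mul]
    exact this
  have hs : ∀ i, i < n → ∃ t ∈ K, (L / 2 + 1 + i * w : ℕ) ≤ t ∧ t < (L / 2 + 1 + i * w : ℕ) + (w : ℤ) := by
    intro i hi
    have h1 : (i + 1) * w ≤ n * w := Nat.mul_le_mul_right w hi
    rw [add_mul, one_mul] at h1
    refine h _ ?_ ?_
    · have : L < 2 * (L / 2 + 1 + i * w) := by omega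
      exact_mod_cast this
    · have : L / 2 + 1 + i * w + w ≤ L + 1 := by omega
      exact_mod_cast this
  choose! f hf1 hf2 hf3 using hs
  have hinj : Set.InjOn f (Finset.range n : Set ℕ) := by
    have hlt : ∀ i j, i < j → j < n → f i < f j := by
      intro i j hij hj
      have h1 := hf3 i (by omega)
      have h2 := hf2 j hj
      have h3 : (i + 1) * w ≤ j * w := Nat.mul_le_mul_right w hij
      rw [add_mul, one_mul] at h3
      have h4 : ((L / 2 + 1 + i * w : ℕ) : ℤ) + w ≤ ((L / 2 + 1 + j * w : ℕ) : ℤ) := by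
        have : L / 2 + 1 + i * w + w ≤ L / 2 + 1 + j * w := by omega
        exact_mod_cast this
      linarith
    intro i hi j hj hij
    rw [Finset.mem_coe, Finset.mem_range] at hi hj
    rcases lt_trichotomy i j with h1 | h1 | h1
    · exact absurd hij (hlt i j h1 hj).ne
    · exact h1
    · exact absurd hij (hlt j i h1 hi).ne'
  have hmem : ∀ i ∈ Finset.range n,
      f i ∈ (K.filter fun t => (L : ℤ) < 2 * t ∧ t ≤ L).toFinset := by
    intro i hi
    rw [Finset.mem_range] at hi
    rw [List.mem_toFinset, List.mem_filter]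
    refine ⟨hf1 i hi, ?_⟩
    have h1 := hf3 i hi
    have h2 := hf2 i hi
    have h3 : (i + 1) * w ≤ n * w := Nat.mul_le_mul_right w hi
    rw [add_mul, one_mul] at h3
    have h4 : ((L / 2 + 1 + i * w : ℕ) : ℤ) + w ≤ L + 1 := by
      have : L / 2 + 1 + i * w + w ≤ L + 1 := by omega
      exact_mod_cast this
    have h5 : (L : ℤ) < 2 * ((L / 2 + 1 + i * w : ℕ) : ℤ) := by
      have : L < 2 * (L / 2 + 1 + i * w) := by omega
      exact_mod_cast this
    simp only [decide_eq_true_eq]
    constructor <;> linarith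
  have hcard := Finset.card_le_card_of_injOn f hmem hinj
  rw [Finset.card_range] at hcard
  have hcard2 := List.toFinset_card_le (K.filter fun t => (L : ℤ) < 2 * t ∧ t ≤ L)
  rw [← List.countP_eq_length_filter] at hcard2
  have hnk : n ≤ K.countP fun t => (L : ℤ) < 2 * t ∧ t ≤ L := hcard.trans hcard2
  have hn0 : 1 ≤ n := by
    rcases Nat.eq_zero_or_pos n with h1 | h1
    · have e1 : (n + 1) * w = w := by rw [h1, zero_add, one_mul]
      omega
    · exact h1
  have h6 : L ≤ 4 * (w * n) := by
    have e1 : L ≤ 2 * ((n + 1) * w) := by omega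
    have e2 : (n + 1) * w ≤ 2 * (w * n) := by
      calc (n + 1) * w ≤ (n + n) * w := Nat.mul_le_mul_right w (by omega)
        _ = 2 * (w * n) := by ring
    omega
  have h7 : w * n ≤ w * K.countP fun t => (L : ℤ) < 2 * t ∧ t ≤ L := Nat.mul_le_mul_left w hnk
  have h8 : L ≤ 4 * (w * K.countP fun t => (L : ℤ) < 2 * t ∧ t ≤ L) := by omega
  have h9 : (L : ℤ) ≤ 4 * (w * K.countP fun t => (L : ℤ) < 2 * t ∧ t ≤ L) := by exact_mod_cast h8
  linarith

/-- the kinks in `(L/2, L]` are not counted below `L/2` -/
theorem countP_add_le (K : List ℤ) {b L : ℤ} (hb : 2 * b ≤ L) (hbL : b ≤ L) :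
    (K.countP fun t => t ≤ b) + (K.countP fun t => L < 2 * t ∧ t ≤ L) ≤
      K.countP fun t => t ≤ L := by
  induction K with
  | nil => simp
  | cons a K ih =>
    simp only [List.countP_cons, decide_eq_true_eq]
    by_cases h1 : a ≤ b
    · have h2 : ¬ (L < 2 * a ∧ a ≤ L) := fun h => by linarith [h.1]
      have h3 : a ≤ L := h1.trans hbL
      rw [if_pos h1, if_neg h2, if_pos h3]
      omega
    · rw [if_neg h1]
      by_cases h2 : L < 2 * a ∧ a ≤ L
      · rw [if_pos h2, if_pos h2.2]
        omega
      · rw [if_neg h2]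
        omega

/-- monotone count -/
theorem countP_mono_le (K : List ℤ) {b c : ℤ} (hbc : b ≤ c) :
    (K.countP fun t => t ≤ b) ≤ K.countP fun t => t ≤ c :=
  List.countP_mono_left fun t _ h => by
    simp only [decide_eq_true_eq] at h ⊢
    exact h.trans hbc

/-- the load of the kinks on one row bounds the number of the kinks below -/
theorem countP_mul_le (K : List ℤ) (r a : ℤ) (p : ℤ → Prop) [DecidablePred p]
    (hp : ∀ t ∈ K, p t → a ≤ r - t) :
    a * (K.countP fun t => p t) ≤ (K.map fun t => max (r - t) 0).sum := by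
  induction K with
  | nil => simp
  | cons t K ih =>
    have h1 := ih fun t ht => hp t (List.mem_cons_of_mem _ ht)
    rw [List.map_cons, List.sum_cons, List.countP_cons]
    by_cases h2 : p t
    · have h3 := hp t (List.mem_cons_self ..) h2
      simp only [h2, decide_true, if_true]
      push_cast
      have h4 : r - t ≤ max (r - t) 0 := le_max_left _ _
      linarith
    · simp only [h2, decide_false, Bool.false_eq_true, if_false, add_zero]
      have h4 : 0 ≤ max (r - t) 0 := le_max_right _ _
      linarith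

/-- many kinks below `r` if their load is large and each load is `≤ M` -/
theorem load_le_countP (K : List ℤ) (r M : ℤ) (hM : ∀ t ∈ K, r - t ≤ M) :
    (K.map fun t => max (r - t) 0).sum ≤ M * (K.countP fun t => t < r) := by
  induction K with
  | nil => simp
  | cons t K ih =>
    have h1 := ih fun t ht => hM t (List.mem_cons_of_mem _ ht)
    have h3 := hM t (List.mem_cons_self ..)
    rw [List.map_cons, List.sum_cons, List.countP_cons]
    by_cases h2 : t < r
    · simp only [h2, decide_true, if_true]
      push_cast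
      rw [max_eq_left (by linarith)]
      linarith
    · simp only [h2, decide_false, Bool.false_eq_true, if_false, add_zero]
      rw [max_eq_right (by linarith)]
      linarith

end Pool.Agent.Lib.MP_6b2d39_agUn
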