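import Mathlib

/-!
THEOREM U: the sum over the rows in Lemma K.
-/

set_option autoImplicit false

namespace Pool.Agent.Lib.MP_6b2d39_agUn

private theorem sum_tri (h n : ℕ) (hn : h + 1 ≤ n) :
    ((h : ℤ) + 1) * (h + 2) = 2 * ∑ c ∈ Finset.range n, ((h + 1 - c : ℕ) : ℤ) := by
  have h1 : ∑ c ∈ Finset.range n, ((h + 1 - c : ℕ) : ℤ) =
      ∑ c ∈ Finset.range (h + 1), ((h + 1 - c : ℕ) : ℤ) := by
    symm
    apply Finset.sum_subset
    · intro x hx
      rw [Finset.mem_range] at hx ⊢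
      omega
    · intro x _ hx
      rw [Finset.mem_range] at hx
      have : h + 1 - x = 0 := by omega
      rw [this]; simp
  rw [h1]
  clear h1 hn
  induction h with
  | zero => simp
  | succ h ih =>
    rw [Finset.sum_range_succ']
    have h2 : ∀ c ∈ Finset.range (h + 1), ((h + 1 + 1 - (c + 1) : ℕ) : ℤ) =
        ((h + 1 - c : ℕ) : ℤ) := by
      intro c _
      congr 1
      omega
    have h3 : ((h + 1 + 1 - 0 : ℕ) : ℤ) = (h : ℤ) + 2 := by push_cast; ring
    rw [Finset.sum_congr rfl h2, h3]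
    set s : ℤ := ∑ c ∈ Finset.range (h + 1), ((h + 1 - c : ℕ) : ℤ) with hs
    have h4 : ((h : ℤ) + 1) * (h + 2) = 2 * s := ih
    push_cast
    linarith

/-- UN (sumK). Upper bound of the sum of `N` if the slopes are small below the row `L`. -/
theorem sumK {y L : ℕ} {k Γ Vm : ℤ} {N V g : ℕ → ℤ} (hLy : L + 1 < y) (hΓ : 0 ≤ Γ) (hk : 0 ≤ k)
    (hprof : ∀ b, b ≤ L → N b - N (b + 1) = g b + (V (b + 1) - V b))
    (hg1 : ∀ b, b ≤ L → g b ≤ Γ) (hg2 : ∀ b, 2 * b ≤ L → g b ≤ Γ - k)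
    (hN : ∀ b, L < b → b < y → N b ≤ y) (hV0 : ∀ b, b ≤ L → 0 ≤ V b) (hVm : V (L + 1) ≤ Vm)
    (hVm0 : 0 ≤ Vm) :
    8 * ∑ c ∈ Finset.range y, N c ≤
      8 * (y : ℤ) ^ 2 + 8 * y * Vm + 8 * Γ * (y : ℤ) ^ 2 - k * (L : ℤ) ^ 2 := by
  -- bound of one row
  have hrow : ∀ i, i ≤ L → N (L - i) + V (L - i) ≤ y + Vm + Γ * ((i : ℤ) + 1) -
      k * ((L / 2 + 1 - (L - i) : ℕ) : ℤ) := by
    intro i
    induction i with
    | zero =>
      intro _
      have h1 := hprof L le_rfl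
      have h2 := hN (L + 1) (by omega) hLy
      by_cases hL : L = 0
      · have h3 := hg2 L (by omega)
        have h4 : L / 2 + 1 - (L - 0) = 1 := by omega
        rw [h4]
        simp only [Nat.sub_zero]
        push_cast
        linarith
      · have h3 := hg1 L le_rfl
        by_cases h5 : L = 1
        · have h4 : L / 2 + 1 - (L - 0) = 0 := by omega
          rw [h4]
          simp only [Nat.sub_zero]
          push_cast
          linarith
        · have h4 : L / 2 + 1 - (L - 0) = 0 := by omega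
          rw [h4]
          simp only [Nat.sub_zero]
          push_cast
          linarith
    | succ i ih =>
      intro hi
      have h0 := ih (by omega)
      have h1 := hprof (L - (i + 1)) (by omega)
      rw [show L - (i + 1) + 1 = L - i by omega] at h1
      by_cases h2 : 2 * (L - (i + 1)) ≤ L
      · have h3 := hg2 _ h2
        have h4 : ((L / 2 + 1 - (L - (i + 1)) : ℕ) : ℤ) = ((L / 2 + 1 - (L - i) : ℕ) : ℤ) + 1 := by
          omega
        rw [h4]
        push_cast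
        linarith
      · have h3 := hg1 (L - (i + 1)) (by omega)
        have h4 : L / 2 + 1 - (L - (i + 1)) = L / 2 + 1 - (L - i) := by omega
        rw [h4]
        push_cast
        linarith
  have hrow' : ∀ c, c < L + 1 → N c ≤ y + Vm + Γ * ((L + 1 - c : ℕ) : ℤ) -
      k * ((L / 2 + 1 - c : ℕ) : ℤ) := by
    intro c hc
    have h1 := hrow (L - c) (by omega)
    rw [show L - (L - c) = c by omega] at h1
    have h2 := hV0 c (by omega)
    have h3 : ((L + 1 - c : ℕ) : ℤ) = ((L - c : ℕ) : ℤ) + 1 := by omega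
    rw [h3]
    linarith
  have hsplit : ∑ c ∈ Finset.range y, N c = ∑ c ∈ Finset.range (L + 1), N c +
      ∑ c ∈ Finset.Ico (L + 1) y, N c := by
    rw [Finset.sum_range_add_sum_Ico _ (by omega)]
  have hup : ∑ c ∈ Finset.Ico (L + 1) y, N c ≤ ((y : ℤ) - (L + 1)) * y := by
    have h1 : ∑ c ∈ Finset.Ico (L + 1) y, N c ≤ ∑ c ∈ Finset.Ico (L + 1) y, (y : ℤ) :=
      Finset.sum_le_sum fun c hc => by
        rw [Finset.mem_Ico] at hc
        exact hN c (by omega) hc.2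
    rw [Finset.sum_const, Nat.card_Ico, nsmul_eq_mul, Nat.cast_sub (by omega)] at h1
    push_cast at h1
    exact h1
  have hlow : ∑ c ∈ Finset.range (L + 1), N c ≤
      ((L : ℤ) + 1) * (y + Vm) + Γ * ∑ c ∈ Finset.range (L + 1), ((L + 1 - c : ℕ) : ℤ) -
        k * ∑ c ∈ Finset.range (L + 1), ((L / 2 + 1 - c : ℕ) : ℤ) := by
    have h1 : ∑ c ∈ Finset.range (L + 1), N c ≤ ∑ c ∈ Finset.range (L + 1),
        (y + Vm + Γ * ((L + 1 - c : ℕ) : ℤ) - k * ((L / 2 + 1 - c : ℕ) : ℤ)) :=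
      Finset.sum_le_sum fun c hc => hrow' c (Finset.mem_range.1 hc)
    rw [Finset.sum_sub_distrib, Finset.sum_add_distrib, ← Finset.mul_sum, ← Finset.mul_sum,
      Finset.sum_const, Finset.card_range, nsmul_eq_mul] at h1
    push_cast at h1 ⊢
    exact h1
  have ht1 := sum_tri L (L + 1) le_rfl
  have ht2 := sum_tri (L / 2) (L + 1) (by omega)
  have hh : (L : ℤ) ≤ 2 * ((L / 2 : ℕ) : ℤ) + 1 := by omega
  have hh0 : (0 : ℤ) ≤ ((L / 2 : ℕ) : ℤ) := by positivity
  have hy' : (L : ℤ) + 2 ≤ y := by exact_mod_cast hLy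
  have hL0 : (0 : ℤ) ≤ L := by positivity
  set h : ℤ := ((L / 2 : ℕ) : ℤ) with hhdef
  set S1 : ℤ := ∑ c ∈ Finset.range (L + 1), ((L + 1 - c : ℕ) : ℤ) with hS1
  set S2 : ℤ := ∑ c ∈ Finset.range (L + 1), ((L / 2 + 1 - c : ℕ) : ℤ) with hS2
  have e1 : S1 ≤ (y : ℤ) ^ 2 := by nlinarith
  have e2 : (L : ℤ) ^ 2 ≤ 8 * S2 := by nlinarith
  have e3 : Γ * S1 ≤ Γ * (y : ℤ) ^ 2 := mul_le_mul_of_nonneg_left e1 hΓ
  have e4 : k * (L : ℤ) ^ 2 ≤ k * (8 * S2) := mul_le_mul_of_nonneg_left e2 hk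
  have e5 : ((L : ℤ) + 1) * Vm ≤ y * Vm := mul_le_mul_of_nonneg_right (by linarith) hVm0
  rw [hsplit]
  nlinarith

end Pool.Agent.Lib.MP_6b2d39_agUn
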