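import Pool.Agent.Lib.MP_6b2d39_agUn.Prof
import Pool.Agent.Lib.MP_6b2d39_agUn.RwL
import Pool.Agent.Lib.MP_6b2d39_agUn.Kinks

set_option autoImplicit false

namespace Pool.Agent.Lib.MP_6b2d39_agUn

open Pool.Agent.Lib.MP_6b2d39_agArr

variable {ι : Type} [DecidableEq ι]

/-- U12 (LEMMA S). `lds K (b+1) = R (b+1) - V (b+1) - N (b+1) ≥ z - 3 M Q - (M+1) - M ≥ z / 2`, each
kink contributes `≤ M` (by `i2`), only kinks `< b + 1` contribute (`load_le_countP`); no pending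
`m i > b`; `R b - R (b+1) ≥ 0`. -/
theorem lem_s {P : Pa} {R : ℕ → ℤ} (hR : Rw P R) {m : ι → ℕ} {v0 : ℤ} {J : Finset ι} {y : ℕ}
    {D : ℕ → ℤ} {K : List ℤ} {V : ℕ → ℤ} (h : St P R m v0 J y D K V) (hy : y ≤ 3 * P.M) {b : ℕ}
    (hb : b + 1 < y) (hm : ∀ i ∈ J, m i ≤ b) (hN : nd m J D (b + 1) ≤ P.M) :
    (P.z : ℤ) ≤ 2 * P.M * sl R m J K b := by
  have hQ := P.hQ
  have hz := P.hz
  have hM := P.hM
  -- no pending load
  have h0 : ∑ i ∈ J, ((m i - (b + 1) : ℕ) : ℤ) = 0 :=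
    Finset.sum_eq_zero fun i hi => by
      have := hm i hi
      have h1 : m i - (b + 1) = 0 := by omega
      rw [h1]; rfl
  have h1 : (J.filter fun i => b < m i) = ∅ := by
    rw [Finset.filter_eq_empty_iff]
    intro i hi
    have := hm i hi
    omega
  have hD := h.i1 (b + 1) hb
  have hN' : nd m J D (b + 1) = D (b + 1) := by
    unfold nd
    rw [h0, sub_zero]
  have hRb := rw_ge hR (c := b + 1) (by omega)
  have hV := h.i3c (b + 1) hb
  have hV' : V (b + 1) ≤ P.M := by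
    rcases max_choice (((b + 1 : ℕ) : ℤ) + P.M + 1 - y) 0 with h2 | h2
    · rw [h2] at hV
      push_cast at hV
      omega
    · rw [h2] at hV
      omega
  have hld : lds K (b + 1) ≤ P.M * (K.countP fun t => t < ((b + 1 : ℕ) : ℤ)) := by
    unfold lds ld
    apply load_le_countP
    intro t ht
    have := h.i2 t ht
    push_cast
    omega
  have hMQ : P.M * 8 ≤ P.M * P.Q := Nat.mul_le_mul_left _ hQ
  have hQb : P.Q * (b + 1) ≤ P.Q * (3 * P.M) := Nat.mul_le_mul_left _ (by omega)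
  have e1 : P.Q * (3 * P.M) = 3 * (P.M * P.Q) := by ring
  have e2 : 16 * P.M * P.Q = 16 * (P.M * P.Q) := by ring
  have e3 : (P.Q : ℤ) * ((b + 1 : ℕ) : ℤ) ≤ 3 * ((P.M * P.Q : ℕ) : ℤ) := by
    rw [e1] at hQb
    exact_mod_cast hQb
  have e4 : 16 * ((P.M * P.Q : ℕ) : ℤ) ≤ P.z := by
    rw [e2] at hz
    exact_mod_cast hz
  have e5 : 8 * (P.M : ℤ) ≤ ((P.M * P.Q : ℕ) : ℤ) := by
    have : 8 * P.M ≤ P.M * P.Q := by omega
    exact_mod_cast this
  have e6 : (P.z : ℤ) ≤ 2 * lds K (b + 1) := by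
    rw [hN', hD] at hN
    linarith
  have hRR := hR.r1 b (by omega)
  have hnk : (nk K ((b : ℤ) + 1) : ℤ) = (K.countP fun t => t < ((b + 1 : ℕ) : ℤ)) := by
    unfold nk
    push_cast
    rfl
  have hsl : (nk K ((b : ℤ) + 1) : ℤ) ≤ sl R m J K b := by
    unfold sl
    rw [h1, Finset.card_empty, hRR]
    have : (0 : ℤ) ≤ P.Q := by positivity
    push_cast
    linarith
  have e7 : (P.M : ℤ) * nk K ((b : ℤ) + 1) ≤ P.M * sl R m J K b :=
    mul_le_mul_of_nonneg_left hsl (by positivity)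
  rw [← hnk] at hld
  linarith

end Pool.Agent.Lib.MP_6b2d39_agUn
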