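import Pool.Agent.Lib.MP_6b2d39_agUn.ArEnd
import Pool.Agent.Lib.MP_6b2d39_agUn.AbOf
import Pool.Agent.Lib.MP_6b2d39_agUn.EmpT
import Pool.Agent.Lib.MP_6b2d39_agUn.Lower

set_option autoImplicit false

namespace Pool.Agent.Lib.MP_6b2d39_agUn

open Pool.Agent.Lib.MP_6b2d39_agArr Pool.Agent.Lib.MP_6b2d39_agNw Pool.Agent.Lib.MP_6b2d39_agHl
  Pool.Agent.Lib.MP_6b2d39_agCr

/-- U59 (`v ≤ -W`): `lower_u`, `ar_neg` with `v0 = vd d μ'` (`rq_sum`; `ms` is the sum of the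
`(μ i + 1).choose 2`), `emp_rq`, `emp_mul` -/
theorem neg_u {n d M q X W : ℕ} (h : Nc M (d + 1) q X W) {μ : Fin n → ℕ} (hμ : ∀ i, μ i ≤ M)
    (hv : vd d μ ≤ -(W : ℤ)) : EmpQ (dgm (tri (d + 1)) (d + 1)) μ Finset.univ := by
  have hq : 1 ≤ q := by
    have := h.hq
    omega
  obtain ⟨μ', h1, h2, h3⟩ := lower_u hμ hv
  refine emp_mul h1 (emp_rq hq (by omega) ?_)
  refine ar_neg (ab_of h) (row_q h) (fun i _ => (h1 i).trans (hμ i)) (v0 := vd d μ') ?_ h2 h3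
  have e1 := rq_sum (N := d + 1) hq
  have e2 : ∑ b ∈ Finset.range ((d + 1 + q - 1) / q), (rq q (d + 1) b : ℤ) =
      (((d + 1 + 1).choose 2 : ℕ) : ℤ) := by
    rw [← e1]
    push_cast
    rfl
  rw [e2]
  unfold vd ms
  have e3 : ∀ i, ((μ' i * (μ' i + 1) / 2 : ℕ) : ℤ) = (((μ' i + 1).choose 2 : ℕ) : ℤ) := by
    intro i
    rw [Nat.choose_two_right, Nat.add_sub_cancel, Nat.mul_comm]
  simp only [e3]
  ring

end Pool.Agent.Lib.MP_6b2d39_agUn
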