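import Pool.Agent.Lib.MP_6b2d39_agUn.RwL

set_option autoImplicit false

namespace Pool.Agent.Lib.MP_6b2d39_agUn

open Pool.Agent.Lib.MP_6b2d39_agArr

variable {ι : Type} [DecidableEq ι]

private theorem nk_cons (K : List ℤ) (t s : ℤ) :
    nk (t :: K) s = nk K s + (if t < s then 1 else 0) := by
  unfold nk
  rw [List.countP_cons]
  congr 1
  simp

/-- U18. `i7` after a start: if `4 (y-1) ≥ M`, every kink `< c` gives `≥ 3 M / 16` on the top row,
so `M nk ≤ 6 z` before; if `4 (y-1) < M` the new kink is `≤ - M / 4`. -/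
theorem step7 {P : Pa} {R : ℕ → ℤ} (hR : Rw P R) {m : ι → ℕ} {v0 : ℤ} {J : Finset ι}
    {y : ℕ} {D : ℕ → ℤ} {K : List ℤ} {V : ℕ → ℤ} (h : St P R m v0 J y D K V) {j : ι}
    (hj : j ∈ J) {c : ℕ} (hc : 16 * c ≤ P.M) :
    P.M * nk (((y : ℤ) - 1 - m j) :: K) c ≤ 6 * P.z + P.M +
      P.M * ((((y : ℤ) - 1 - m j) :: K).countP fun t => 4 * t ≤ -(P.M : ℤ)) := by
  have h7 := h.i7 c hc
  have hm2 := h.hm2 j hj
  have hy := h.hy
  rw [nk_cons, List.countP_cons]
  split_ifs with h1 h2 h2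
  · rw [mul_add, mul_add]
    omega
  · -- the new kink is `> - M / 4`, so `M ≤ 4 (y - 1)`
    simp only [decide_eq_true_eq, not_le] at h2
    have hy4 : P.M ≤ 4 * (y - 1) := by omega
    have h3 : (K.countP (fun t => t < (c : ℤ)) : ℤ) * ((y : ℤ) - c) ≤ lds K (y - 1) := by
      rw [mul_comm]
      apply lds_count
      intro t _ ht
      omega
    have h4 := h3.trans (lds_top hR h)
    have h5 : (nk K c : ℤ) = (K.countP (fun t => t < (c : ℤ)) : ℤ) := rfl
    rw [← h5] at h4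
    have h6 : (nk K c : ℤ) * (3 * P.M) ≤ (nk K c : ℤ) * (16 * ((y : ℤ) - c)) :=
      mul_le_mul_of_nonneg_left (by omega) (Int.natCast_nonneg _)
    have h8 : 3 * (P.M * nk K c : ℤ) ≤ 16 * P.z := by nlinarith
    have h9 : (0 : ℤ) ≤ P.z := Int.natCast_nonneg _
    have h10 : (P.M * nk K c : ℤ) ≤ 6 * P.z := by linarith
    have h11 : P.M * nk K c ≤ 6 * P.z := by exact_mod_cast h10
    rw [mul_add, mul_one]
    have h12 : 0 ≤ P.M * ((K.countP fun t => decide (4 * t ≤ -(P.M : ℤ))) + 0) := Nat.zero_le _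
    omega
  · rw [mul_add, mul_add]
    omega
  · rw [mul_add, mul_add]
    omega

end Pool.Agent.Lib.MP_6b2d39_agUn
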