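import Pool.Agent.Lib.MP_6b2d39_agUn.Prof
import Pool.Agent.Lib.MP_6b2d39_agUn.SumLd
import Pool.Agent.Lib.MP_6b2d39_agUn.Step7

set_option autoImplicit false

namespace Pool.Agent.Lib.MP_6b2d39_agUn

open Pool.Agent.Lib.MP_6b2d39_agArr

variable {ι : Type} [DecidableEq ι]

private theorem nk_cons (K : List ℤ) (t s : ℤ) :
    nk (t :: K) s = nk K s + (if t < s then 1 else 0) := by
  unfold nk
  rw [List.countP_cons]
  congr 1
  simp

/-- U19 (OpA keeps the state) -/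
theorem step_a {P : Pa} {R : ℕ → ℤ} (hR : Rw P R) {m : ι → ℕ} {v0 : ℤ} {J : Finset ι}
    {y : ℕ} {D : ℕ → ℤ} {K : List ℤ} {V : ℕ → ℤ} (h : St P R m v0 J y D K V) {j : ι}
    (hj : j ∈ J) (hmax : ∀ i ∈ J, m i ≤ m j)
    (hN : min ((y : ℤ) - 1) (m j) < nd m J D (y - 1)) :
    St P R m v0 (J.erase j) y (fun c => D c - ld ((y : ℤ) - 1 - m j) c)
      (((y : ℤ) - 1 - m j) :: K) V := by
  have hy := h.hy
  have hnd : ∀ c, nd m (J.erase j) (fun c => D c - ld ((y : ℤ) - 1 - m j) c) c =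
      nd m J D c + ((m j - c : ℕ) : ℤ) - ld ((y : ℤ) - 1 - m j) c := by
    intro c
    unfold nd
    rw [← Finset.add_sum_erase J (fun i => ((m i - c : ℕ) : ℤ)) hj]
    ring
  refine ⟨h.hy, h.hyT, fun i hi => h.hm1 i (Finset.mem_of_mem_erase hi),
    fun i hi => h.hm2 i (Finset.mem_of_mem_erase hi), ?_, ?_, h.i3a, h.i3b, h.i3c, ?_, ?_, ?_,
    fun c hc => step7 hR h hj hc, ?_⟩
  · intro c hc
    rw [h.i1 c hc]
    unfold lds
    rw [List.map_cons, List.sum_cons]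
    ring
  · intro t ht
    rcases List.mem_cons.1 ht with ht | ht
    · have := h.hm1 j hj
      rw [ht]
      omega
    · exact h.i2 t ht
  · rw [hnd]
    have e : ld ((y : ℤ) - 1 - m j) (y - 1) = m j := by
      unfold ld
      rw [max_eq_left (by omega)]
      omega
    rw [e]
    omega
  · simp only [hnd]
    rw [Finset.sum_sub_distrib, Finset.sum_add_distrib, sum_ld, h.i5]
    ring
  · intro i hi s h1 h2 h3
    obtain ⟨t, ht, h4⟩ := h.i6 i (Finset.mem_of_mem_erase hi) s h1 h2 h3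
    exact ⟨t, List.mem_cons_of_mem _ ht, h4⟩
  · intro h1 c h2 h3
    have h4 := h.i8 h1 c h2 h3
    have h5 : (nk K c : ℝ) ≤ nk (((y : ℤ) - 1 - m j) :: K) c := by
      rw [nk_cons]
      exact_mod_cast Nat.le_add_right _ _
    linarith

end Pool.Agent.Lib.MP_6b2d39_agUn
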