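import Pool.Agent.Lib.MP_6b2d39_agUn.Base

set_option autoImplicit false

namespace Pool.Agent.Lib.MP_6b2d39_agUn

open Pool.Agent.Lib.MP_6b2d39_agArr

variable {ι : Type} [DecidableEq ι]

omit [DecidableEq ι] in
private lemma pf_low {P : Pa} {R : ℕ → ℤ} {m : ι → ℕ} {J : Finset ι} {y : ℕ}
    {D : ℕ → ℤ} {K : List ℤ} {j : ι} {L : ℕ} (hB : Blk P R m J y D K j L) :
    ∀ d b : ℕ, b + d + 1 = y → L ≤ b → 1 + 2 * (d : ℤ) ≤ nd m J D b := by
  intro d
  induction d with
  | zero =>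
    intro b hb hL
    have := (hB.b3 b hL (by omega)).1
    simpa using this
  | succ d ih =>
    intro b hb hL
    have h1 := ih (b + 1) (by omega) (by omega)
    have h2 := hB.b4 b hL (by omega)
    push_cast
    linarith

/-- U20. places: `N b + (b - m j) ≥ 1 + (b - m j)`, so `pl c ≤ #[L, min (y, c + M))`; `pl c = 0` for
`c ≤ y - 1 - m j` because `N b + (b - m j) ≥ N (y-1) + 2 (y-1-b) + (b - m j)`. -/
theorem pl_facts {P : Pa} {R : ℕ → ℤ} {m : ι → ℕ} {v0 : ℤ} {J : Finset ι} {y : ℕ}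
    {D : ℕ → ℤ} {K : List ℤ} {V : ℕ → ℤ} (h : St P R m v0 J y D K V) {j : ι} {L : ℕ}
    (hB : Blk P R m J y D K j L) (c : ℕ) :
    pl m (nd m J D) j L y c ≤ y - L ∧ pl m (nd m J D) j L y c ≤ pl m (nd m J D) j L y (c + 1) ∧
    (pl m (nd m J D) j L y c : ℤ) ≤ max ((c : ℤ) + P.M - L) 0 ∧
    ((c : ℤ) ≤ (y : ℤ) - 1 - m j → pl m (nd m J D) j L y c = 0) := by
  refine ⟨?_, ?_, ?_, ?_⟩
  · unfold pl
    refine (Finset.card_filter_le _ _).trans ?_
    rw [Nat.card_Ico]
  · unfold pl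
    refine Finset.card_le_card fun b hb => ?_
    rw [Finset.mem_filter] at hb ⊢
    refine ⟨hb.1, hb.2.trans ?_⟩
    push_cast
    linarith
  · have hsub : (Finset.Ico L y).filter (fun b => nd m J D b + ((b - m j : ℕ) : ℤ) ≤ c) ⊆
        Finset.Ico L (c + P.M) := by
      intro b hb
      rw [Finset.mem_filter, Finset.mem_Ico] at hb
      rw [Finset.mem_Ico]
      obtain ⟨⟨h1, h2⟩, h3⟩ := hb
      refine ⟨h1, ?_⟩
      have h4 := (hB.b3 b h1 h2).1
      have h5 := h.hm1 j hB.hj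
      omega
    have h1 := Finset.card_le_card hsub
    rw [Nat.card_Ico] at h1
    unfold pl
    have h2 : ((c + P.M - L : ℕ) : ℤ) = max ((c : ℤ) + P.M - L) 0 := by omega
    rw [← h2]
    exact_mod_cast h1
  · intro hc
    unfold pl
    rw [Finset.card_eq_zero, Finset.filter_eq_empty_iff]
    intro b hb
    rw [Finset.mem_Ico] at hb
    have h1 := pf_low hB (y - 1 - b) b (by omega) hb.1
    push Not
    omega

end Pool.Agent.Lib.MP_6b2d39_agUn
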