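import Mathlib

/-!
THEOREM U: the number of rows of a block with small demand.
-/

set_option autoImplicit false

namespace Pool.Agent.Lib.MP_6b2d39_agUn

/-- UN (placeN). A block `[L, y)` of exact rows with slopes `≥ Γ`: the number of rows with
`N b ≤ c`. -/
theorem placeN {y L c : ℕ} {Γ : ℤ} {N V g : ℕ → ℤ} (hL : 1 ≤ L) (hLy : L < y) (hΓ : 1 ≤ Γ)
    (hprof : ∀ b, L ≤ b + 1 → b + 1 < y → N b - N (b + 1) = g b + (V (b + 1) - V b))
    (hg : ∀ b, L ≤ b + 1 → b + 2 < y → g b ≤ g (b + 1))
    (hV : ∀ b, L ≤ b + 1 → b + 1 < y → V b ≤ V (b + 1))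
    (hgΓ : ∀ b, L ≤ b + 1 → b + 1 < y → Γ ≤ g b)
    (hN : 1 ≤ N (y - 1)) (hex : 8 * c < L → 7 * (L : ℤ) < 8 * N (L - 1)) :
    Γ * L * ((((Finset.Ico L y).filter fun b => N b ≤ c).card : ℤ) - 1) ≤
      8 * Γ * c * ((y : ℤ) - L) + 3 * c * (V (y - 1) - V (L - 1)) := by
  classical
  set S : Finset ℕ := (Finset.Ico L y).filter fun b => N b ≤ c with hS
  set n : ℕ := S.card with hn
  -- telescoping
  have hVm : ∀ k a, L ≤ a + 1 → a + k < y → V a ≤ V (a + k) := by
    intro k
    induction k with
    | zero => intro a _ _; simp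
    | succ k ih =>
      intro a ha hk
      exact (ih a ha (by omega)).trans (hV (a + k) (by omega) (by omega))
  have hgm : ∀ k a, L ≤ a + 1 → a + k + 1 < y → g a ≤ g (a + k) := by
    intro k
    induction k with
    | zero => intro a _ _; simp
    | succ k ih =>
      intro a ha hk
      exact (ih a ha (by omega)).trans (hg (a + k) (by omega) (by omega))
  have hup : ∀ k a, L ≤ a + 1 → a + k < y → ∀ G : ℤ, (∀ b, a ≤ b → b < a + k → g b ≤ G) →
      N a - N (a + k) ≤ k * G + (V (a + k) - V a) := by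
    intro k
    induction k with
    | zero => intro a _ _ G _; simp
    | succ k ih =>
      intro a ha hk G hG
      have h1 := ih a ha (by omega) G fun b hb hb' => hG b hb (by omega)
      have h2 := hprof (a + k) (by omega) (by omega)
      have h3 := hG (a + k) (by omega) (by omega)
      rw [show a + (k + 1) = a + k + 1 by omega]
      push_cast
      linarith
  have hlo : ∀ k a, L ≤ a + 1 → a + k < y → ∀ G : ℤ, (∀ b, a ≤ b → b < a + k → G ≤ g b) →
      k * G + (V (a + k) - V a) ≤ N a - N (a + k) := by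
    intro k
    induction k with
    | zero => intro a _ _ G _; simp
    | succ k ih =>
      intro a ha hk G hG
      have h1 := ih a ha (by omega) G fun b hb hb' => hG b hb (by omega)
      have h2 := hprof (a + k) (by omega) (by omega)
      have h3 := hG (a + k) (by omega) (by omega)
      rw [show a + (k + 1) = a + k + 1 by omega]
      push_cast
      linarith
  have hW0 : V (L - 1) ≤ V (y - 1) := by
    have := hVm (y - L) (L - 1) (by omega) (by omega)
    rwa [show L - 1 + (y - L) = y - 1 by omega] at this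
  have hLy' : (L : ℤ) < y := by exact_mod_cast hLy
  have hL' : (1 : ℤ) ≤ L := by exact_mod_cast hL
  have hc0 : (0 : ℤ) ≤ c := by positivity
  have hRHS : 0 ≤ 8 * Γ * c * ((y : ℤ) - L) + 3 * c * (V (y - 1) - V (L - 1)) := by
    have h1 : 0 ≤ 8 * Γ * c * ((y : ℤ) - L) :=
      mul_nonneg (mul_nonneg (by linarith) hc0) (by linarith)
    have h2 : 0 ≤ 3 * (c : ℤ) * (V (y - 1) - V (L - 1)) :=
      mul_nonneg (by linarith) (by linarith)
    linarith
  rcases Nat.lt_or_ge n 2 with h2 | h2
  · have h3 : (n : ℤ) - 1 ≤ 0 := by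
      have : (n : ℤ) ≤ 1 := by exact_mod_cast (by omega : n ≤ 1)
      linarith
    have h4 : Γ * L * ((n : ℤ) - 1) ≤ 0 :=
      mul_nonpos_of_nonneg_of_nonpos (mul_nonneg (by linarith) (by linarith)) h3
    linarith
  -- the set is the top interval
  have hsub : S ⊆ Finset.Ico L y := Finset.filter_subset _ _
  have hnl : n ≤ y - L := by
    have := Finset.card_le_card hsub
    rwa [Nat.card_Ico] at this
  have hdec : ∀ a b, L ≤ a → a ≤ b → b < y → N b ≤ N a := by
    intro a b ha hab hb
    obtain ⟨k, rfl⟩ := Nat.exists_eq_add_of_le hab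
    have h1 := hlo k a (by omega) hb 0 fun x hx hx' => by
      have := hgΓ x (by omega) (by omega)
      linarith
    have h2 := hVm k a (by omega) hb
    linarith
  have hbn : N (y - n) ≤ c := by
    by_contra hcon
    push Not at hcon
    have h3 : S ⊆ Finset.Ico (y - n + 1) y := by
      intro b hb
      rw [hS, Finset.mem_filter, Finset.mem_Ico] at hb
      rw [Finset.mem_Ico]
      refine ⟨?_, hb.1.2⟩
      by_contra h4
      have h5 := hdec b (y - n) hb.1.1 (by omega) (by omega)
      linarith [hb.2]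
    have h4 := Finset.card_le_card h3
    rw [Nat.card_Ico] at h4
    omega
  have hgn : Γ ≤ g (y - n) := hgΓ (y - n) (by omega) (by omega)
  -- top part
  have htop : ((n : ℤ) - 1) * g (y - n) ≤ c - 1 := by
    have h3 := hlo (n - 1) (y - n) (by omega) (by omega) (g (y - n)) fun b hb hb' => by
      obtain ⟨k, rfl⟩ := Nat.exists_eq_add_of_le hb
      exact hgm k (y - n) (by omega) (by omega)
    rw [show y - n + (n - 1) = y - 1 by omega] at h3
    have h4 := hVm (n - 1) (y - n) (by omega) (by omega)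
    rw [show y - n + (n - 1) = y - 1 by omega] at h4
    have h5 : ((n - 1 : ℕ) : ℤ) = (n : ℤ) - 1 := by
      rw [Nat.cast_sub (by omega)]; simp
    rw [h5] at h3
    linarith
  -- lower part
  have hbot : N (L - 1) ≤ c + ((y : ℤ) - L) * g (y - n) + (V (y - 1) - V (L - 1)) := by
    have h3 := hup (y - n - (L - 1)) (L - 1) (by omega) (by omega) (g (y - n)) fun b hb hb' => by
      have h6 := hgm (y - n - b) b (by omega) (by omega)
      rwa [show b + (y - n - b) = y - n by omega] at h6
    rw [show L - 1 + (y - n - (L - 1)) = y - n by omega] at h3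
    have h4 := hVm (n - 1) (y - n) (by omega) (by omega)
    rw [show y - n + (n - 1) = y - 1 by omega] at h4
    have h5 : ((y - n - (L - 1) : ℕ) : ℤ) ≤ (y : ℤ) - L := by
      omega
    have h6 : ((y - n - (L - 1) : ℕ) : ℤ) * g (y - n) ≤ ((y : ℤ) - L) * g (y - n) :=
      mul_le_mul_of_nonneg_right h5 (by linarith)
    linarith
  have hn1 : (1 : ℤ) ≤ (n : ℤ) - 1 := by
    have : (2 : ℤ) ≤ n := by exact_mod_cast h2
    linarith
  have hnl' : (n : ℤ) ≤ (y : ℤ) - L := by omega
  set W : ℤ := V (y - 1) - V (L - 1) with hW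
  have hW1 : 0 ≤ W := by rw [hW]; linarith
  set G : ℤ := g (y - n) with hG
  set l : ℤ := (y : ℤ) - L with hl
  rcases Nat.lt_or_ge (8 * c) L with h8 | h8
  · have h9 := hex h8
    have h8' : 8 * (c : ℤ) < L := by exact_mod_cast h8
    have h10 : 6 * (L : ℤ) - 8 * W < 8 * (l * G) := by linarith
    by_cases hW3 : 8 * W ≤ 3 * L
    · have h11 : 3 * (L : ℤ) ≤ 8 * (l * G) := by linarith
      have h12 : ((n : ℤ) - 1) * (3 * L) ≤ ((n : ℤ) - 1) * (8 * (l * G)) :=
        mul_le_mul_of_nonneg_left h11 (by linarith)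
      have h13 : l * (((n : ℤ) - 1) * G) ≤ l * c :=
        mul_le_mul_of_nonneg_left (by linarith) (by linarith)
      have h14 : 3 * (L * ((n : ℤ) - 1)) ≤ 8 * (l * c) := by nlinarith
      have h15 : L * ((n : ℤ) - 1) ≤ 8 * (l * c) := by
        have h15a : 0 ≤ L * ((n : ℤ) - 1) := mul_nonneg (by linarith) (by linarith)
        linarith
      have h16 : Γ * (L * ((n : ℤ) - 1)) ≤ Γ * (8 * (l * c)) :=
        mul_le_mul_of_nonneg_left h15 (by linarith)
      have h17 : 0 ≤ 3 * (c : ℤ) * W := mul_nonneg (by linarith) hW1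
      nlinarith
    · push Not at hW3
      have h11 : ((n : ℤ) - 1) * Γ ≤ c := by
        have := mul_le_mul_of_nonneg_left hgn (show (0 : ℤ) ≤ (n : ℤ) - 1 by linarith)
        linarith
      have h12 : L * (((n : ℤ) - 1) * Γ) ≤ L * c :=
        mul_le_mul_of_nonneg_left h11 (by linarith)
      have h13 : c * (3 * (L : ℤ)) ≤ c * (8 * W) :=
        mul_le_mul_of_nonneg_left hW3.le hc0
      have h14 : 0 ≤ 8 * Γ * c * l := mul_nonneg (mul_nonneg (by linarith) hc0) (by linarith)
      have h15 : 0 ≤ (c : ℤ) * W := mul_nonneg hc0 hW1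
      nlinarith
  · have h8' : (L : ℤ) ≤ 8 * c := by exact_mod_cast h8
    have h9 : L * ((n : ℤ) - 1) ≤ (8 * c) * l :=
      mul_le_mul h8' (by linarith) (by linarith) (by linarith)
    have h10 : Γ * (L * ((n : ℤ) - 1)) ≤ Γ * ((8 * c) * l) :=
      mul_le_mul_of_nonneg_left h9 (by linarith)
    have h17 : 0 ≤ 3 * (c : ℤ) * W := mul_nonneg (by linarith) hW1
    nlinarith

end Pool.Agent.Lib.MP_6b2d39_agUn
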