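import Pool.Agent.Lib.MP_6b2d39_agUn.Prof
import Pool.Agent.Lib.MP_6b2d39_agUn.RwL
import Pool.Agent.Lib.MP_6b2d39_agUn.PlaceN

set_option autoImplicit false

namespace Pool.Agent.Lib.MP_6b2d39_agUn

open Pool.Agent.Lib.MP_6b2d39_agArr

variable {ι : Type} [DecidableEq ι]

private theorem plle_X (P : Pa) : 16 ≤ P.X := by
  have h1 : (1 : ℝ) ≤ 3 * P.M := by
    have : (1 : ℝ) ≤ P.M := by exact_mod_cast P.hM
    linarith
  have h2 := Real.log_nonneg h1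
  have h3 := P.hX
  have h4 : (16 : ℝ) ≤ P.X := by linarith
  exact_mod_cast h4

/-- U23. `pl c ≤ 1 + 8 c l / L + (κ c / L) W`, `W = V (y-1) - V (L-1)`, `l = y - L`: `placeN` with
`Γ = 40 X`, `g = sl` (`pl c ≤ #{N b ≤ c}`; if `L > 8 c`: `m j ≥ y - c ≥ 7 L / 8`, so `b5` gives
`N (L-1) > 7 L / 8`, `L ≥ 64`). -/
theorem pl_le {P : Pa} {R : ℕ → ℤ} (hR : Rw P R) {m : ι → ℕ} {v0 : ℤ} {J : Finset ι} {y : ℕ}
    {D : ℕ → ℤ} {K : List ℤ} {V : ℕ → ℤ} (h : St P R m v0 J y D K V) {j : ι} {L : ℕ}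
    (hB : Blk P R m J y D K j L) (hy0 : P.y0 ≤ y) (hy : y ≤ 3 * P.M) {c : ℕ} (hc : 16 * c ≤ P.M)
    (ht : (y : ℤ) - 1 - m j < c) :
    (pl m (nd m J D) j L y c : ℝ) ≤ 1 + 8 * c * ((y : ℝ) - L) / L +
      P.ka * c / L * ((V (y - 1) : ℝ) - V (L - 1)) := by
  have hX := plle_X P
  have hL0 := hB.b0
  have hLy := hB.b1
  have hX' : (16 : ℤ) ≤ P.X := by exact_mod_cast hX
  have hex : 8 * c < L → 7 * (L : ℤ) < 8 * nd m J D (L - 1) := by
    intro h8
    have h9 := hB.b5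
    have h8' : 8 * (c : ℤ) < L := by exact_mod_cast h8
    rcases min_choice ((L : ℤ) - 1) (m j) with h10 | h10
    · rw [h10] at h9; omega
    · rw [h10] at h9; omega
  have key := placeN (Γ := 40 * P.X) (N := nd m J D) (V := V) (g := sl R m J K) (c := c) hL0 hLy
    (by linarith) (fun b _ hb => prof h.i1 hb)
    (fun b _ hb => sl_mono hR m J K (Nat.le_succ b) (by omega)) (fun b _ hb => h.i3b b hb)
    (fun b hb hb' => hB.b7 hy b hb hb') h.i4 hex
  have hpl : pl m (nd m J D) j L y c ≤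
      ((Finset.Ico L y).filter fun b => nd m J D b ≤ c).card := by
    unfold pl
    apply Finset.card_le_card
    intro b hb
    rw [Finset.mem_filter] at hb ⊢
    refine ⟨hb.1, ?_⟩
    have : (0 : ℤ) ≤ ((b - m j : ℕ) : ℤ) := by positivity
    linarith [hb.2]
  set n := ((Finset.Ico L y).filter fun b => nd m J D b ≤ c).card with hn
  have hplR : (pl m (nd m J D) j L y c : ℝ) ≤ n := by exact_mod_cast hpl
  have keyR : (40 * (P.X : ℝ)) * L * ((n : ℝ) - 1) ≤ 8 * (40 * P.X) * c * ((y : ℝ) - L) +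
      3 * c * ((V (y - 1) : ℝ) - V (L - 1)) := by
    exact_mod_cast key
  have hXR : (16 : ℝ) ≤ P.X := by exact_mod_cast hX
  have hLR : (1 : ℝ) ≤ L := by exact_mod_cast hL0
  have hpos : 0 < (40 * (P.X : ℝ)) * L := by positivity
  have h5 : (n : ℝ) - 1 ≤ (8 * (40 * P.X) * c * ((y : ℝ) - L) +
      3 * c * ((V (y - 1) : ℝ) - V (L - 1))) / ((40 * (P.X : ℝ)) * L) := by
    rw [le_div_iff₀ hpos]
    linarith
  have h6 : (8 * (40 * P.X) * c * ((y : ℝ) - L) +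
      3 * c * ((V (y - 1) : ℝ) - V (L - 1))) / ((40 * (P.X : ℝ)) * L) =
      8 * c * ((y : ℝ) - L) / L + P.ka * c / L * ((V (y - 1) : ℝ) - V (L - 1)) := by
    unfold Pa.ka
    field_simp
  linarith

end Pool.Agent.Lib.MP_6b2d39_agUn
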