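import Pool.Agent.Lib.MP_6b2d39_agUn.Base

set_option autoImplicit false

namespace Pool.Agent.Lib.MP_6b2d39_agUn

open Pool.Agent.Lib.MP_6b2d39_agArr

variable {ι : Type} [DecidableEq ι]

private theorem lds_succ (K : List ℤ) (c : ℕ) :
    lds K (c + 1) = lds K c + (nk K ((c : ℤ) + 1) : ℤ) := by
  induction K with
  | nil => simp [lds, nk]
  | cons t K ih =>
    have h1 : lds (t :: K) (c + 1) = ld t (c + 1) + lds K (c + 1) := by
      simp [lds]
    have h2 : lds (t :: K) c = ld t c + lds K c := by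
      simp [lds]
    have h3 : (nk (t :: K) ((c : ℤ) + 1) : ℤ) = nk K ((c : ℤ) + 1) + if t < (c : ℤ) + 1 then 1 else 0 := by
      unfold nk
      rw [List.countP_cons]
      by_cases ht : t < (c : ℤ) + 1
      · simp [ht]
      · simp [ht]
    rw [h1, h2, h3, ih]
    have h4 : ld t (c + 1) = ld t c + if t < (c : ℤ) + 1 then 1 else 0 := by
      unfold ld
      push_cast
      by_cases ht : t < (c : ℤ) + 1
      · rw [if_pos ht, max_eq_left (by linarith), max_eq_left (by linarith)]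
        ring
      · rw [if_neg ht, max_eq_right (by linarith), max_eq_right (by linarith)]
        ring
    rw [h4]
    ring

private theorem pend_succ (m : ι → ℕ) (J : Finset ι) (c : ℕ) :
    ∑ i ∈ J, ((m i - c : ℕ) : ℤ) =
      ∑ i ∈ J, ((m i - (c + 1) : ℕ) : ℤ) + ((J.filter fun i => c < m i).card : ℤ) := by
  have h : ((J.filter fun i => c < m i).card : ℤ) = ∑ i ∈ J, if c < m i then (1 : ℤ) else 0 := by
    rw [Finset.sum_ite, Finset.sum_const_zero, add_zero, Finset.sum_const, nsmul_eq_mul, mul_one]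
  rw [h, ← Finset.sum_add_distrib]
  refine Finset.sum_congr rfl fun i _ => ?_
  by_cases h1 : c < m i
  · rw [if_pos h1]
    omega
  · rw [if_neg h1]
    omega

/-- U10. profile: `ld t (c+1) - ld t c = 1` iff `t ≤ c`, `(m - c) - (m - (c+1)) = 1` iff `c < m`. -/
theorem prof {R : ℕ → ℤ} {m : ι → ℕ} {J : Finset ι} {y : ℕ} {D : ℕ → ℤ} {K : List ℤ} {V : ℕ → ℤ}
    (h : ∀ c < y, D c = R c - lds K c - V c) {c : ℕ} (hc : c + 1 < y) :
    nd m J D c - nd m J D (c + 1) = sl R m J K c + (V (c + 1) - V c) := by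
  unfold nd sl
  rw [h c (by omega), h (c + 1) hc, lds_succ, pend_succ m J c]
  ring

theorem nk_mono (K : List ℤ) {s t : ℤ} (h : s ≤ t) : nk K s ≤ nk K t := by
  unfold nk
  refine List.countP_mono_left fun x _ hx => ?_
  simp only [decide_eq_true_eq] at hx ⊢
  linarith

/-- U10. the slopes increase; gap at least the number of kinks in between -/
theorem sl_gap {P : Pa} {R : ℕ → ℤ} (hR : Rw P R) (m : ι → ℕ) (J : Finset ι) (K : List ℤ)
    {b c : ℕ} (hbc : b ≤ c) (hc : c < 3 * P.M) :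
    sl R m J K b + (nk K ((c : ℤ) + 1) - nk K ((b : ℤ) + 1)) ≤ sl R m J K c := by
  unfold sl
  rw [hR.r1 b (by omega), hR.r1 c hc]
  have h1 : (J.filter fun i => c < m i).card ≤ (J.filter fun i => b < m i).card := by
    refine Finset.card_le_card fun i hi => ?_
    rw [Finset.mem_filter] at hi ⊢
    exact ⟨hi.1, by omega⟩
  have h2 : ((J.filter fun i => c < m i).card : ℤ) ≤ (J.filter fun i => b < m i).card := by
    exact_mod_cast h1
  linarith

theorem sl_mono {P : Pa} {R : ℕ → ℤ} (hR : Rw P R) (m : ι → ℕ) (J : Finset ι) (K : List ℤ)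
    {b c : ℕ} (hbc : b ≤ c) (hc : c < 3 * P.M) : sl R m J K b ≤ sl R m J K c := by
  have h1 := sl_gap hR m J K hbc hc
  have h2 : nk K ((b : ℤ) + 1) ≤ nk K ((c : ℤ) + 1) := nk_mono K (by
    have : (b : ℤ) ≤ c := by exact_mod_cast hbc
    linarith)
  have h3 : (nk K ((b : ℤ) + 1) : ℤ) ≤ nk K ((c : ℤ) + 1) := by exact_mod_cast h2
  linarith

end Pool.Agent.Lib.MP_6b2d39_agUn
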