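import Pool.Agent.Lib.MP_6b2d39_agHl.Defs

/-!
THEOREM U (arbitrary multiplicities): the rows of the triangle after one step `y = x ^ q`.
-/

set_option autoImplicit false

namespace Pool.Agent.Lib.MP_6b2d39_agUn

open Pool.Agent.Lib.MP_6b2d39_agHl

private theorem kk_iff {q N b c : ℕ} (hq : 1 ≤ q) :
    b < kk q N (tri N) c ↔ b ≤ c / q ∧ (c / q - b) + c % q + q * b < N := by
  have hdm := Nat.div_add_mod c q
  have hmod := Nat.mod_lt c (show 0 < q by omega)
  set k := c / q with hk
  set ρ := c % q with hρ
  have hset : ((Finset.range N).filter fun i => q * i ≤ c ∧ c < q * i + tri N i) =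
      (Finset.range N).filter fun i => i ≤ k ∧ c < q * i + (N - i) := by
    apply Finset.filter_congr
    intro i _
    have h1 : q * i ≤ c ↔ i ≤ k := by
      rw [hk, Nat.le_div_iff_mul_le (by omega), mul_comm]
    rw [h1]
    rfl
  have hmono : ∀ i j, i ≤ j → j ≤ k → i < N → j < N → c < q * i + (N - i) →
      c < q * j + (N - j) := by
    intro i j hij _ hi hj h
    obtain ⟨t, rfl⟩ := Nat.exists_eq_add_of_le hij
    have h2 : t ≤ q * t := Nat.le_mul_of_pos_left t (by omega)
    rw [mul_add]
    omega
  have hcond : ∀ i, i ≤ k → i < N → (c < q * i + (N - i) ↔ (k - i) * q + ρ + i < N) := by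
    intro i hi hiN
    obtain ⟨t, ht⟩ := Nat.exists_eq_add_of_le hi
    have h2 : q * k = q * i + q * t := by rw [ht, mul_add]
    have h3 : k - i = t := by omega
    rw [h3, mul_comm t q]
    omega
  unfold kk
  rw [hset]
  constructor
  · intro h
    by_contra hcon
    push Not at hcon
    -- all counted `i` satisfy `k < i + b`
    have hsub : ((Finset.range N).filter fun i => i ≤ k ∧ c < q * i + (N - i)) ⊆
        Finset.Ico (k + 1 - b) (k + 1) := by
      intro i hi
      rw [Finset.mem_filter, Finset.mem_range] at hi
      obtain ⟨hiN, hik, hic⟩ := hi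
      rw [Finset.mem_Ico]
      refine ⟨?_, by omega⟩
      by_contra h4
      push Not at h4
      have h5 : b ≤ k := by omega
      have h6 := hcon h5
      have h7 : i ≤ k - b := by omega
      have h8 := hmono i (k - b) h7 (by omega) hiN (by
        by_contra h9
        push Not at h9
        have h10 := (hcond i hik hiN).1 hic
        have h11 : (k - i) * 1 ≤ (k - i) * q := Nat.mul_le_mul_left _ hq
        omega) hic
      have h12 : k - b < N := by
        have h10 := (hcond i hik hiN).1 hic
        have h11 : (k - i) * 1 ≤ (k - i) * q := Nat.mul_le_mul_left _ hq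
        omega
      have h13 := (hcond (k - b) (by omega) h12).1 h8
      have h14 : k - (k - b) = b := by omega
      rw [h14, mul_comm b q] at h13
      omega
    have h15 := Finset.card_le_card hsub
    rw [Nat.card_Ico] at h15
    omega
  · rintro ⟨h1, h2⟩
    have hsub : Finset.Icc (k - b) k ⊆
        (Finset.range N).filter fun i => i ≤ k ∧ c < q * i + (N - i) := by
      intro i hi
      rw [Finset.mem_Icc] at hi
      obtain ⟨hi1, hi2⟩ := hi
      rw [Finset.mem_filter, Finset.mem_range]
      obtain ⟨s, hs⟩ := Nat.exists_eq_add_of_le hi2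
      have h3 : k - i = s := by omega
      have h4 : s ≤ b := by omega
      obtain ⟨u, hu⟩ := Nat.exists_eq_add_of_le h4
      have h5 : q * b = q * s + q * u := by rw [hu, mul_add]
      have h6 : u ≤ q * u := Nat.le_mul_of_pos_left u (by omega)
      have h7 : s ≤ q * s := Nat.le_mul_of_pos_left s (by omega)
      have h8 : i < N := by omega
      refine ⟨h8, hi2, (hcond i hi2 h8).2 ?_⟩
      rw [h3, mul_comm s q]
      omega
    have h15 := Finset.card_le_card hsub
    rw [Nat.card_Icc] at h15
    omega

/-- UN1. the rows of the triangle after the step `y = x ^ q` -/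
theorem stp_tri {q N : ℕ} (hq : 1 ≤ q) (b : ℕ) :
    stp q N (tri N) b = ∑ i ∈ Finset.range q, (N - (q * b + i)) := by
  have hcount : stp q N (tri N) b =
      ((Finset.range q).sigma fun i => Finset.range (N - (q * b + i))).card := by
    unfold stp
    symm
    apply Finset.card_nbij' (fun p : (_ : ℕ) × ℕ => q * (p.2 + b) + p.1)
      (fun c => (⟨c % q, c / q - b⟩ : (_ : ℕ) × ℕ))
    · rintro ⟨i, k⟩ hp
      rw [Finset.mem_coe, Finset.mem_sigma, Finset.mem_range, Finset.mem_range] at hp
      obtain ⟨hi, hk⟩ := hp
      simp only at hi hk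
      rw [Finset.mem_coe, Finset.mem_filter, Finset.mem_range]
      have h1 : (q * (k + b) + i) / q = k + b := by
        rw [Nat.mul_add_div (by omega), Nat.div_eq_of_lt hi, add_zero]
      have h2 : (q * (k + b) + i) % q = i := by
        rw [Nat.mul_add_mod, Nat.mod_eq_of_lt hi]
      constructor
      · have h3 : k + b < N := by
          have h4 : b ≤ q * b := Nat.le_mul_of_pos_left b (by omega)
          omega
        have h5 : q * (k + b) + q ≤ q * N := by
          rw [← Nat.mul_succ]
          exact Nat.mul_le_mul_left q h3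
        simp only
        omega
      · simp only
        rw [kk_iff hq, h1, h2]
        refine ⟨by omega, by omega⟩
    · intro c hc
      rw [Finset.mem_coe, Finset.mem_filter] at hc
      rw [kk_iff hq] at hc
      obtain ⟨_, h1, h2⟩ := hc
      rw [Finset.mem_coe, Finset.mem_sigma, Finset.mem_range, Finset.mem_range]
      refine ⟨Nat.mod_lt c (by omega), ?_⟩
      simp only
      omega
    · rintro ⟨i, k⟩ hp
      rw [Finset.mem_coe, Finset.mem_sigma, Finset.mem_range, Finset.mem_range] at hp
      obtain ⟨hi, hk⟩ := hp
      simp only at hi hk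
      have h1 : (q * (k + b) + i) / q = k + b := by
        rw [Nat.mul_add_div (by omega), Nat.div_eq_of_lt hi, add_zero]
      have h2 : (q * (k + b) + i) % q = i := by
        rw [Nat.mul_add_mod, Nat.mod_eq_of_lt hi]
      simp only [h1, h2, Nat.add_sub_cancel]
    · intro c hc
      rw [Finset.mem_coe, Finset.mem_filter] at hc
      rw [kk_iff hq] at hc
      obtain ⟨_, h1, h2⟩ := hc
      simp only
      rw [Nat.sub_add_cancel h1, Nat.div_add_mod]
  rw [hcount, Finset.card_sigma]
  simp only [Finset.card_range]

end Pool.Agent.Lib.MP_6b2d39_agUn
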