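import Pool.Agent.Lib.MP_6b2d39_agUn.BaseM
import Pool.Agent.Lib.MP_6b2d39_agUn.StpTri

set_option autoImplicit false

namespace Pool.Agent.Lib.MP_6b2d39_agUn

private theorem rql_flat (q N : ℕ) : ∀ T : ℕ,
    ∑ b ∈ Finset.range T, rq q N b = ∑ c ∈ Finset.range (q * T), (N - c)
  | 0 => by simp
  | T + 1 => by
      rw [Finset.sum_range_succ, rql_flat q N T, Nat.mul_succ, Finset.sum_range_add]
      rfl

private theorem rql_tri : ∀ N : ℕ, ∑ c ∈ Finset.range N, (N - c) = (N + 1).choose 2
  | 0 => by simp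
  | N + 1 => by
      have h1 : ∀ c ∈ Finset.range N, N + 1 - (c + 1) = N - c := by
        intro c _
        omega
      rw [Finset.sum_range_succ', Finset.sum_congr rfl h1, rql_tri N,
        Nat.choose_succ_succ' (N + 1) 1, Nat.choose_one_right, Nat.sub_zero, Nat.add_comm]

private theorem rql_le {q N b : ℕ} (hb : (N + q - 1) / q ≤ b) (hq : 1 ≤ q) : N ≤ q * b := by
  have h1 : N + q - 1 < (b + 1) * q := by
    have h2 : (N + q - 1) / q < b + 1 := by omega
    exact (Nat.div_lt_iff_lt_mul (by omega)).1 h2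
  have h3 : (b + 1) * q = q * b + q := by ring
  omega

private theorem rql_dbl {N : ℕ} : ∀ q : ℕ, q ≤ N →
    2 * ∑ i ∈ Finset.range q, (N - i) + q * q = q * (2 * N + 1)
  | 0, _ => by simp
  | q + 1, h => by
      have h1 := rql_dbl (N := N) q (by omega)
      rw [Finset.sum_range_succ]
      obtain ⟨t, ht⟩ := Nat.exists_eq_add_of_le h
      have h2 : N - q = t + 1 := by omega
      rw [h2]
      have h3 : (q + 1) * (q + 1) = q * q + 2 * q + 1 := by ring
      have h4 : (q + 1) * (2 * N + 1) = q * (2 * N + 1) + (2 * N + 1) := by ring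
      rw [h3, h4]
      omega

/-- U53. the rows of the step: number of rows `T = (N + q - 1) / q`, `∑ R = N (N + 1) / 2` -/
theorem rq_sum {q N : ℕ} (hq : 1 ≤ q) :
    ∑ b ∈ Finset.range ((N + q - 1) / q), rq q N b = (N + 1).choose 2 := by
  have h1 : N ≤ q * ((N + q - 1) / q) := rql_le (le_refl _) hq
  obtain ⟨t, ht⟩ := Nat.exists_eq_add_of_le h1
  rw [rql_flat, ht, Finset.sum_range_add, rql_tri]
  have h2 : ∑ x ∈ Finset.range t, (N - (N + x)) = 0 := by
    apply Finset.sum_eq_zero
    intro x _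
    omega
  rw [h2, add_zero]

theorem rq_out {q N : ℕ} (hq : 1 ≤ q) {b : ℕ} (hb : (N + q - 1) / q ≤ b) : rq q N b = 0 := by
  have h1 := rql_le hb hq
  unfold rq
  apply Finset.sum_eq_zero
  intro i _
  omega

theorem rq_z {q N : ℕ} (hqN : q ≤ N) : q * N ≤ 2 * rq q N 0 ∧ rq q N 0 ≤ q * N := by
  have h0 : rq q N 0 = ∑ i ∈ Finset.range q, (N - i) := by
    unfold rq
    apply Finset.sum_congr rfl
    intro i _
    rw [Nat.mul_zero, Nat.zero_add]
  have h1 := rql_dbl (N := N) q hqN
  rw [h0]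
  constructor
  · have h2 : q * q ≤ q * N := Nat.mul_le_mul_left q hqN
    have h3 : q * (2 * N + 1) = q * N + q * N + q := by ring
    omega
  · have h2 : ∑ i ∈ Finset.range q, (N - i) ≤ ∑ _i ∈ Finset.range q, N := by
      apply Finset.sum_le_sum
      intro i _
      omega
    rw [Finset.sum_const, Finset.card_range, smul_eq_mul] at h2
    exact h2

end Pool.Agent.Lib.MP_6b2d39_agUn
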