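import Pool.Agent.Lib.MP_6b2d39_agUn.PlF

set_option autoImplicit false

namespace Pool.Agent.Lib.MP_6b2d39_agUn

open Pool.Agent.Lib.MP_6b2d39_agArr

variable {ι : Type} [DecidableEq ι]

/-- U21. the new residual demand: `N' c = N c + (m j - c) - ld c - pl c`; it is `≥ 1` at `L - 1`
(the load `ld + pl` of the row `L - 1` is `≤ m j`: its rank is `y - 1 - (L-1) - pl (L-1) ≥ 0` as
`pl ≤ y - L`). -/
theorem step4 {P : Pa} {R : ℕ → ℤ} {m : ι → ℕ} {v0 : ℤ} {J : Finset ι} {y : ℕ}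
    {D : ℕ → ℤ} {K : List ℤ} {V : ℕ → ℤ} (h : St P R m v0 J y D K V) {j : ι} {L : ℕ}
    (hB : Blk P R m J y D K j L) :
    1 ≤ nd m (J.erase j) (fun c => D c - ld ((y : ℤ) - 1 - m j) c -
      pl m (nd m J D) j L y c) (L - 1) := by
  obtain ⟨p1, -, -, p4⟩ := pl_facts h hB (L - 1)
  have hs : ∑ i ∈ J, ((m i - (L - 1) : ℕ) : ℤ) =
      ((m j - (L - 1) : ℕ) : ℤ) + ∑ i ∈ J.erase j, ((m i - (L - 1) : ℕ) : ℤ) :=
    (Finset.add_sum_erase J (fun i => ((m i - (L - 1) : ℕ) : ℤ)) hB.hj).symm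
  have e1 : nd m J D (L - 1) = D (L - 1) - ∑ i ∈ J, ((m i - (L - 1) : ℕ) : ℤ) := rfl
  have e2 : nd m (J.erase j) (fun c => D c - ld ((y : ℤ) - 1 - m j) c -
      pl m (nd m J D) j L y c) (L - 1) = (D (L - 1) - ld ((y : ℤ) - 1 - m j) (L - 1 : ℕ) -
      (pl m (nd m J D) j L y (L - 1) : ℤ)) - ∑ i ∈ J.erase j, ((m i - (L - 1) : ℕ) : ℤ) := rfl
  have b5 := hB.b5
  have b0 := hB.b0
  have b1 := hB.b1
  have hc : ((L - 1 : ℕ) : ℤ) = (L : ℤ) - 1 := by omega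
  rw [e2]
  rw [e1, hs] at b5
  have hl : ld ((y : ℤ) - 1 - m j) (L - 1 : ℕ) = max ((m j : ℤ) - ((y : ℤ) - L)) 0 := by
    unfold ld
    rw [hc]
    congr 1
    ring
  rw [hl]
  by_cases hq : (m j : ℤ) ≤ (y : ℤ) - L
  · have hp : pl m (nd m J D) j L y (L - 1) = 0 := p4 (by rw [hc]; linarith)
    rw [hp, max_eq_right (by linarith)]
    push_cast
    rcases le_total ((L : ℤ) - 1) (m j) with h1 | h1
    · rw [min_eq_left h1] at b5
      have : (0 : ℤ) ≤ ((m j - (L - 1) : ℕ) : ℤ) := by positivity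
      omega
    · rw [min_eq_right h1] at b5
      have h2 : ((m j - (L - 1) : ℕ) : ℤ) = 0 := by omega
      omega
  · have hp : (pl m (nd m J D) j L y (L - 1) : ℤ) ≤ (y : ℤ) - L := by
      have := (Nat.cast_le (α := ℤ)).mpr p1
      rw [Nat.cast_sub b1.le] at this
      exact this
    rw [max_eq_left (by linarith)]
    rcases le_total ((L : ℤ) - 1) (m j) with h1 | h1
    · rw [min_eq_left h1] at b5
      have h2 : ((m j - (L - 1) : ℕ) : ℤ) = (m j : ℤ) - ((L : ℤ) - 1) := by omega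
      rw [h2] at b5
      linarith
    · rw [min_eq_right h1] at b5
      have h2 : ((m j - (L - 1) : ℕ) : ℤ) = 0 := by omega
      rw [h2] at b5
      linarith

end Pool.Agent.Lib.MP_6b2d39_agUn
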