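import Pool.Agent.Lib.MP_6b2d39_agUn.NegU
import Pool.Agent.Lib.MP_6b2d39_agUn.PosU
import Pool.Agent.Lib.MP_6b2d39_agUn.AppU
import Pool.Agent.Lib.MP_6b2d39_agUn.Lower
import Pool.Agent.Lib.MP_6b2d39_agHl.ToGen
import Pool.Agent.Lib.MP_6b2d39_agHy.EmpCut

set_option autoImplicit false

namespace Pool.Agent.Lib.MP_6b2d39_agUn

open Pool.Agent.Lib.MP_6b2d39_agArr Pool.Agent.Lib.MP_6b2d39_agNw Pool.Agent.Lib.MP_6b2d39_agHl
  Pool.Agent.Lib.MP_6b2d39_agCr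

/-- U61 (the window): `neg_u` (`emp_inl`, `general_of_emp`) and `upper_u`, `pos_u`,
`general_of_emp`, `app_u` -/
theorem win_u {n d M q X W : ℕ} (h : Nc M (d + 1) q X W) {μ : Fin n → ℕ} (hμ : ∀ i, μ i ≤ M)
    (hv : (W : ℤ) ≤ |vd d μ|) :
    General (fun P => (Module.finrank ℂ (curves d μ P) : ℤ) = max (vd d μ) 0) := by
  rcases le_or_gt 0 (vd d μ) with h0 | h0
  · have hv1 : (W : ℤ) ≤ vd d μ := by rwa [abs_of_nonneg h0] at hv
    obtain ⟨k, hk1, hk2⟩ := upper_u h.hM hv1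
    have hW : (0 : ℤ) ≤ W := by positivity
    refine app_u (k := k) (c := M) μ (hW.trans hk1) (general_of_emp (pos_u h (fun i => ?_) hk1 hk2))
    refine Fin.addCases (fun j => ?_) (fun j => ?_) i
    · rw [Fin.append_left]
      exact hμ j
    · rw [Fin.append_right]
  · have hv1 : vd d μ ≤ -(W : ℤ) := by
      rw [abs_of_neg h0] at hv
      linarith
    exact general_of_emp (Pool.Agent.Lib.MP_6b2d39_agHy.emp_inl (neg_u h hμ hv1))

end Pool.Agent.Lib.MP_6b2d39_agUn
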